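import Pool.Agent.Lib.MP_d943a5_al.GR

/-!
# Induction from subgroups, quotient group rings, finite index, extensions
-/

set_option autoImplicit false

namespace Pool.Agent.Lib.MP_d943a5_al

section

variable {G Q : Type} [Group G] [Group Q]

-- BEGIN I1
theorem i1_mem (A : Subgroup G) (g : G) : ((g : G ⧸ A).out)⁻¹ * g ∈ A := by
  rw [← QuotientGroup.eq]
  exact QuotientGroup.out_eq' _

theorem i1_exists_D (A : Subgroup G) : ∃ D : ZG G →+ ((G ⧸ A) →₀ ZG A), ∀ g : G,
    D (el g) = Finsupp.single (g : G ⧸ A) (el (⟨((g : G ⧸ A).out)⁻¹ * g, i1_mem A g⟩ : A)) :=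
  exists_zg_hom _

noncomputable def i1_E (A : Subgroup G) : ((G ⧸ A) →₀ ZG A) →+ ZG G :=
  Finsupp.liftAddHom (fun t => (AddMonoidHom.mulLeft (el t.out)).comp
    (zmap A.subtype).toAddMonoidHom)

theorem i1_E_apply (A : Subgroup G) (v : (G ⧸ A) →₀ ZG A) :
    i1_E A v = v.sum fun t a => el t.out * zmap A.subtype a := by
  rw [i1_E, Finsupp.liftAddHom_apply]
  rfl

theorem i1_E_single (A : Subgroup G) (t : G ⧸ A) (a : ZG A) :
    i1_E A (Finsupp.single t a) = el t.out * zmap A.subtype a := by
  rw [i1_E_apply, Finsupp.sum_single_index]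
  rw [map_zero, mul_zero]

theorem i1_D_mul (A : Subgroup G) (D : ZG G →+ ((G ⧸ A) →₀ ZG A))
    (hD : ∀ g : G, D (el g) =
      Finsupp.single (g : G ⧸ A) (el (⟨((g : G ⧸ A).out)⁻¹ * g, i1_mem A g⟩ : A)))
    (t : G ⧸ A) (a : ZG A) : D (el t.out * zmap A.subtype a) = Finsupp.single t a := by
  induction a using zg_induction with
  | h1 a =>
    rw [zmap_el, ← el_mul, hD]
    have h1 : ((t.out * (A.subtype a) : G) : G ⧸ A) = t := by
      rw [A.subtype_apply, QuotientGroup.mk_mul_of_mem _ a.2]
      exact QuotientGroup.out_eq' _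
    have h2 : (⟨(((t.out * (A.subtype a) : G) : G ⧸ A).out)⁻¹ * (t.out * (A.subtype a)),
        i1_mem A _⟩ : A) = a := by
      apply Subtype.ext
      simp only [h1]
      rw [inv_mul_cancel_left]
      rfl
    rw [h2, h1]
  | h0 => rw [map_zero, mul_zero, map_zero, Finsupp.single_zero]
  | hadd x y hx hy => rw [map_add, mul_add, map_add, hx, hy, Finsupp.single_add]
  | hneg x hx => rw [map_neg, mul_neg, map_neg, hx, Finsupp.single_neg]

theorem i1_D_mul_right (A : Subgroup G) (D : ZG G →+ ((G ⧸ A) →₀ ZG A))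
    (hD : ∀ g : G, D (el g) =
      Finsupp.single (g : G ⧸ A) (el (⟨((g : G ⧸ A).out)⁻¹ * g, i1_mem A g⟩ : A)))
    (y : ZG G) (a : ZG A) (t : G ⧸ A) : D (y * zmap A.subtype a) t = D y t * a := by
  induction y using zg_induction with
  | h1 g =>
    induction a using zg_induction with
    | h1 a =>
      rw [zmap_el, ← el_mul, hD, hD]
      have h1 : ((g * (A.subtype a) : G) : G ⧸ A) = (g : G ⧸ A) := by
        rw [A.subtype_apply, QuotientGroup.mk_mul_of_mem _ a.2]
      have h2 : (⟨(((g * (A.subtype a) : G) : G ⧸ A).out)⁻¹ * (g * (A.subtype a)),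
          i1_mem A _⟩ : A) = (⟨((g : G ⧸ A).out)⁻¹ * g, i1_mem A g⟩ : A) * a := by
        apply Subtype.ext
        simp only [h1, Subgroup.coe_mul]
        rw [mul_assoc]
        rfl
      rw [h2, h1, el_mul]
      by_cases ht : (g : G ⧸ A) = t
      · subst ht
        rw [Finsupp.single_eq_same, Finsupp.single_eq_same]
      · rw [Finsupp.single_eq_of_ne (Ne.symm ht), Finsupp.single_eq_of_ne (Ne.symm ht), zero_mul]
    | h0 => rw [map_zero, mul_zero, mul_zero, map_zero, Finsupp.zero_apply]
    | hadd x y hx hy => rw [map_add, mul_add, map_add, Finsupp.add_apply, hx, hy, mul_add]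
    | hneg x hx => rw [map_neg, mul_neg, map_neg, Finsupp.neg_apply, hx, mul_neg]
  | h0 => rw [zero_mul, map_zero, Finsupp.zero_apply, zero_mul]
  | hadd x y hx hy => rw [add_mul, map_add, map_add, Finsupp.add_apply, hx, hy, Finsupp.add_apply,
      add_mul]
  | hneg x hx => rw [neg_mul, map_neg, map_neg, Finsupp.neg_apply, hx, Finsupp.neg_apply, neg_mul]

/-- the group ring is a free right module over the group ring of a subgroup -/
theorem decomp (A : Subgroup G) : ∃ D : ZG G ≃+ ((G ⧸ A) →₀ ZG A),
    (∀ (y : ZG G) (a : ZG A) (t : G ⧸ A), D (y * zmap A.subtype a) t = D y t * a) ∧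
    ∀ v : (G ⧸ A) →₀ ZG A, D.symm v = v.sum fun t a => el t.out * zmap A.subtype a := by
  obtain ⟨D, hD⟩ := i1_exists_D A
  have hl : ∀ x : ZG G, i1_E A (D x) = x := by
    intro x
    induction x using zg_induction with
    | h1 g =>
      rw [hD, i1_E_single, zmap_el, ← el_mul, A.subtype_apply, mul_inv_cancel_left]
    | h0 => rw [map_zero, map_zero]
    | hadd x y hx hy => rw [map_add, map_add, hx, hy]
    | hneg x hx => rw [map_neg, map_neg, hx]
  have hr : ∀ v : (G ⧸ A) →₀ ZG A, D (i1_E A v) = v := by
    intro v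
    induction v using Finsupp.induction_linear with
    | zero => rw [map_zero, map_zero]
    | add x y hx hy => rw [map_add, map_add, hx, hy]
    | single t a => rw [i1_E_single, i1_D_mul A D hD]
  refine ⟨AddEquiv.mk' ⟨fun x => D x, fun v => i1_E A v, hl, hr⟩ (fun x y => D.map_add x y),
    ?_, ?_⟩
  · intro y a t
    exact i1_D_mul_right A D hD y a t
  · intro v
    exact i1_E_apply A v
-- END I1

/-- the submodule induced by a submodule of a free module -/
noncomputable def ind (A : Subgroup G) {r : ℕ} (K : Submodule (ZG A) (Fin r → ZG A)) :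
    Submodule (ZG G) (Fin r → ZG G) :=
  Submodule.span (ZG G) ((fun (k : Fin r → ZG A) (i : Fin r) => zmap A.subtype (k i)) ''
    (K : Set (Fin r → ZG A)))

-- BEGIN I2
/-- relations over the big group ring are induced from relations over the small one -/
theorem ind_relations (A : Subgroup G) {r s : ℕ} (k : Fin s → (Fin r → ZG A))
    (c : Fin s → ZG G) (hc : ∀ i, ∑ j, c j * zmap A.subtype (k j i) = 0) :
    c ∈ ind A (LinearMap.ker (Fintype.linearCombination (ZG A) k)) := by
  classical
  obtain ⟨D, hD1, hD2⟩ := decomp A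
  have hker : ∀ t : G ⧸ A, (fun j => D (c j) t) ∈
      LinearMap.ker (Fintype.linearCombination (ZG A) k) := by
    intro t
    rw [LinearMap.mem_ker, Fintype.linearCombination_apply]
    funext i
    have h1 : D (∑ j, c j * zmap A.subtype (k j i)) t = 0 := by
      rw [hc i, map_zero]
      rfl
    rw [map_sum, Finsupp.finsetSum_apply] at h1
    rw [Finset.sum_apply, Pi.zero_apply, ← h1]
    refine Finset.sum_congr rfl fun j _ => ?_
    rw [hD1, Pi.smul_apply, smul_eq_mul]
  have hsum : c = ∑ t ∈ Finset.univ.biUnion (fun j => (D (c j)).support),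
      el (Quotient.out t : G) • (fun j : Fin s => zmap A.subtype (D (c j) t)) := by
    funext j
    have h1 : c j = (D (c j)).sum fun t a => el t.out * zmap A.subtype a := by
      rw [← hD2, AddEquiv.symm_apply_apply]
    rw [Finset.sum_apply]
    conv_lhs => rw [h1]
    rw [Finsupp.sum]
    refine (Finset.sum_subset (Finset.subset_biUnion_of_mem (fun j => (D (c j)).support)
      (Finset.mem_univ j)) fun t _ ht => ?_).trans (Finset.sum_congr rfl fun t _ => rfl)
    rw [Finsupp.notMem_support_iff.1 ht, map_zero, mul_zero]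
  rw [hsum]
  refine Submodule.sum_mem _ fun t _ => Submodule.smul_mem _ _ (Submodule.subset_span ?_)
  exact ⟨fun j => D (c j) t, hker t, rfl⟩
-- END I2

-- BEGIN I3
/-- induction of vectors -/
noncomputable def i3_phi (A : Subgroup G) {r : ℕ} (k : Fin r → ZG A) : Fin r → ZG G :=
  fun i => zmap A.subtype (k i)

theorem i3_phi_add (A : Subgroup G) {r : ℕ} (k l : Fin r → ZG A) :
    i3_phi A (k + l) = i3_phi A k + i3_phi A l := by
  funext i
  exact map_add _ _ _

theorem i3_phi_smul (A : Subgroup G) {r : ℕ} (a : ZG A) (k : Fin r → ZG A) :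
    i3_phi A (a • k) = zmap A.subtype a • i3_phi A k := by
  funext i
  exact map_mul _ _ _

theorem i3_phi_zero (A : Subgroup G) {r : ℕ} : i3_phi A (0 : Fin r → ZG A) = 0 := by
  funext i
  exact map_zero _

theorem i3_phi_sum (A : Subgroup G) {r s : ℕ} (k : Fin s → (Fin r → ZG A)) :
    i3_phi A (∑ j, k j) = ∑ j, i3_phi A (k j) := by
  funext i
  simp only [i3_phi, Finset.sum_apply, map_sum]

theorem i3_mem (A : Subgroup G) {r : ℕ} {K : Submodule (ZG A) (Fin r → ZG A)}
    {k : Fin r → ZG A} (hk : k ∈ K) : i3_phi A k ∈ ind A K :=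
  Submodule.subset_span ⟨k, hk, rfl⟩

theorem i3_span (A : Subgroup G) {r : ℕ} (K : Submodule (ZG A) (Fin r → ZG A))
    (T : Set (Fin r → ZG A)) (hT : Submodule.span (ZG A) T = K) :
    Submodule.span (ZG G) (i3_phi A '' T) = ind A K := by
  apply le_antisymm
  · rw [Submodule.span_le]
    rintro _ ⟨k, hk, rfl⟩
    exact i3_mem A (hT ▸ Submodule.subset_span hk)
  · unfold ind
    rw [Submodule.span_le]
    rintro _ ⟨k, hk, rfl⟩
    rw [← hT] at hk
    change i3_phi A k ∈ Submodule.span (ZG G) (i3_phi A '' T)
    refine Submodule.span_induction (p := fun k _ => i3_phi A k ∈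
      Submodule.span (ZG G) (i3_phi A '' T)) ?_ ?_ ?_ ?_ hk
    · intro k hk
      exact Submodule.subset_span ⟨k, hk, rfl⟩
    · rw [i3_phi_zero]
      exact Submodule.zero_mem _
    · intro k l _ _ h1 h2
      rw [i3_phi_add]
      exact Submodule.add_mem _ h1 h2
    · intro a k _ h1
      rw [i3_phi_smul]
      exact Submodule.smul_mem _ _ h1

theorem ind_FP (A : Subgroup G) : ∀ (n : ℕ) {r : ℕ} (K : Submodule (ZG A) (Fin r → ZG A)),
    FP (ZG A) n K → FP (ZG G) n (ind A K) := by
  intro n
  induction n with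
  | zero =>
    intro r K hK
    have h1 : K.FG := Module.Finite.iff_fg.1 hK
    obtain ⟨T, hT⟩ := h1
    have h2 : (ind A K).FG := by
      rw [← i3_span A K (T : Set _) hT]
      exact Submodule.fg_span (T.finite_toSet.image _)
    exact Module.Finite.iff_fg.2 h2
  | succ n ih =>
    intro r K hK
    obtain ⟨s, g, hg, hker⟩ := hK
    set k : Fin s → (Fin r → ZG A) := fun j => (g (Pi.single j 1)).1 with hk
    have hgL : ∀ v : Fin s → ZG A, (g v).1 = ∑ j, v j • k j := by
      intro v
      have h0 : v = ∑ j, v j • (Pi.single j 1 : Fin s → ZG A) := by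
        funext i
        rw [Finset.sum_apply, Finset.sum_eq_single i]
        · rw [Pi.smul_apply, Pi.single_eq_same, smul_eq_mul, mul_one]
        · intro j _ hj
          rw [Pi.smul_apply, Pi.single_eq_of_ne (Ne.symm hj), smul_zero]
        · intro hi
          exact (hi (Finset.mem_univ i)).elim
      have h1 : g v = ∑ j, v j • g (Pi.single j 1) := by
        conv_lhs => rw [h0]
        rw [map_sum]
        exact Finset.sum_congr rfl fun j _ => map_smul _ _ _
      rw [h1, Submodule.coe_sum]
      exact Finset.sum_congr rfl fun j _ => rfl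
    have hkerL : LinearMap.ker g = LinearMap.ker (Fintype.linearCombination (ZG A) k) := by
      ext v
      rw [LinearMap.mem_ker, LinearMap.mem_ker, Fintype.linearCombination_apply, ← hgL,
        Submodule.coe_eq_zero]
    have hspan : Submodule.span (ZG A) (Set.range k) = K := by
      apply le_antisymm
      · rw [Submodule.span_le]
        rintro _ ⟨j, rfl⟩
        exact (g (Pi.single j 1)).2
      · intro x hx
        obtain ⟨v, hv⟩ := hg ⟨x, hx⟩
        have h1 : x = ∑ j, v j • k j := by
          rw [← hgL, hv]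
        rw [h1]
        exact Submodule.sum_mem _ fun j _ => Submodule.smul_mem _ _
          (Submodule.subset_span ⟨j, rfl⟩)
    have hkj : ∀ j, i3_phi A (k j) ∈ ind A K := fun j => i3_mem A (g (Pi.single j 1)).2
    set f : (Fin s → ZG G) →ₗ[ZG G] ind A K :=
      Fintype.linearCombination (ZG G) (fun j => (⟨i3_phi A (k j), hkj j⟩ : ind A K)) with hf
    have hfc : ∀ c, (f c).1 = ∑ j, c j • i3_phi A (k j) := by
      intro c
      rw [hf, Fintype.linearCombination_apply, Submodule.coe_sum]
      rfl
    refine ⟨s, f, ?_, ?_⟩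
    · rintro ⟨y, hy⟩
      rw [← i3_span A K _ hspan, ← Set.range_comp] at hy
      obtain ⟨c, hc⟩ := (Submodule.mem_span_range_iff_exists_fun (ZG G)).1 hy
      refine ⟨c, Subtype.ext ?_⟩
      rw [hfc]
      exact hc
    · have h1 := ih (LinearMap.ker (Fintype.linearCombination (ZG A) k)) (FP.of_eq hkerL hker)
      refine FP.of_eq ?_ h1
      apply le_antisymm
      · unfold ind
        rw [Submodule.span_le]
        rintro _ ⟨v, hv, rfl⟩
        change i3_phi A v ∈ LinearMap.ker f
        have hv' : ∑ j, v j • k j = 0 := hv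
        rw [LinearMap.mem_ker]
        refine Subtype.ext ?_
        rw [hfc]
        have h2 : ∀ j, i3_phi A v j • i3_phi A (k j) = i3_phi A (v j • k j) := fun j =>
          (i3_phi_smul A (v j) (k j)).symm
        rw [Finset.sum_congr rfl fun j _ => h2 j, ← i3_phi_sum, hv', i3_phi_zero]
        rfl
      · intro c hc
        rw [LinearMap.mem_ker] at hc
        refine ind_relations A k c fun i => ?_
        have h2 := hfc c
        rw [hc] at h2
        have h3 := congrFun h2 i
        rw [Finset.sum_apply] at h3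
        exact h3.symm
-- END I3

-- BEGIN I4
theorem i4_zmap_one {A : Type} [Group A] (x : ZG A) : zmap (1 : A →* Q) x = aug A x • (1 : ZG Q) := by
  induction x using zg_induction with
  | h1 g =>
    rw [zmap_el, aug_el, one_smul, MonoidHom.one_apply, el_one]
  | h0 => simp
  | hadd x y hx hy => rw [map_add, map_add, add_smul, hx, hy]
  | hneg x hx => rw [map_neg, map_neg, neg_smul, hx]

theorem i4_gen (π : G →* Q) (g g' : G) (h : π g = π g') :
    (fun _ : Fin 1 => el g - el g') ∈
      ind π.ker ((IG π.ker).comap (oneEquiv (ZG π.ker)).toLinearMap) := by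
  have hk : g'⁻¹ * g ∈ π.ker := by
    rw [MonoidHom.mem_ker, map_mul, map_inv, h, inv_mul_cancel]
  have h1 : (fun _ : Fin 1 => el g - el g') = el g' •
      (fun i : Fin 1 => zmap π.ker.subtype
        ((fun _ : Fin 1 => (el (⟨g'⁻¹ * g, hk⟩ : π.ker) - 1)) i)) := by
    funext i
    rw [Pi.smul_apply, smul_eq_mul, map_sub, zmap_el, map_one, mul_sub, mul_one]
    change el g - el g' = el g' * el (g'⁻¹ * g) - el g'
    rw [← el_mul, mul_inv_cancel_left]
  rw [h1]
  refine Submodule.smul_mem _ _ (Submodule.subset_span ⟨_, ?_, rfl⟩)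
  exact el_sub_one_mem (⟨g'⁻¹ * g, hk⟩ : π.ker)

/-- the kernel of `ℤG → ℤQ` is induced from the augmentation ideal of the kernel -/
theorem ker_zmap_ind (π : G →* Q) (y : ZG G) : zmap π y = 0 ↔
    (fun _ : Fin 1 => y) ∈ ind π.ker ((IG π.ker).comap (oneEquiv (ZG π.ker)).toLinearMap) := by
  classical
  constructor
  · intro hy
    let s : Q → G := fun q => if h : ∃ g, π g = q then h.choose else 1
    have hs : ∀ g, π (s (π g)) = π g := by
      intro g
      have h : ∃ g', π g' = π g := ⟨g, rfl⟩
      simp only [s, dif_pos h]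
      exact h.choose_spec
    obtain ⟨S, hS⟩ := exists_zg_hom (G := Q) (fun q => el (s q))
    have key : ∀ x : ZG G, (fun _ : Fin 1 => x - S (zmap π x)) ∈
        ind π.ker ((IG π.ker).comap (oneEquiv (ZG π.ker)).toLinearMap) := by
      intro x
      induction x using zg_induction with
      | h1 g =>
        rw [zmap_el, hS]
        exact i4_gen π g (s (π g)) (hs g).symm
      | h0 =>
        rw [map_zero, map_zero, sub_zero]
        exact Submodule.zero_mem _
      | hadd x y hx hy =>
        have h1 : (fun _ : Fin 1 => x + y - S (zmap π (x + y))) =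
            (fun _ : Fin 1 => x - S (zmap π x)) + (fun _ : Fin 1 => y - S (zmap π y)) := by
          funext i
          rw [Pi.add_apply, map_add, map_add]
          abel
        rw [h1]
        exact Submodule.add_mem _ hx hy
      | hneg x hx =>
        have h1 : (fun _ : Fin 1 => -x - S (zmap π (-x))) =
            -(fun _ : Fin 1 => x - S (zmap π x)) := by
          funext i
          rw [Pi.neg_apply, map_neg, map_neg]
          abel
        rw [h1]
        exact Submodule.neg_mem _ hx
    have h2 := key y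
    rw [hy, map_zero, sub_zero] at h2
    exact h2
  · intro h
    have key : ∀ v ∈ ind π.ker ((IG π.ker).comap (oneEquiv (ZG π.ker)).toLinearMap),
        zmap π (v 0) = 0 := by
      intro v hv
      refine Submodule.span_induction (p := fun v _ => zmap π (v 0) = 0) ?_ ?_ ?_ ?_ hv
      · rintro _ ⟨k, hk, rfl⟩
        have hk' : aug π.ker (k 0) = 0 := hk
        change zmap π (zmap π.ker.subtype (k 0)) = 0
        rw [zmap_comp]
        have h1 : π.comp π.ker.subtype = 1 := by
          ext x
          exact x.2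
        rw [h1, i4_zmap_one, hk', zero_smul]
      · rw [Pi.zero_apply, map_zero]
      · intro x y _ _ hx hy
        rw [Pi.add_apply, map_add, hx, hy, add_zero]
      · intro a x _ hx
        rw [Pi.smul_apply, smul_eq_mul, map_mul, hx, mul_zero]
    exact key _ h
-- END I4

-- BEGIN I5
/-- the projection as a linear map -/
noncomputable def i5_L (π : G →* Q) : ZG G →ₗ[ZG G] Res (zmap π) (ZG Q) where
  toFun x := (show Res (zmap π) (ZG Q) from zmap π x)
  map_add' x y := (zmap π).map_add x y
  map_smul' a x := (zmap π).map_mul a x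

theorem i5_ker (π : G →* Q) :
    ind π.ker ((IG π.ker).comap (oneEquiv (ZG π.ker)).toLinearMap) =
      (LinearMap.ker (i5_L π)).comap (oneEquiv (ZG G)).toLinearMap := by
  ext v
  have h1 : v = fun _ : Fin 1 => v 0 := by
    funext i
    rw [Subsingleton.elim i 0]
  have h2 : v ∈ (LinearMap.ker (i5_L π)).comap (oneEquiv (ZG G)).toLinearMap ↔
      zmap π (v 0) = 0 := Iff.rfl
  rw [h2, ker_zmap_ind π (v 0), ← h1]

/-- (CR3) `ℤQ` is of type `FP n` over `ℤG` if the kernel of `G → Q` is of type `FP n`. -/
theorem fp_quot_ring (π : G →* Q) (hπ : Function.Surjective π) (n : ℕ) (h : GFP n π.ker) :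
    FP (ZG G) n (Res (zmap π) (ZG Q)) := by
  have hL : Function.Surjective (i5_L π) := zmap_surjective π hπ
  cases n with
  | zero => exact FP.quot_zero (i5_L π) hL (FP.ring _ 0)
  | succ n =>
    refine FP.quot n (i5_L π) hL (FP.ring _ (n + 1)) ?_
    have h1 : FP (ZG π.ker) n (IG π.ker) := (GFP_succ_iff n).1 h
    have h2 : FP (ZG π.ker) n
        ((IG π.ker).comap (oneEquiv (ZG π.ker)).toLinearMap) :=
      FP.equiv ((oneEquiv (ZG π.ker)).ofSubmodule' (IG π.ker)).symm h1
    have h3 := ind_FP π.ker n _ h2
    have h4 := FP.of_eq (i5_ker π) h3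
    exact FP.equiv ((oneEquiv (ZG G)).ofSubmodule' (LinearMap.ker (i5_L π))) h4
-- END I5

/-- modules of type `FP n` over the group ring of a quotient -/
theorem FP.res_quot (π : G →* Q) (hπ : Function.Surjective π) (n : ℕ) (h : GFP n π.ker)
    {M : Type} [AddCommGroup M] [Module (ZG Q) M] (hM : FP (ZG Q) n M) :
    FP (ZG G) n (Res (zmap π) M) :=
  FP.res _ n (fp_quot_ring π hπ n h) hM

/-- extensions of groups of type `FP n` -/
theorem GFP.extension (π : G →* Q) (hπ : Function.Surjective π) (n : ℕ) (h : GFP n π.ker)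
    (hQ : GFP n Q) : GFP n G :=
  FP.equiv (trivEquiv π).symm (FP.res_quot π hπ n h hQ)

-- BEGIN I6
/-- the comparison map from the free module on the right cosets -/
noncomputable def i6_Psi (H : Subgroup G) [Fintype (Quotient (QuotientGroup.rightRel H))] :
    (Quotient (QuotientGroup.rightRel H) → ZG H) →ₗ[ZG H] Res (zmap H.subtype) (ZG G) where
  toFun v := (show Res (zmap H.subtype) (ZG G) from
    (∑ t, zmap H.subtype (v t) * el t.out : ZG G))
  map_add' x y := by
    change (∑ t, zmap H.subtype ((x + y) t) * el t.out : ZG G) =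
      (∑ t, zmap H.subtype (x t) * el t.out) + (∑ t, zmap H.subtype (y t) * el t.out)
    rw [← Finset.sum_add_distrib]
    refine Finset.sum_congr rfl fun t _ => ?_
    rw [Pi.add_apply, map_add, add_mul]
  map_smul' a x := by
    change (∑ t, zmap H.subtype ((a • x) t) * el t.out : ZG G) =
      zmap H.subtype a * (∑ t, zmap H.subtype (x t) * el t.out)
    rw [Finset.mul_sum]
    refine Finset.sum_congr rfl fun t _ => ?_
    rw [Pi.smul_apply, smul_eq_mul, map_mul, mul_assoc]

theorem i6_Psi_single (H : Subgroup G) [Fintype (Quotient (QuotientGroup.rightRel H))]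
    [DecidableEq (Quotient (QuotientGroup.rightRel H))]
    (t : Quotient (QuotientGroup.rightRel H)) (x : ZG H) :
    i6_Psi H (Pi.single t x) = (show Res (zmap H.subtype) (ZG G) from
      (zmap H.subtype x * el t.out : ZG G)) := by
  change (∑ t', zmap H.subtype ((Pi.single t x : Quotient (QuotientGroup.rightRel H) → ZG H) t') *
    el t'.out : ZG G) = zmap H.subtype x * el t.out
  rw [Finset.sum_eq_single t]
  · rw [Pi.single_eq_same]
  · intro t' _ ht'
    rw [Pi.single_eq_of_ne ht', map_zero, zero_mul]
  · intro h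
    exact absurd (Finset.mem_univ t) h

theorem i6_mem (H : Subgroup G) (g : G) :
    g * (Quotient.mk (QuotientGroup.rightRel H) g).out⁻¹ ∈ H := by
  have h := Quotient.mk_out (s := QuotientGroup.rightRel H) g
  exact QuotientGroup.rightRel_apply.1 h

/-- the group ring is free over the group ring of a subgroup of finite index -/
theorem free_finite_index (H : Subgroup G) [H.FiniteIndex] :
    ∃ s : ℕ, Nonempty (Res (zmap H.subtype) (ZG G) ≃ₗ[ZG H] (Fin s → ZG H)) := by
  classical
  have hfin : Finite (Quotient (QuotientGroup.rightRel H)) :=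
    Finite.of_equiv (G ⧸ H) (QuotientGroup.quotientRightRelEquivQuotientLeftRel H).symm
  let _ : Fintype (Quotient (QuotientGroup.rightRel H)) := Fintype.ofFinite _
  obtain ⟨Φ, hΦ⟩ := exists_zg_hom (G := G) (A := Quotient (QuotientGroup.rightRel H) → ZG H)
    (fun g => Pi.single (Quotient.mk (QuotientGroup.rightRel H) g)
      (el (⟨g * (Quotient.mk (QuotientGroup.rightRel H) g).out⁻¹, i6_mem H g⟩ : H)))
  have h1 : ∀ (t : Quotient (QuotientGroup.rightRel H)) (x : ZG H),
      Φ (zmap H.subtype x * el t.out) = Pi.single t x := by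
    intro t x
    induction x using zg_induction with
    | h1 h =>
      rw [zmap_el, ← el_mul, hΦ]
      have ht : Quotient.mk (QuotientGroup.rightRel H) (H.subtype h * t.out) = t := by
        conv_rhs => rw [← Quotient.out_eq t]
        apply Quotient.sound
        apply QuotientGroup.rightRel_apply.2
        change t.out * ((h : G) * t.out)⁻¹ ∈ H
        rw [mul_inv_rev, mul_inv_cancel_left]
        exact H.inv_mem h.2
      have h2 : (⟨H.subtype h * t.out *
          (Quotient.mk (QuotientGroup.rightRel H) (H.subtype h * t.out)).out⁻¹,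
          i6_mem H (H.subtype h * t.out)⟩ : H) = h := by
        apply Subtype.ext
        change (h : G) * t.out *
          (Quotient.mk (QuotientGroup.rightRel H) (H.subtype h * t.out)).out⁻¹ = h
        rw [ht, mul_inv_cancel_right]
      rw [h2, ht]
    | h0 => rw [map_zero, zero_mul, map_zero, Pi.single_zero]
    | hadd x y hx hy => rw [map_add, add_mul, map_add, hx, hy, Pi.single_add]
    | hneg x hx => rw [map_neg, neg_mul, map_neg, hx, Pi.single_neg]
  have hbij : Function.Bijective (i6_Psi H) := by
    constructor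
    · intro v w hvw
      have h2 : ∀ v : Quotient (QuotientGroup.rightRel H) → ZG H,
          Φ (show ZG G from i6_Psi H v) = v := by
        intro v
        change Φ (∑ t, zmap H.subtype (v t) * el t.out) = v
        rw [map_sum]
        conv_rhs => rw [← Finset.univ_sum_single v]
        exact Finset.sum_congr rfl fun t _ => h1 t (v t)
      rw [← h2 v, ← h2 w, hvw]
    · intro y
      have h3 : ∀ y : ZG G, (show ZG G from i6_Psi H (Φ y)) = y := by
        let Ψ : (Quotient (QuotientGroup.rightRel H) → ZG H) →+ ZG G :=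
          (i6_Psi H).toAddMonoidHom
        intro y
        refine zg_hom_ext (f := Ψ.comp Φ) (f' := AddMonoidHom.id (ZG G)) ?_ y
        intro g
        change (show ZG G from i6_Psi H (Φ (el g))) = el g
        rw [hΦ, i6_Psi_single]
        change (zmap H.subtype (el (⟨g * (Quotient.mk (QuotientGroup.rightRel H) g).out⁻¹,
          i6_mem H g⟩ : H)) * el (Quotient.mk (QuotientGroup.rightRel H) g).out : ZG G) = el g
        rw [zmap_el, ← el_mul]
        change el (g * (Quotient.mk (QuotientGroup.rightRel H) g).out⁻¹ *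
          (Quotient.mk (QuotientGroup.rightRel H) g).out) = el g
        rw [inv_mul_cancel_right]
      exact ⟨Φ y, h3 y⟩
  refine ⟨Fintype.card (Quotient (QuotientGroup.rightRel H)), ⟨?_⟩⟩
  exact (LinearEquiv.ofBijective (i6_Psi H) hbij).symm.trans
    (LinearEquiv.funCongrLeft (ZG H) (ZG H)
      (Fintype.equivFin (Quotient (QuotientGroup.rightRel H))).symm)
-- END I6

theorem GFP.finiteIndex (H : Subgroup G) [H.FiniteIndex] (n : ℕ) (h : GFP n G) : GFP n H := by
  obtain ⟨s, ⟨e⟩⟩ := free_finite_index H
  have h1 : FP (ZG H) n (Res (zmap H.subtype) (ZG G)) := FP.equiv e.symm (FP.free n s)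
  exact FP.equiv (trivEquiv H.subtype).symm (FP.res _ n h1 h)

-- BEGIN I7
theorem GFP.of_finite [Finite G] (n : ℕ) : GFP n G := by
  have h1 : Module.Finite ℤ (ZG G) := inferInstance
  have h2 : IsNoetherianRing (ZG G) := IsNoetherianRing.of_finite ℤ (ZG G)
  exact FP.of_noetherian n _ GFP_zero
-- END I7

-- BEGIN I8
theorem i8_finite_support {x : ZG G}
    (hx : x ∈ AddSubgroup.closure (Set.range fun g : G => el g - 1)) :
    ∃ T : Finset G, x ∈ AddSubgroup.closure ((fun g : G => el g - 1) '' (T : Set G)) := by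
  classical
  induction hx using AddSubgroup.closure_induction with
  | mem x hx =>
    obtain ⟨g, rfl⟩ := hx
    exact ⟨{g}, AddSubgroup.subset_closure ⟨g, by simp, rfl⟩⟩
  | zero => exact ⟨∅, AddSubgroup.zero_mem _⟩
  | add x y _ _ hx hy =>
    obtain ⟨S, hS⟩ := hx
    obtain ⟨T, hT⟩ := hy
    refine ⟨S ∪ T, AddSubgroup.add_mem _ ?_ ?_⟩
    · refine AddSubgroup.closure_mono (Set.image_mono ?_) hS
      intro g hg
      exact Finset.mem_coe.2 (Finset.mem_union_left _ (Finset.mem_coe.1 hg))
    · refine AddSubgroup.closure_mono (Set.image_mono ?_) hT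
      intro g hg
      exact Finset.mem_coe.2 (Finset.mem_union_right _ (Finset.mem_coe.1 hg))
  | neg x _ hx =>
    obtain ⟨S, hS⟩ := hx
    exact ⟨S, AddSubgroup.neg_mem _ hS⟩

/-- groups of type `FP 1` are finitely generated -/
theorem GFP.fg (h : GFP 1 G) : Group.FG G := by
  classical
  have h1 : Module.Finite (ZG G) (IG G) := (GFP_succ_iff 0).1 h
  obtain ⟨S, hS⟩ := (Module.Finite.iff_fg).1 h1
  have hmem : ∀ s ∈ S, s ∈ IG G := fun s hs => by
    rw [← hS]
    exact Submodule.subset_span hs
  choose! T hT using fun (s : ZG G) (hs : s ∈ S) =>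
    i8_finite_support (IG_le_closure (hmem s hs))
  let U : Finset G := S.biUnion T
  let H : Subgroup G := Subgroup.closure (U : Set G)
  obtain ⟨Φ, hΦ⟩ := exists_zg_hom (G := G) (A := (G ⧸ H) →₀ ℤ)
    (fun g => Finsupp.single (g : G ⧸ H) 1)
  have key1 : ∀ (h : G), h ∈ H → ∀ y : ZG G, Φ (y * (el h - 1)) = 0 := by
    intro h hh y
    induction y using zg_induction with
    | h1 g =>
      rw [mul_sub, mul_one, ← el_mul, map_sub, hΦ, hΦ]
      have : ((g * h : G) : G ⧸ H) = (g : G ⧸ H) := by
        rw [QuotientGroup.eq]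
        rw [mul_inv_rev, mul_assoc, inv_mul_cancel, mul_one]
        exact H.inv_mem hh
      rw [this, sub_self]
    | h0 => rw [zero_mul, map_zero]
    | hadd x y hx hy => rw [add_mul, map_add, hx, hy, add_zero]
    | hneg x hx => rw [neg_mul, map_neg, hx, neg_zero]
  have key3 : ∀ (V : Set G), V ⊆ H → ∀ x ∈ AddSubgroup.closure ((fun g : G => el g - 1) '' V),
      ∀ y : ZG G, Φ (y * x) = 0 := by
    intro V hV x hx y
    induction hx using AddSubgroup.closure_induction with
    | mem z hz =>
      obtain ⟨g, hg, rfl⟩ := hz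
      exact key1 g (hV hg) y
    | zero => rw [mul_zero, map_zero]
    | add a b _ _ ha hb => rw [mul_add, map_add, ha, hb, add_zero]
    | neg a _ ha => rw [mul_neg, map_neg, ha, neg_zero]
  have key2 : ∀ x ∈ IG G, ∀ y : ZG G, Φ (y * x) = 0 := by
    intro x hx
    rw [← hS] at hx
    induction hx using Submodule.span_induction with
    | mem s hs =>
      intro y
      refine key3 (T s : Set G) ?_ s (hT s hs) y
      intro g hg
      exact Subgroup.subset_closure
        (Finset.mem_coe.2 (Finset.mem_biUnion.2 ⟨s, hs, Finset.mem_coe.1 hg⟩))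
    | zero =>
      intro y
      rw [mul_zero, map_zero]
    | add a b _ _ ha hb =>
      intro y
      rw [mul_add, map_add, ha, hb, add_zero]
    | smul c a _ ha =>
      intro y
      rw [smul_eq_mul, ← mul_assoc]
      exact ha _
  have hH : H = ⊤ := by
    rw [eq_top_iff]
    intro g _
    have h3 := key2 _ (el_sub_one_mem g) 1
    rw [one_mul, map_sub, hΦ, ← el_one, hΦ, sub_eq_zero] at h3
    have h4 : ((g : G) : G ⧸ H) = ((1 : G) : G ⧸ H) :=
      (Finsupp.single_left_inj one_ne_zero).1 h3
    have h5 := QuotientGroup.eq.1 h4.symm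
    simpa using h5
  exact ⟨⟨U, hH⟩⟩
-- END I8

end

end Pool.Agent.Lib.MP_d943a5_al
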