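import Pool.Agent.Lib.MP_d943a5_al.Tree
import Pool.Agent.Lib.MP_d943a5_al.Ind

/-!
# Modules which are free of finite rank over the group ring of a subgroup with free quotient
-/

set_option autoImplicit false

namespace Pool.Agent.Lib.MP_d943a5_al

-- BEGIN C1
/-- Schanuel's trick: two covers of the same module become isomorphic after stabilisation. -/
theorem schanuel {R M : Type} [Ring R] [AddCommGroup M] [Module R M] (k : ℕ)
    (p p' : (Fin k → R) →ₗ[R] M) (hp : Function.Surjective p) (hp' : Function.Surjective p') :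
    ∃ A : ((Fin k → R) × (Fin k → R)) ≃ₗ[R] ((Fin k → R) × (Fin k → R)),
      ∀ z, p (A z).1 = p' z.1 := by
  obtain ⟨a, ha⟩ := Module.projective_lifting_property p p' hp
  obtain ⟨b, hb⟩ := Module.projective_lifting_property p' p hp'
  have ha' : ∀ x, p (a x) = p' x := fun x => by rw [← ha]; rfl
  have hb' : ∀ x, p' (b x) = p x := fun x => by rw [← hb]; rfl
  let f1 : ((Fin k → R) × (Fin k → R)) →ₗ[R] (Fin k → R) :=
    LinearMap.fst R _ _ - b.comp (LinearMap.snd R _ _)
  let f2 : ((Fin k → R) × (Fin k → R)) →ₗ[R] (Fin k → R) :=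
    LinearMap.snd R _ _ + a.comp f1
  let g2 : ((Fin k → R) × (Fin k → R)) →ₗ[R] (Fin k → R) :=
    LinearMap.fst R _ _ - a.comp (LinearMap.snd R _ _)
  let g1 : ((Fin k → R) × (Fin k → R)) →ₗ[R] (Fin k → R) :=
    LinearMap.snd R _ _ + b.comp g2
  refine ⟨LinearEquiv.ofLinearMap (f2.prod f1) (g1.prod g2) ?_ ?_, ?_⟩
  · ext z i
    all_goals simp [f1, f2, g1, g2]
  · ext z i
    all_goals simp [f1, f2, g1, g2]
  · intro z
    show p (z.2 + a (z.1 - b z.2)) = p' z.1
    rw [map_add, ha', map_sub, hb']
    abel
-- END C1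

section

variable {G : Type} [Group G] {r : ℕ} (π : G →* FreeGroup (Fin r)) (s : FreeGroup (Fin r) →* G)

/-- conjugation by `g` on a normal subgroup, on the group ring -/
noncomputable def cj (A : Subgroup G) [A.Normal] (g : G) : ZG A →+* ZG A :=
  zmap (MulAut.conjNormal g : MulAut A).toMonoidHom

-- BEGIN C2
theorem c2_cj_el (A : Subgroup G) [A.Normal] (g : G) (a : A) :
    cj A g (el a) = el (MulAut.conjNormal g a) := by
  unfold cj
  rw [zmap_el]
  rfl

theorem c2_cj_one (A : Subgroup G) [A.Normal] (y : ZG A) : cj A 1 y = y := by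
  induction y using zg_induction with
  | h1 g => rw [c2_cj_el, map_one]; rfl
  | h0 => rw [map_zero]
  | hadd x y hx hy => rw [map_add, hx, hy]
  | hneg x hx => rw [map_neg, hx]

theorem c2_cj_mul (A : Subgroup G) [A.Normal] (g h : G) (y : ZG A) :
    cj A (g * h) y = cj A g (cj A h y) := by
  induction y using zg_induction with
  | h1 a => rw [c2_cj_el, c2_cj_el, c2_cj_el, map_mul]; rfl
  | h0 => rw [map_zero, map_zero, map_zero]
  | hadd x y hx hy => rw [map_add, map_add, map_add, hx, hy]
  | hneg x hx => rw [map_neg, map_neg, map_neg, hx]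

/-- extension of an action of the kernel to the whole group -/
theorem extend_action (hs : ∀ f, π (s f) = f) {C : Type} [AddCommGroup C] [Module (ZG π.ker) C]
    (Φ : Fin r → (C ≃+ C))
    (hΦ : ∀ x (y : ZG π.ker) c, Φ x (y • c) = cj π.ker (s (FreeGroup.of x)) y • Φ x c) :
    ∃ _ : Module (ZG G) C, (∀ (y : ZG π.ker) (c : C), zmap π.ker.subtype y • c = y • c) ∧
      ∀ x (c : C), el (s (FreeGroup.of x)) • c = Φ x c := by
  classical
  let U : Fin r → (Module.End ℤ C)ˣ := fun x =>
    { val := (Φ x).toAddMonoidHom.toIntLinearMap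
      inv := (Φ x).symm.toAddMonoidHom.toIntLinearMap
      val_inv := by
        ext c
        exact (Φ x).apply_symm_apply c
      inv_val := by
        ext c
        exact (Φ x).symm_apply_apply c }
  let F : FreeGroup (Fin r) →* (Module.End ℤ C)ˣ := FreeGroup.lift U
  have hF1 : ∀ x (c : C), (F (FreeGroup.of x) : Module.End ℤ C) c = Φ x c := by
    intro x c
    have h : F (FreeGroup.of x) = U x := FreeGroup.lift_apply_of
    rw [h]
    rfl
  have hF : ∀ (f : FreeGroup (Fin r)) (y : ZG π.ker) (c : C),
      (F f : Module.End ℤ C) (y • c) = cj π.ker (s f) y • (F f : Module.End ℤ C) c := by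
    intro f
    induction f using FreeGroup.induction_on with
    | C1 =>
      intro y c
      rw [map_one, map_one, c2_cj_one]
      rfl
    | of x =>
      intro y c
      have h := hΦ x y c
      rw [← hF1, ← hF1] at h
      exact h
    | inv_of x hx =>
      intro y c
      have h1 : ∀ c : C, (F (FreeGroup.of x)⁻¹ : Module.End ℤ C) ((F (FreeGroup.of x) : Module.End ℤ C) c) = c := by
        intro c
        have h : (F (FreeGroup.of x)⁻¹ : Module.End ℤ C) * (F (FreeGroup.of x) : Module.End ℤ C) = 1 := by
          rw [← Units.val_mul, ← map_mul, inv_mul_cancel, map_one]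
          rfl
        exact congrArg (fun t : Module.End ℤ C => t c) h
      have h2 : ∀ c : C, (F (FreeGroup.of x) : Module.End ℤ C) ((F (FreeGroup.of x)⁻¹ : Module.End ℤ C) c) = c := by
        intro c
        have h : (F (FreeGroup.of x) : Module.End ℤ C) * (F (FreeGroup.of x)⁻¹ : Module.End ℤ C) = 1 := by
          rw [← Units.val_mul, ← map_mul, mul_inv_cancel, map_one]
          rfl
        exact congrArg (fun t : Module.End ℤ C => t c) h
      have h3 := hx (cj π.ker (s (FreeGroup.of x)⁻¹) y) ((F (FreeGroup.of x)⁻¹ : Module.End ℤ C) c)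
      rw [h2, ← c2_cj_mul, ← map_mul, mul_inv_cancel, map_one, c2_cj_one] at h3
      rw [← h3, h1]
    | mul f g hf hg =>
      intro y c
      rw [map_mul, map_mul, Units.val_mul, Module.End.mul_apply, Module.End.mul_apply, hg, hf,
        c2_cj_mul]
  have hk : ∀ g : G, g * (s (π g))⁻¹ ∈ π.ker := by
    intro g
    rw [MonoidHom.mem_ker, map_mul, map_inv, hs, mul_inv_cancel]
  let κ : G → π.ker := fun g => ⟨g * (s (π g))⁻¹, hk g⟩
  let θ : G →* Module.End ℤ C :=
    { toFun := fun g =>
        { toFun := fun c => el (κ g) • (F (π g) : Module.End ℤ C) c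
          map_add' := fun c d => by rw [map_add, smul_add]
          map_smul' := fun n c => by
            rw [map_zsmul, smul_comm, RingHom.id_apply] }
      map_one' := by
        ext c
        show el (κ 1) • (F (π 1) : Module.End ℤ C) c = c
        have h : κ 1 = 1 := by
          apply Subtype.ext
          show (1 : G) * (s (π 1))⁻¹ = 1
          rw [map_one, map_one, inv_one, mul_one]
        rw [h, el_one, one_smul, map_one, map_one]
        rfl
      map_mul' := fun g h => by
        ext c
        show el (κ (g * h)) • (F (π (g * h)) : Module.End ℤ C) c =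
          el (κ g) • (F (π g) : Module.End ℤ C) (el (κ h) • (F (π h) : Module.End ℤ C) c)
        rw [hF, c2_cj_el, smul_smul, ← el_mul, map_mul, map_mul, Units.val_mul, Module.End.mul_apply]
        congr 2
        apply Subtype.ext
        show g * h * (s (π (g * h)))⁻¹ = g * (s (π g))⁻¹ * (MulAut.conjNormal (s (π g)) (κ h) : π.ker)
        rw [MulAut.conjNormal_apply]
        show g * h * (s (π (g * h)))⁻¹ = g * (s (π g))⁻¹ * (s (π g) * (h * (s (π h))⁻¹) * (s (π g))⁻¹)
        rw [map_mul, map_mul]
        group }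
  have hθ : ∀ g (c : C), θ g c = el (κ g) • (F (π g) : Module.End ℤ C) c := fun g c => rfl
  refine ⟨modOf θ, fun y c => ?_, fun x c => ?_⟩
  · let _ := modOf θ
    induction y using zg_induction with
    | h1 a =>
      rw [zmap_el, modOf_el, hθ]
      have h1 : π (π.ker.subtype a) = 1 := a.2
      have h2 : κ (π.ker.subtype a) = a := by
        apply Subtype.ext
        show (a : G) * (s (π (π.ker.subtype a)))⁻¹ = a
        rw [h1, map_one, inv_one, mul_one]
      rw [h1, h2, map_one]
      rfl
    | h0 => rw [map_zero, zero_smul, zero_smul]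
    | hadd x y hx hy => rw [map_add, add_smul, add_smul, hx, hy]
    | hneg x hx => rw [map_neg, neg_smul, neg_smul, hx]
  · rw [modOf_el, hθ]
    have h1 : π (s (FreeGroup.of x)) = FreeGroup.of x := hs _
    have h2 : κ (s (FreeGroup.of x)) = 1 := by
      apply Subtype.ext
      show s (FreeGroup.of x) * (s (π (s (FreeGroup.of x))))⁻¹ = 1
      rw [h1, mul_inv_cancel]
    rw [h2, el_one, one_smul, h1, hF1]
-- END C2

-- BEGIN C3
theorem c3_el_conj (A : Subgroup G) [A.Normal] (g : G) (a : ZG A) :
    el g * zmap A.subtype (cj A g⁻¹ a) = zmap A.subtype a * el g := by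
  induction a using zg_induction with
  | h1 a =>
    rw [cj, zmap_el, zmap_el, zmap_el, ← el_mul, ← el_mul]
    congr 1
    have h : (A.subtype ((MulAut.conjNormal g⁻¹ : MulAut A).toMonoidHom a) : G) =
        g⁻¹ * (a : G) * (g⁻¹)⁻¹ := MulAut.conjNormal_apply g⁻¹ a
    rw [h, A.subtype_apply]
    group
  | h0 => simp only [map_zero, mul_zero, zero_mul]
  | hadd x y hx hy => simp only [map_add, mul_add, add_mul, hx, hy]
  | hneg x hx => simp only [map_neg, mul_neg, neg_mul, hx]

theorem c3_cj_cj (A : Subgroup G) [A.Normal] (g h : G) (hgh : g * h = 1) (a : ZG A) :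
    cj A g (cj A h a) = a := by
  rw [cj, cj, zmap_comp]
  have h1 : ((MulAut.conjNormal g : MulAut A).toMonoidHom).comp
      ((MulAut.conjNormal h : MulAut A).toMonoidHom) = MonoidHom.id A := by
    ext a
    have h2 : (MulAut.conjNormal g : MulAut A) ((MulAut.conjNormal h : MulAut A) a) = a := by
      rw [← MulAut.mul_apply, ← map_mul, hgh, map_one, MulAut.one_apply]
    exact congrArg Subtype.val h2
  rw [h1, zmap_id]

/-- coordinatewise conjugation -/
noncomputable def c3_sig (A : Subgroup G) [A.Normal] (g : G) (k : ℕ) :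
    (Fin k → ZG A) ≃+ (Fin k → ZG A) :=
  AddEquiv.mk' ⟨fun v i => cj A g (v i), fun v i => cj A g⁻¹ (v i),
    fun v => funext fun i => c3_cj_cj A g⁻¹ g (inv_mul_cancel g) (v i),
    fun v => funext fun i => c3_cj_cj A g g⁻¹ (mul_inv_cancel g) (v i)⟩
    (fun v w => funext fun i => map_add (cj A g) (v i) (w i))

theorem c3_sig_apply (A : Subgroup G) [A.Normal] (g : G) (k : ℕ) (v : Fin k → ZG A) (i : Fin k) :
    c3_sig A g k v i = cj A g (v i) := rfl

theorem c3_sig_smul (A : Subgroup G) [A.Normal] (g : G) (k : ℕ) (y : ZG A) (v : Fin k → ZG A) :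
    c3_sig A g k (y • v) = cj A g y • c3_sig A g k v := by
  funext i
  rw [c3_sig_apply, Pi.smul_apply, Pi.smul_apply, c3_sig_apply, smul_eq_mul, smul_eq_mul, map_mul]

/-- the twisted cover -/
noncomputable def c3_p' {K : Type} [AddCommGroup K] [Module (ZG G) K] (A : Subgroup G) [A.Normal]
    (g : G) (k : ℕ) (p : (Fin k → ZG A) →ₗ[ZG A] Res (zmap A.subtype) K) :
    (Fin k → ZG A) →ₗ[ZG A] Res (zmap A.subtype) K where
  toFun v := (el g • (show K from p (c3_sig A g⁻¹ k v)) : K)
  map_add' v w := by
    rw [map_add, map_add]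
    exact smul_add (el g) (show K from p (c3_sig A g⁻¹ k v)) (show K from p (c3_sig A g⁻¹ k w))
  map_smul' y v := by
    rw [c3_sig_smul, map_smul]
    change (el g • (zmap A.subtype (cj A g⁻¹ y) • (show K from p (c3_sig A g⁻¹ k v))) : K) =
      (zmap A.subtype y • (el g • (show K from p (c3_sig A g⁻¹ k v))) : K)
    rw [smul_smul, smul_smul, c3_el_conj]

theorem c3_p'_apply {K : Type} [AddCommGroup K] [Module (ZG G) K] (A : Subgroup G) [A.Normal]
    (g : G) (k : ℕ) (p : (Fin k → ZG A) →ₗ[ZG A] Res (zmap A.subtype) K) (v : Fin k → ZG A) :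
    (show K from c3_p' A g k p v) = el g • (show K from p (c3_sig A g⁻¹ k v)) := rfl

theorem c3_p'_surjective {K : Type} [AddCommGroup K] [Module (ZG G) K] (A : Subgroup G)
    [A.Normal] (g : G) (k : ℕ) (p : (Fin k → ZG A) →ₗ[ZG A] Res (zmap A.subtype) K)
    (hp : Function.Surjective p) : Function.Surjective (c3_p' A g k p) := by
  intro m
  obtain ⟨v, hv⟩ := hp (show Res (zmap A.subtype) K from (el g⁻¹ • (show K from m) : K))
  obtain ⟨w, hw⟩ := (c3_sig A g⁻¹ k).surjective v
  refine ⟨w, ?_⟩
  change (el g • (show K from p (c3_sig A g⁻¹ k w)) : K) = m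
  rw [hw, hv]
  change (el g • (el g⁻¹ • (show K from m)) : K) = m
  rw [smul_smul, el_mul_inv, one_smul]

/-- an additive map compatible with the kernel and with the section is linear -/
theorem c3_linear (hs : ∀ f, π (s f) = f) {C K : Type} [AddCommGroup C] [Module (ZG G) C]
    [AddCommGroup K] [Module (ZG G) K] (P : C →+ K)
    (h1 : ∀ (y : ZG π.ker) (c : C), P (zmap π.ker.subtype y • c) = zmap π.ker.subtype y • P c)
    (h2 : ∀ (x : Fin r) (c : C), P (el (s (FreeGroup.of x)) • c) = el (s (FreeGroup.of x)) • P c)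
    (y : ZG G) (c : C) : P (y • c) = y • P c := by
  have h3 : ∀ (f : FreeGroup (Fin r)) (c : C), P (el (s f) • c) = el (s f) • P c := by
    intro f
    induction f using FreeGroup.induction_on with
    | C1 => intro c; rw [map_one, el_one, one_smul, one_smul]
    | of x => exact h2 x
    | inv_of x _ =>
      intro c
      have h4 := h2 x (el (s (FreeGroup.of x)⁻¹) • c)
      rw [smul_smul, map_inv, el_mul_inv, one_smul] at h4
      rw [map_inv, h4, smul_smul, el_inv_mul, one_smul]
    | mul f f' hf hf' =>
      intro c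
      rw [map_mul, el_mul, mul_smul, mul_smul, hf, hf']
  have h4 : ∀ (g : G) (c : C), P (el g • c) = el g • P c := by
    intro g c
    have hg : g * (s (π g))⁻¹ ∈ π.ker := by
      rw [MonoidHom.mem_ker, map_mul, map_inv, hs, mul_inv_cancel]
    have h5 : el g = zmap π.ker.subtype (el (⟨g * (s (π g))⁻¹, hg⟩ : π.ker)) * el (s (π g)) := by
      rw [zmap_el, ← el_mul, π.ker.subtype_apply, inv_mul_cancel_right]
    rw [h5, mul_smul, mul_smul, h1, h3]
  induction y using zg_induction with
  | h1 g => exact h4 g c
  | h0 => rw [zero_smul, zero_smul, map_zero]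
  | hadd x y hx hy => rw [add_smul, add_smul, map_add, hx, hy]
  | hneg x hx => rw [neg_smul, neg_smul, map_neg, hx]

/-- (Lemma C) a module which is finitely generated over the kernel is covered by a module
which is free of finite rank over the kernel -/
theorem lemC (hs : ∀ f, π (s f) = f) {K : Type} [AddCommGroup K] [Module (ZG G) K]
    (hK : Module.Finite (ZG π.ker) (Res (zmap π.ker.subtype) K)) :
    ∃ (C : Type) (_ : AddCommGroup C) (_ : Module (ZG G) C) (p : C →ₗ[ZG G] K),
      Function.Surjective p ∧
      ∃ k : ℕ, Nonempty (Res (zmap π.ker.subtype) C ≃ₗ[ZG π.ker] (Fin k → ZG π.ker)) := by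
  obtain ⟨k, p, hp⟩ := Module.Finite.exists_fin' (ZG π.ker) (Res (zmap π.ker.subtype) K)
  choose E hE using fun x : Fin r => schanuel k p
    (c3_p' π.ker (s (FreeGroup.of x)) k p) hp (c3_p'_surjective π.ker _ k p hp)
  let Φ : Fin r → (((Fin k → ZG π.ker) × (Fin k → ZG π.ker)) ≃+
      ((Fin k → ZG π.ker) × (Fin k → ZG π.ker))) := fun x =>
    (AddEquiv.prodCongr (c3_sig π.ker (s (FreeGroup.of x)) k)
      (c3_sig π.ker (s (FreeGroup.of x)) k)).trans (E x).toAddEquiv
  have hΦa : ∀ x c, Φ x c = E x (c3_sig π.ker (s (FreeGroup.of x)) k c.1,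
      c3_sig π.ker (s (FreeGroup.of x)) k c.2) := fun x c => rfl
  have hΦ : ∀ x (y : ZG π.ker) c, Φ x (y • c) = cj π.ker (s (FreeGroup.of x)) y • Φ x c := by
    intro x y c
    have h5 : ((c3_sig π.ker (s (FreeGroup.of x)) k (y • c).1,
        c3_sig π.ker (s (FreeGroup.of x)) k (y • c).2) :
          (Fin k → ZG π.ker) × (Fin k → ZG π.ker)) =
        cj π.ker (s (FreeGroup.of x)) y • ((c3_sig π.ker (s (FreeGroup.of x)) k c.1,
          c3_sig π.ker (s (FreeGroup.of x)) k c.2) :
            (Fin k → ZG π.ker) × (Fin k → ZG π.ker)) := by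
      rw [Prod.smul_fst, Prod.smul_snd, c3_sig_smul, c3_sig_smul]
      rfl
    rw [hΦa, hΦa, h5]
    exact (E x).map_smul (cj π.ker (s (FreeGroup.of x)) y) _
  obtain ⟨inst, h1, h2⟩ := extend_action π s hs Φ hΦ
  let P : ((Fin k → ZG π.ker) × (Fin k → ZG π.ker)) →+ K :=
    { toFun := fun z => (show K from p z.1)
      map_zero' := p.map_zero
      map_add' := fun z w => p.map_add z.1 w.1 }
  have hP : ∀ z, P z = (show K from p z.1) := fun z => rfl
  have hP1 : ∀ (y : ZG π.ker) c, P (zmap π.ker.subtype y • c) = zmap π.ker.subtype y • P c := by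
    intro y c
    rw [h1, hP, hP]
    exact p.map_smul y c.1
  have hP2 : ∀ (x : Fin r) c, P (el (s (FreeGroup.of x)) • c) = el (s (FreeGroup.of x)) • P c := by
    intro x c
    rw [h2, hP, hP, hΦa, hE, c3_p'_apply]
    have h3 : c3_sig π.ker (s (FreeGroup.of x))⁻¹ k (c3_sig π.ker (s (FreeGroup.of x)) k c.1) =
        c.1 := by
      funext i
      exact c3_cj_cj π.ker _ _ (inv_mul_cancel _) (c.1 i)
    rw [h3]
  refine ⟨(Fin k → ZG π.ker) × (Fin k → ZG π.ker), inferInstance, inst,
    { toFun := P
      map_add' := P.map_add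
      map_smul' := fun y c => c3_linear π s hs P hP1 hP2 y c }, ?_, k + k, ⟨?_⟩⟩
  · intro m
    obtain ⟨v, hv⟩ := hp m
    exact ⟨(v, 0), hv⟩
  · let e : (Fin (k + k) → ZG π.ker) ≃ₗ[ZG π.ker] ((Fin k → ZG π.ker) × (Fin k → ZG π.ker)) :=
      (LinearEquiv.funCongrLeft _ _ finSumFinEquiv).trans
        (LinearEquiv.sumArrowLequivProdArrow _ _ _ _)
    let e1 : Res (zmap π.ker.subtype) ((Fin k → ZG π.ker) × (Fin k → ZG π.ker)) ≃ₗ[ZG π.ker]
        ((Fin k → ZG π.ker) × (Fin k → ZG π.ker)) :=
      { toFun := fun x => x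
        invFun := fun x => x
        left_inv := fun _ => rfl
        right_inv := fun _ => rfl
        map_add' := fun _ _ => rfl
        map_smul' := fun y c => h1 y c }
    exact e1.trans e.symm
-- END C3

-- BEGIN C4
/-- additive maps out of `ℤG^k` agree if they agree on the elements `g e_i` -/
theorem c4_ext {G A : Type} [Group G] [AddCommGroup A] {k : ℕ} {f f' : (Fin k → ZG G) →+ A}
    (h : ∀ (i : Fin k) (g : G), f (Pi.single i (el g)) = f' (Pi.single i (el g))) : f = f' := by
  refine AddMonoidHom.functions_ext' _ _ _ fun i => ?_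
  refine AddMonoidHom.ext fun y => ?_
  refine zg_hom_ext (f := f.comp (AddMonoidHom.single (fun _ : Fin k => ZG G) i))
    (f' := f'.comp (AddMonoidHom.single (fun _ : Fin k => ZG G) i)) ?_ y
  intro g
  exact h i g

/-- the module `ℤG^k` as finitely supported functions on the free group with values in `C` -/
theorem theta_bijective (hs : ∀ f, π (s f) = f) {C : Type} [AddCommGroup C] [Module (ZG G) C]
    (k : ℕ) (v : Fin k → C)
    (hv : ∀ c : C, ∃! y : Fin k → ZG π.ker, c = ∑ i, zmap π.ker.subtype (y i) • v i) :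
    ∃ Θ : (Fin k → ZG G) ≃+ (FreeGroup (Fin r) →₀ C), ∀ (g : G) (i : Fin k),
      Θ (Pi.single i (el g)) = Finsupp.single (π g) (el g • v i) := by
  classical
  -- coordinates
  let E0 : (Fin k → ZG π.ker) →+ C :=
    { toFun := fun y => ∑ i, zmap π.ker.subtype (y i) • v i
      map_zero' := by simp
      map_add' := fun y z => by
        rw [← Finset.sum_add_distrib]
        refine Finset.sum_congr rfl fun i _ => ?_
        rw [Pi.add_apply, map_add, add_smul] }
  have hE0 : ∀ y, E0 y = ∑ i, zmap π.ker.subtype (y i) • v i := fun y => rfl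
  have hbij : Function.Bijective E0 := by
    constructor
    · intro y z hyz
      obtain ⟨w, _, hw⟩ := hv (E0 y)
      rw [hw y rfl, hw z hyz]
    · intro c
      obtain ⟨w, hw, _⟩ := hv c
      exact ⟨w, hw.symm⟩
  let E : (Fin k → ZG π.ker) ≃+ C := AddEquiv.ofBijective E0 hbij
  have hE : ∀ y, E y = ∑ i, zmap π.ker.subtype (y i) • v i := hE0
  -- the map `Θ`
  choose φ hφ using fun i : Fin k => exists_zg_hom
    (fun g : G => (Finsupp.single (π g) (el g • v i) : FreeGroup (Fin r) →₀ C))
  let T : (Fin k → ZG G) →+ (FreeGroup (Fin r) →₀ C) :=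
    ∑ i, (φ i).comp (Pi.evalAddMonoidHom (fun _ : Fin k => ZG G) i)
  have hT : ∀ y, T y = ∑ i, φ i (y i) := by
    intro y
    simp [T]
  have hT1 : ∀ (g : G) (i : Fin k), T (Pi.single i (el g)) =
      Finsupp.single (π g) (el g • v i) := by
    intro g i
    rw [hT, Finset.sum_eq_single i]
    · rw [Pi.single_eq_same, hφ]
    · intro j _ hj
      rw [Pi.single_eq_of_ne hj, map_zero]
    · intro h
      exact absurd (Finset.mem_univ i) h
  have hφa : ∀ (g : G) (i : Fin k) (a : ZG π.ker), φ i (el g * zmap π.ker.subtype a) =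
      Finsupp.single (π g) (el g • zmap π.ker.subtype a • v i) := by
    intro g i a
    induction a using zg_induction with
    | h1 a =>
      have ha : π (a : G) = 1 := a.2
      rw [zmap_el, ← el_mul, hφ, ← mul_smul, ← el_mul, map_mul]
      simp [ha]
    | h0 => simp
    | hadd x y hx hy => rw [map_add, mul_add, map_add, hx, hy, add_smul, smul_add,
        Finsupp.single_add]
    | hneg x hx => rw [map_neg, mul_neg, map_neg, hx, neg_smul, smul_neg, Finsupp.single_neg]
  -- the inverse
  let Ψ : (FreeGroup (Fin r) →₀ C) →+ (Fin k → ZG G) :=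
    Finsupp.liftAddHom (fun f =>
      { toFun := fun c => fun i => el (s f) * zmap π.ker.subtype (E.symm (el (s f)⁻¹ • c) i)
        map_zero' := by
          funext i
          simp
        map_add' := fun c d => by
          funext i
          simp [mul_add] })
  have hΨ : ∀ f c, Ψ (Finsupp.single f c) =
      fun i => el (s f) * zmap π.ker.subtype (E.symm (el (s f)⁻¹ • c) i) := by
    intro f c
    exact Finsupp.liftAddHom_apply_single _ _ _
  have h1 : ∀ x, T (Ψ x) = x := by
    intro x
    have : T.comp Ψ = AddMonoidHom.id _ := by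
      refine Finsupp.addHom_ext fun f c => ?_
      rw [AddMonoidHom.comp_apply, hΨ, hT, AddMonoidHom.id_apply]
      simp only [hφa]
      rw [hs, ← Finsupp.single_finsetSum, ← Finset.smul_sum, ← hE, AddEquiv.apply_symm_apply,
        ← mul_smul, el_mul_inv, one_smul]
    exact DFunLike.congr_fun this x
  have h2 : ∀ y, Ψ (T y) = y := by
    intro y
    have : Ψ.comp T = AddMonoidHom.id _ := by
      refine c4_ext fun i g => ?_
      rw [AddMonoidHom.comp_apply, hT1, hΨ, AddMonoidHom.id_apply]
      have ha : (s (π g))⁻¹ * g ∈ π.ker := by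
        rw [MonoidHom.mem_ker, map_mul, map_inv, hs, inv_mul_cancel]
      have h3 : el (s (π g))⁻¹ • el g • v i =
          E (Pi.single i (el (⟨(s (π g))⁻¹ * g, ha⟩ : π.ker))) := by
        rw [hE, Finset.sum_eq_single i]
        · rw [Pi.single_eq_same, zmap_el, ← mul_smul, ← el_mul]
          rfl
        · intro j _ hj
          rw [Pi.single_eq_of_ne hj, map_zero, zero_smul]
        · intro h
          exact absurd (Finset.mem_univ i) h
      rw [h3, AddEquiv.symm_apply_apply]
      funext j
      by_cases hj : j = i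
      · subst hj
        rw [Pi.single_eq_same, Pi.single_eq_same, zmap_el, ← el_mul]
        simp
      · rw [Pi.single_eq_of_ne hj, Pi.single_eq_of_ne hj, map_zero, mul_zero]
    exact DFunLike.congr_fun this y
  exact ⟨{ T with invFun := Ψ, left_inv := h2, right_inv := h1 }, hT1⟩
-- END C4

-- BEGIN C5
theorem c5_theta_smul {C : Type} [AddCommGroup C] [Module (ZG G) C] {k : ℕ} {v : Fin k → C}
    (Θ : (Fin k → ZG G) ≃+ (FreeGroup (Fin r) →₀ C))
    (hΘ : ∀ (g : G) (i : Fin k), Θ (Pi.single i (el g)) = Finsupp.single (π g) (el g • v i))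
    (g : G) (i : Fin k) (a : ZG π.ker) :
    Θ (Pi.single i (el g * zmap π.ker.subtype a)) =
      Finsupp.single (π g) (el g • zmap π.ker.subtype a • v i) := by
  induction a using zg_induction with
  | h1 a =>
    have ha : π (a : G) = 1 := a.2
    rw [zmap_el, ← el_mul, hΘ, ← mul_smul, ← el_mul, map_mul]
    simp [ha]
  | h0 => simp
  | hadd x y hx hy => rw [map_add, mul_add, Pi.single_add, map_add, hx, hy, add_smul, smul_add,
      Finsupp.single_add]
  | hneg x hx => rw [map_neg, mul_neg, Pi.single_neg, map_neg, hx, neg_smul, smul_neg,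
      Finsupp.single_neg]

/-- such a module is of type `FP n` for all `n` -/
theorem FP_of_free_ker (hs : ∀ f, π (s f) = f) {C : Type} [AddCommGroup C] [Module (ZG G) C]
    (k : ℕ) (e : Res (zmap π.ker.subtype) C ≃ₗ[ZG π.ker] (Fin k → ZG π.ker)) (n : ℕ) :
    FP (ZG G) n C := by
  classical
  -- the basis
  let v : Fin k → C := fun i => (show C from e.symm (Pi.single i 1))
  have hE : ∀ y : Fin k → ZG π.ker, (show C from e.symm y) =
      ∑ i, zmap π.ker.subtype (y i) • v i := by
    intro y
    have h1 : y = ∑ i, y i • (Pi.single i (1 : ZG π.ker) : Fin k → ZG π.ker) := pi_eq_sum_univ' y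
    have h2 : e.symm y = ∑ i, y i • e.symm (Pi.single i (1 : ZG π.ker)) := by
      conv_lhs => rw [h1]
      rw [map_sum]
      refine Finset.sum_congr rfl fun i _ => ?_
      rw [LinearEquiv.map_smul]
    rw [h2]
    rfl
  have hv : ∀ c : C, ∃! y : Fin k → ZG π.ker, c = ∑ i, zmap π.ker.subtype (y i) • v i := by
    intro c
    refine ⟨e (show Res (zmap π.ker.subtype) C from c), ?_, ?_⟩
    · change c = _
      rw [← hE]
      exact (e.symm_apply_apply _).symm
    · intro y hy
      have h1 : (show C from e.symm y) = c := by rw [hE, hy]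
      have h2 : e.symm y = (show Res (zmap π.ker.subtype) C from c) := h1
      rw [← h2, LinearEquiv.apply_symm_apply]
  obtain ⟨Θ, hΘ⟩ := theta_bijective π s hs k v hv
  -- the translated bases
  have hv' : ∀ x : Fin r, ∀ c : C, ∃! y : Fin k → ZG π.ker,
      c = ∑ i, zmap π.ker.subtype (y i) • (el (s (FreeGroup.of x)) • v i) := by
    intro x c
    -- conjugation by `t`
    have hconj : ∀ (t : G) (z : ZG π.ker), zmap π.ker.subtype z * el t =
        el t * zmap π.ker.subtype (zmap (MulAut.conjNormal t⁻¹ : MulAut π.ker).toMonoidHom z) := by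
      intro t z
      induction z using zg_induction with
      | h1 a =>
        rw [zmap_el, zmap_el, zmap_el, ← el_mul, ← el_mul]
        congr 1
        simp [mul_assoc]
      | h0 => simp
      | hadd x y hx hy => simp only [map_add, add_mul, mul_add, hx, hy]
      | hneg x hx => simp only [map_neg, neg_mul, mul_neg, hx]
    set t := s (FreeGroup.of x) with ht
    obtain ⟨y, hy, hyu⟩ := hv (el t⁻¹ • c)
    have key : ∀ y' : Fin k → ZG π.ker,
        (c = ∑ i, zmap π.ker.subtype (y' i) • (el t • v i)) ↔
        (el t⁻¹ • c = ∑ i, zmap π.ker.subtype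
          (zmap (MulAut.conjNormal t⁻¹ : MulAut π.ker).toMonoidHom (y' i)) • v i) := by
      intro y'
      have h1 : ∑ i, zmap π.ker.subtype (y' i) • (el t • v i) = el t • ∑ i, zmap π.ker.subtype
          (zmap (MulAut.conjNormal t⁻¹ : MulAut π.ker).toMonoidHom (y' i)) • v i := by
        rw [Finset.smul_sum]
        refine Finset.sum_congr rfl fun i _ => ?_
        rw [← mul_smul, hconj, mul_smul]
      rw [h1]
      constructor
      · intro h
        rw [h, ← mul_smul, el_inv_mul, one_smul]
      · intro h
        rw [← h, ← mul_smul, el_mul_inv, one_smul]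
    have hcc : ∀ z : ZG π.ker, zmap (MulAut.conjNormal t⁻¹ : MulAut π.ker).toMonoidHom
        (zmap (MulAut.conjNormal t : MulAut π.ker).toMonoidHom z) = z := by
      intro z
      rw [zmap_comp]
      have : (MulAut.conjNormal t⁻¹ : MulAut π.ker).toMonoidHom.comp
          (MulAut.conjNormal t : MulAut π.ker).toMonoidHom = MonoidHom.id π.ker := by
        ext a
        simp
      rw [this, zmap_id]
    have hcc' : ∀ z : ZG π.ker, zmap (MulAut.conjNormal t : MulAut π.ker).toMonoidHom
        (zmap (MulAut.conjNormal t⁻¹ : MulAut π.ker).toMonoidHom z) = z := by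
      intro z
      rw [zmap_comp]
      have : (MulAut.conjNormal t : MulAut π.ker).toMonoidHom.comp
          (MulAut.conjNormal t⁻¹ : MulAut π.ker).toMonoidHom = MonoidHom.id π.ker := by
        ext a
        simp
      rw [this, zmap_id]
    refine ⟨fun i => zmap (MulAut.conjNormal t : MulAut π.ker).toMonoidHom (y i), ?_, ?_⟩
    · change c = _
      rw [key]
      simp only [hcc]
      exact hy
    · intro z hz
      have h1 := (key z).1 hz
      have h2 := hyu _ h1
      funext i
      have h3 := congrFun h2 i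
      rw [← h3]
      exact (hcc' _).symm
  choose Θ' hΘ' using fun x : Fin r => theta_bijective π s hs k
    (fun i => el (s (FreeGroup.of x)) • v i) (hv' x)
  -- the cover
  let f : (Fin k → ZG G) →ₗ[ZG G] C := Fintype.linearCombination (ZG G) v
  have hf : ∀ y, f y = ∑ i, y i • v i := fun y => Fintype.linearCombination_apply _ _ _
  have hfs : Function.Surjective f := by
    intro c
    obtain ⟨y, hy, _⟩ := hv c
    exact ⟨fun i => zmap π.ker.subtype (y i), by rw [hf]; exact hy.symm⟩
  have hfΘ : ∀ y, f y = treeS r C (Θ y) := by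
    intro y
    have : f.toAddMonoidHom = (treeS r C).comp Θ.toAddMonoidHom := by
      refine c4_ext fun i g => ?_
      change f (Pi.single i (el g)) = treeS r C (Θ (Pi.single i (el g)))
      rw [hΘ, hf, Finset.sum_eq_single i]
      · rw [Pi.single_eq_same]
        simp [treeS]
      · intro j _ hj
        rw [Pi.single_eq_of_ne hj, zero_smul]
      · intro h
        exact absurd (Finset.mem_univ i) h
    exact DFunLike.congr_fun this y
  -- the relations
  choose a ha using fun (x : Fin r) (i : Fin k) => (hv (el (s (FreeGroup.of x)) • v i)).exists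
  let κ : Fin r → Fin k → (Fin k → ZG G) := fun x i =>
    Pi.single i (el (s (FreeGroup.of x))) - ∑ j, Pi.single j (zmap π.ker.subtype (a x i j))
  let δ : (Fin r → (Fin k → ZG G)) →ₗ[ZG G] (Fin k → ZG G) :=
    ∑ x, (Fintype.linearCombination (ZG G) (κ x)).comp (LinearMap.proj x)
  have hδ : ∀ w, δ w = ∑ x, ∑ i, w x i • κ x i := by
    intro w
    simp [δ, Fintype.linearCombination_apply]
  have hΘδ : ∀ w, Θ (δ w) = treeD r C (fun x => Θ' x (w x)) := by
    intro w
    let U : (Fin r → (Fin k → ZG G)) →+ (FreeGroup (Fin r) →₀ C) :=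
      Θ.toAddMonoidHom.comp δ.toAddMonoidHom
    let V : (Fin r → (Fin k → ZG G)) →+ (FreeGroup (Fin r) →₀ C) :=
      (treeD r C).comp
        { toFun := fun w x => Θ' x (w x)
          map_zero' := by funext x; simp
          map_add' := fun w w' => by funext x; simp }
    have hUV : U = V := by
      refine AddMonoidHom.functions_ext' _ _ _ fun x => ?_
      refine c4_ext fun i g => ?_
      change Θ (δ (Pi.single x (Pi.single i (el g)))) =
        treeD r C (fun x' => Θ' x' ((Pi.single x (Pi.single i (el g)) : Fin r → (Fin k → ZG G)) x'))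
      have h1 : δ (Pi.single x (Pi.single i (el g))) = el g • κ x i := by
        rw [hδ, Finset.sum_eq_single x, Finset.sum_eq_single i]
        · rw [Pi.single_eq_same, Pi.single_eq_same]
        · intro j _ hj
          rw [Pi.single_eq_same, Pi.single_eq_of_ne hj, zero_smul]
        · intro h
          exact absurd (Finset.mem_univ i) h
        · intro x' _ hx'
          rw [Pi.single_eq_of_ne hx']
          simp
        · intro h
          exact absurd (Finset.mem_univ x) h
      have h2 : el g • κ x i = Pi.single i (el (g * s (FreeGroup.of x))) -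
          ∑ j, Pi.single j (el g * zmap π.ker.subtype (a x i j)) := by
        simp only [κ]
        rw [smul_sub, Finset.smul_sum]
        congr 1
        · rw [← Pi.single_smul, smul_eq_mul, el_mul]
        · refine Finset.sum_congr rfl fun j _ => ?_
          rw [← Pi.single_smul, smul_eq_mul]
      have h3 : Θ (el g • κ x i) = Finsupp.single (π g * FreeGroup.of x)
          (el g • el (s (FreeGroup.of x)) • v i) -
          Finsupp.single (π g) (el g • el (s (FreeGroup.of x)) • v i) := by
        rw [h2, map_sub, hΘ, map_sum, map_mul, hs, el_mul, mul_smul]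
        congr 1
        simp only [c5_theta_smul π Θ hΘ]
        rw [← Finsupp.single_finsetSum, ← Finset.smul_sum, ← ha]
      have h4 : treeD r C (fun x' => Θ' x'
          ((Pi.single x (Pi.single i (el g)) : Fin r → (Fin k → ZG G)) x')) =
          Finsupp.single (π g * FreeGroup.of x)
          (el g • el (s (FreeGroup.of x)) • v i) -
          Finsupp.single (π g) (el g • el (s (FreeGroup.of x)) • v i) := by
        change ∑ x', ((Θ' x' ((Pi.single x (Pi.single i (el g)) :
          Fin r → (Fin k → ZG G)) x')).mapDomain (fun f => f * FreeGroup.of x') -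
          Θ' x' ((Pi.single x (Pi.single i (el g)) : Fin r → (Fin k → ZG G)) x')) = _
        rw [Finset.sum_eq_single x]
        · rw [Pi.single_eq_same, hΘ', Finsupp.mapDomain_single]
        · intro x' _ hx'
          rw [Pi.single_eq_of_ne hx', map_zero, Finsupp.mapDomain_zero, sub_zero]
        · intro h
          exact absurd (Finset.mem_univ x) h
      rw [h1, h3, h4]
    exact DFunLike.congr_fun hUV w
  have hδinj : Function.Injective δ := by
    intro w w' h
    have h1 : treeD r C (fun x => Θ' x (w x)) = treeD r C (fun x => Θ' x (w' x)) := by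
      rw [← hΘδ, ← hΘδ, h]
    have h2 := treeD_injective r C h1
    funext x
    exact (Θ' x).injective (congrFun h2 x)
  have hδk : ∀ w, δ w ∈ LinearMap.ker f := by
    intro w
    rw [LinearMap.mem_ker, hfΘ, hΘδ, treeS_treeD]
  have hker : ∀ m, FP (ZG G) m (LinearMap.ker f) := by
    intro m
    refine FP.equiv (LinearEquiv.ofBijective (LinearMap.codRestrict (LinearMap.ker f) δ hδk)
      ⟨?_, ?_⟩) (FP.pi m r (FP.free m k))
    · intro w w' h
      exact hδinj (congrArg Subtype.val h)
    · rintro ⟨y, hy⟩
      have h1 : treeS r C (Θ y) = 0 := by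
        rw [← hfΘ]
        exact hy
      obtain ⟨c, hc⟩ := treeD_surj_ker r C (Θ y) h1
      refine ⟨fun x => (Θ' x).symm (c x), ?_⟩
      apply Subtype.ext
      change δ (fun x => (Θ' x).symm (c x)) = y
      apply Θ.injective
      rw [hΘδ, ← hc]
      congr 1
      funext x
      exact (Θ' x).apply_symm_apply (c x)
  cases n with
  | zero => exact Module.Finite.of_surjective f hfs
  | succ n => exact ⟨k, f, hfs, hker n⟩
-- END C5

end

-- BEGIN C6
theorem c6_inj {K : Type} [Group K] (hK : ∀ g : K, g = 1) : Function.Injective (augL K) := by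
  rw [← LinearMap.ker_eq_bot, Submodule.eq_bot_iff]
  intro x hx
  have h := IG_le_closure (G := K) (x := x) hx
  have h2 : AddSubgroup.closure (Set.range fun g : K => el g - 1) = ⊥ := by
    rw [AddSubgroup.closure_eq_bot_iff]
    rintro _ ⟨g, rfl⟩
    show el g - 1 = 0
    rw [hK g, el_one, sub_self]
  rw [h2] at h
  exact h

/-- free groups of finite rank are of type `FP n` for all `n` -/
theorem GFP_freeGroup (r n : ℕ) : GFP n (FreeGroup (Fin r)) := by
  have hK : ∀ g : (MonoidHom.id (FreeGroup (Fin r))).ker, g = 1 := by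
    rintro ⟨g, hg⟩
    exact Subtype.ext hg
  let e1 := LinearEquiv.ofBijective (augL (MonoidHom.id (FreeGroup (Fin r))).ker)
    ⟨c6_inj hK, augL_surjective⟩
  let e := (((oneEquiv _).trans e1).trans
    (trivEquiv (MonoidHom.id (FreeGroup (Fin r))).ker.subtype)).symm
  exact FP_of_free_ker (MonoidHom.id _) (MonoidHom.id _) (fun f => rfl) 1 e n
-- END C6

end Pool.Agent.Lib.MP_d943a5_al
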