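import Pool.Agent.Lib.MP_d943a5_al.Ind

/-!
# Groups of type `FP n` and explicit resolutions
-/

set_option autoImplicit false

namespace Pool.Agent.Lib.MP_d943a5_al

/-- an exact sequence of free modules of finite rank gives a module of type `FP n` -/
theorem FP.of_exact {R : Type} [Ring R] : ∀ (n : ℕ) (r : ℕ → ℕ) (s : ℕ)
    (d0 : (Fin (r 0) → R) →ₗ[R] (Fin s → R))
    (d : ∀ i : ℕ, (Fin (r (i + 1)) → R) →ₗ[R] (Fin (r i) → R)),
    (0 < n → LinearMap.range (d 0) = LinearMap.ker d0) →
    (∀ j : ℕ, j + 2 ≤ n → LinearMap.range (d (j + 1)) = LinearMap.ker (d j)) →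
    FP R n (LinearMap.range d0) := by
  intro n
  induction n with
  | zero =>
    intro r s d0 d _ _
    exact Module.Finite.of_surjective d0.rangeRestrict d0.surjective_rangeRestrict
  | succ n ih =>
    intro r s d0 d h0 h
    refine ⟨r 0, d0.rangeRestrict, d0.surjective_rangeRestrict, ?_⟩
    have h1 := ih (fun i => r (i + 1)) (r 0) (d 0) (fun i => d (i + 1))
      (fun hn => h 0 (by omega)) (fun j hj => h (j + 1) (by omega))
    refine FP.of_eq ?_ h1
    rw [h0 (Nat.succ_pos n), LinearMap.ker_rangeRestrict]

/-- a submodule of type `FP n` of a free module of finite rank has a finite resolution of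
length `n` -/
theorem FP.exists_exact {R : Type} [Ring R] : ∀ (n : ℕ) (s : ℕ) (N : Submodule R (Fin s → R)),
    FP R n N → ∃ (r : ℕ → ℕ) (d0 : (Fin (r 0) → R) →ₗ[R] (Fin s → R))
      (d : ∀ i : ℕ, (Fin (r (i + 1)) → R) →ₗ[R] (Fin (r i) → R)),
      LinearMap.range d0 = N ∧ (0 < n → LinearMap.range (d 0) = LinearMap.ker d0) ∧
      (∀ j : ℕ, j + 2 ≤ n → LinearMap.range (d (j + 1)) = LinearMap.ker (d j)) := by
  intro n
  induction n with
  | zero =>
    intro s N hN
    have h1 : Module.Finite R N := hN
    obtain ⟨m, f, hf⟩ := Module.Finite.exists_fin' R N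
    refine ⟨fun _ => m, N.subtype.comp f, fun _ => 0, ?_, fun h => absurd h (lt_irrefl 0),
      fun j hj => by omega⟩
    rw [LinearMap.range_comp, LinearMap.range_eq_top.2 hf, Submodule.map_top,
      Submodule.range_subtype]
  | succ n ih =>
    intro s N hN
    obtain ⟨m, f, hf, hk⟩ := hN
    obtain ⟨r, d0, d, h0, h1, h2⟩ := ih m (LinearMap.ker f) hk
    refine ⟨fun i => Nat.casesOn i m r, N.subtype.comp f,
      fun i => match i with
        | 0 => d0
        | i + 1 => d i, ?_, fun _ => ?_, ?_⟩
    · change LinearMap.range (N.subtype.comp f) = N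
      rw [LinearMap.range_comp, LinearMap.range_eq_top.2 hf, Submodule.map_top,
        Submodule.range_subtype]
    · change LinearMap.range d0 = LinearMap.ker (N.subtype.comp f)
      rw [h0, LinearMap.ker_comp, Submodule.ker_subtype]
      rfl
    · intro j hj
      match j with
      | 0 => exact h1 (by omega)
      | j + 1 => exact h2 j (by omega)

/-- a group is of type `FP m` if and only if there is an exact sequence
`(ℤG)^{r m} → … → (ℤG)^{r 0} → ℤ → 0` -/
theorem GFP_iff_exact (m : ℕ) (G : Type) [Group G] : GFP m G ↔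
    ∃ (r : ℕ → ℕ) (ε : (Fin (r 0) → MonoidAlgebra ℤ G) →+ ℤ)
      (d : ∀ i : ℕ, (Fin (r (i + 1)) → MonoidAlgebra ℤ G) →ₗ[MonoidAlgebra ℤ G]
        (Fin (r i) → MonoidAlgebra ℤ G)),
      (∀ (g : G) (x : Fin (r 0) → MonoidAlgebra ℤ G), ε (MonoidAlgebra.of ℤ G g • x) = ε x) ∧
      Function.Surjective ε ∧
      (1 ≤ m → ∀ x, ε x = 0 ↔ x ∈ LinearMap.range (d 0)) ∧
      (∀ j : ℕ, j + 2 ≤ m → ∀ x, d j x = 0 ↔ x ∈ LinearMap.range (d (j + 1))) := by
  constructor
  · intro h
    -- start with the augmentation
    cases m with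
    | zero =>
      refine ⟨fun _ => 1, (augL G).toAddMonoidHom.comp
        (oneEquiv (ZG G)).toLinearMap.toAddMonoidHom, fun _ => 0, ?_, ?_, ?_, ?_⟩
      · intro g x
        change aug G (el g * x 0) = aug G (x 0)
        rw [map_mul, aug_el, one_mul]
      · intro y
        obtain ⟨z, hz⟩ := augL_surjective (G := G) y
        exact ⟨fun _ => z, hz⟩
      · intro h0
        exact absurd h0 (by omega)
      · intro j hj
        exact absurd hj (by omega)
    | succ m =>
      let f : (Fin 1 → ZG G) →ₗ[ZG G] Triv G := (augL G).comp (oneEquiv (ZG G)).toLinearMap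
      have hf : Function.Surjective f := augL_surjective.comp (oneEquiv (ZG G)).surjective
      have h1 : FP (ZG G) m (LinearMap.ker f) := FP.ker m f hf (FP.free m 1) h
      obtain ⟨r, d0, d, h2, h3, h4⟩ := FP.exists_exact m 1 (LinearMap.ker f) h1
      refine ⟨fun i => Nat.casesOn i 1 r, f.toAddMonoidHom,
        fun i => match i with
          | 0 => d0
          | i + 1 => d i, ?_, hf, fun _ => ?_, ?_⟩
      · intro g x
        change aug G (el g * x 0) = aug G (x 0)
        rw [map_mul, aug_el, one_mul]
      · intro x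
        change f x = 0 ↔ x ∈ LinearMap.range d0
        rw [h2, LinearMap.mem_ker]
      · intro j hj
        match j with
        | 0 =>
          intro x
          change d0 x = 0 ↔ x ∈ LinearMap.range (d 0)
          rw [h3 (by omega), LinearMap.mem_ker]
        | j + 1 =>
          intro x
          change d j x = 0 ↔ x ∈ LinearMap.range (d (j + 1))
          rw [h4 j (by omega), LinearMap.mem_ker]
  · rintro ⟨r, ε, d, hε, hs, h0, h⟩
    -- the augmentation is linear
    have hlin : ∀ (a : ZG G) (x : Fin (r 0) → ZG G), ε (a • x) = aug G a * ε x := by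
      intro a x
      induction a using zg_induction with
      | h1 g => rw [aug_el, one_mul]; exact hε g x
      | h0 => rw [zero_smul, map_zero, map_zero, zero_mul]
      | hadd a b ha hb => rw [add_smul, map_add, map_add, ha, hb, add_mul]
      | hneg a ha => rw [neg_smul, map_neg, map_neg, ha, neg_mul]
    let f : (Fin (r 0) → ZG G) →ₗ[ZG G] Triv G :=
      { toFun := fun x => (show Triv G from ε x)
        map_add' := fun x y => ε.map_add x y
        map_smul' := fun a x => hlin a x }
    cases m with
    | zero => exact Module.Finite.of_surjective f hs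
    | succ m =>
      refine ⟨r 0, f, hs, ?_⟩
      have h1 : LinearMap.range (d 0) = LinearMap.ker f := by
        ext x
        rw [LinearMap.mem_ker]
        exact (h0 (by omega) x).symm
      refine FP.of_eq h1 (FP.of_exact m (fun i => r (i + 1)) (r 0) (d 0) (fun i => d (i + 1))
        (fun hm => ?_) (fun j hj => ?_))
      · ext x
        rw [LinearMap.mem_ker]
        exact (h 0 (by omega) x).symm
      · ext x
        rw [LinearMap.mem_ker]
        exact (h (j + 1) (by omega) x).symm

end Pool.Agent.Lib.MP_d943a5_al
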