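import Mathlib

/-!
# Modules of type `FP_n` over an arbitrary ring
-/

set_option autoImplicit false

namespace Pool.Agent.Lib.MP_d943a5_al

/-- A module is of type `FP 0` if it is finitely generated, and of type `FP (n+1)` if it is
covered by a free module of finite rank with kernel of type `FP n`. -/
def FP (R : Type) [Ring R] : ℕ → (M : Type) → [AddCommGroup M] → [Module R M] → Prop
  | 0, M, _, _ => Module.Finite R M
  | n + 1, M, _, _ => ∃ (r : ℕ) (f : (Fin r → R) →ₗ[R] M), Function.Surjective f ∧
      FP R n (LinearMap.ker f)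

variable {R : Type} [Ring R]
variable {M N K : Type} [AddCommGroup M] [Module R M] [AddCommGroup N] [Module R N]
  [AddCommGroup K] [Module R K]

theorem FP_zero_iff : FP R 0 M ↔ Module.Finite R M := Iff.rfl

theorem FP_succ_iff (n : ℕ) : FP R (n + 1) M ↔ ∃ (r : ℕ) (f : (Fin r → R) →ₗ[R] M),
    Function.Surjective f ∧ FP R n (LinearMap.ker f) := Iff.rfl

/-- invariance under isomorphism -/
theorem FP.equiv (e : M ≃ₗ[R] N) : ∀ {n : ℕ}, FP R n M → FP R n N
  | 0, h => by
    have h' : Module.Finite R M := h
    exact Module.Finite.equiv e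
  | _ + 1, ⟨r, f, hf, hk⟩ => by
    refine ⟨r, e.toLinearMap.comp f, e.surjective.comp hf, ?_⟩
    have h1 : LinearMap.ker (e.toLinearMap.comp f) = LinearMap.ker f := by
      ext x
      simp
    rw [h1]
    exact hk

/-- the kernels of two maps with the same kernel as sets -/
theorem FP.of_eq {p q : Submodule R M} (h : p = q) {n : ℕ} (hp : FP R n p) : FP R n q := by
  subst h
  exact hp

theorem FP.finite : ∀ {n : ℕ} {M : Type} [AddCommGroup M] [Module R M], FP R n M →
    Module.Finite R M
  | 0, _, _, _, h => h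
  | _ + 1, _, _, _, ⟨_, f, hf, _⟩ => Module.Finite.of_surjective f hf

theorem FP.pred : ∀ {n : ℕ} {M : Type} [AddCommGroup M] [Module R M], FP R (n + 1) M → FP R n M
  | 0, _, _, _, h => h.finite
  | _ + 1, _, _, _, ⟨r, f, hf, hk⟩ => ⟨r, f, hf, hk.pred⟩

theorem FP.mono {m n : ℕ} (hmn : m ≤ n) (h : FP R n M) : FP R m M := by
  induction n, hmn using Nat.le_induction with
  | base => exact h
  | succ n hn ih => exact ih h.pred

/-- the zero module -/
theorem FP.of_subsingleton : ∀ (n : ℕ) (M : Type) [AddCommGroup M] [Module R M]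
    [Subsingleton M], FP R n M
  | 0, M, _, _, _ => by
    have : Module.Finite R M := inferInstance
    exact this
  | n + 1, M, _, _, _ => ⟨0, 0, fun y => ⟨0, Subsingleton.elim _ _⟩, by
    have : Subsingleton (LinearMap.ker (0 : (Fin 0 → R) →ₗ[R] M)) :=
      ⟨fun a b => Subtype.ext (Subsingleton.elim _ _)⟩
    exact FP.of_subsingleton n _⟩

/-- free modules of finite rank -/
theorem FP.free (n r : ℕ) : FP R n (Fin r → R) := by
  cases n with
  | zero =>
    have : Module.Finite R (Fin r → R) := inferInstance
    exact this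
  | succ n =>
    refine ⟨r, LinearMap.id, Function.surjective_id, ?_⟩
    have : Subsingleton (LinearMap.ker (LinearMap.id : (Fin r → R) →ₗ[R] (Fin r → R))) := by
      rw [LinearMap.ker_id]
      exact Submodule.subsingleton_iff_eq_bot.2 rfl
    exact FP.of_subsingleton n _

/-- (E1) extensions -/
theorem FP.ext : ∀ (n : ℕ) {M N : Type} [AddCommGroup M] [Module R M] [AddCommGroup N]
    [Module R N] (g : M →ₗ[R] N), Function.Surjective g →
    FP R n (LinearMap.ker g) → FP R n N → FP R n M := by
  intro n
  induction n with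
  | zero =>
    intro M N _ _ _ _ g hg hk hN
    have h1 : Module.Finite R (LinearMap.ker g) := hk
    have h2 : Module.Finite R N := hN
    have h3 : (⊤ : Submodule R M).FG := by
      refine Submodule.fg_of_fg_map_of_fg_inf_ker g ?_ ?_
      · rw [Submodule.map_top, LinearMap.range_eq_top.2 hg]
        exact h2.fg_top
      · rw [top_inf_eq]
        exact (Module.Finite.iff_fg).1 h1
    exact ⟨h3⟩
  | succ n ih =>
    intro M N _ _ _ _ g hg hk hN
    obtain ⟨r, f, hf, hfk⟩ := hk
    obtain ⟨s, h, hh, hhk⟩ := hN
    -- lift of `h`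
    choose l hl using fun i => hg (h (Pi.single i 1))
    let h' : (Fin s → R) →ₗ[R] M := Fintype.linearCombination R l
    have hh' : ∀ y, g (h' y) = h y := by
      intro y
      have : g.comp h' = h := by
        refine LinearMap.pi_ext' fun i => LinearMap.ext_ring ?_
        simp [h', Fintype.linearCombination_apply_single, hl]
      rw [← this]
      rfl
    let F : ((Fin r → R) × (Fin s → R)) →ₗ[R] M :=
      LinearMap.coprod ((LinearMap.ker g).subtype.comp f) h'
    have hF : Function.Surjective F := by
      intro m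
      obtain ⟨y, hy⟩ := hh (g m)
      have hm : m - h' y ∈ LinearMap.ker g := by
        rw [LinearMap.mem_ker, map_sub, hh', hy, sub_self]
      obtain ⟨x, hx⟩ := hf ⟨m - h' y, hm⟩
      refine ⟨(x, y), ?_⟩
      simp [F, hx]
    -- identify with `Fin (r+s) → R`
    let e : (Fin (r + s) → R) ≃ₗ[R] ((Fin r → R) × (Fin s → R)) :=
      (LinearEquiv.funCongrLeft R R finSumFinEquiv).trans (LinearEquiv.sumArrowLequivProdArrow _ _ R R)
    refine ⟨r + s, F.comp e.toLinearMap, hF.comp e.surjective, ?_⟩
    -- the kernel of `F`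
    have hkF : FP R n (LinearMap.ker F) := by
      let q : LinearMap.ker F →ₗ[R] LinearMap.ker h :=
        LinearMap.codRestrict _ ((LinearMap.snd R _ _).comp (LinearMap.ker F).subtype) (by
          rintro ⟨⟨x, y⟩, hxy⟩
          have h1 : F (x, y) = 0 := hxy
          have h2 : g (F (x, y)) = 0 := by rw [h1, map_zero]
          have h3 : g (F (x, y)) = h y := by
            simp [F, hh']
          simp only [LinearMap.coe_comp, Submodule.coe_subtype, Function.comp_apply,
            LinearMap.snd_apply, LinearMap.mem_ker]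
          rw [← h3, h2])
      have hq : Function.Surjective q := by
        rintro ⟨y, hy⟩
        have hy' : h y = 0 := hy
        have h1 : -(h' y) ∈ LinearMap.ker g := by
          rw [LinearMap.mem_ker, map_neg, hh', hy', neg_zero]
        obtain ⟨x, hx⟩ := hf ⟨-(h' y), h1⟩
        refine ⟨⟨(x, y), ?_⟩, ?_⟩
        · simp [F, hx]
        · apply Subtype.ext
          simp [q]
      refine ih q hq ?_ hhk
      -- kernel of `q`
      have e2 : LinearMap.ker f ≃ₗ[R] LinearMap.ker q := by
        refine LinearEquiv.ofBijective (LinearMap.codRestrict _ (LinearMap.codRestrict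
          (LinearMap.ker F) ((LinearMap.inl R (Fin r → R) (Fin s → R)).comp
            (LinearMap.ker f).subtype) ?_) ?_) ⟨?_, ?_⟩
        · rintro ⟨x, hx⟩
          have hx' : f x = 0 := hx
          simp [F, hx']
        · rintro ⟨x, hx⟩
          apply Subtype.ext
          simp [q]
        · rintro ⟨x, hx⟩ ⟨x', hx'⟩ h1
          have h2 := congrArg (fun z => (((z : LinearMap.ker q) : LinearMap.ker F) :
            (Fin r → R) × (Fin s → R)).1) h1
          apply Subtype.ext
          simpa using h2
        · rintro ⟨⟨⟨x, y⟩, hxy⟩, hz⟩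
          have hy : y = 0 := by
            have := congrArg Subtype.val (LinearMap.mem_ker.1 hz)
            simpa [q] using this
          subst hy
          have hx : f x = 0 := by
            have h1 : F (x, 0) = 0 := hxy
            have h2 : ((f x : LinearMap.ker g) : M) = 0 := by
              simpa [F] using h1
            exact Subtype.ext h2
          exact ⟨⟨x, hx⟩, rfl⟩
      exact FP.equiv e2 hfk
    -- transport
    refine FP.equiv ?_ hkF
    refine (LinearEquiv.ofBijective (LinearMap.codRestrict _ (e.symm.toLinearMap.comp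
      (LinearMap.ker F).subtype) ?_) ⟨?_, ?_⟩)
    · rintro ⟨z, hz⟩
      have hz' : F z = 0 := hz
      simp [hz']
    · rintro ⟨z, hz⟩ ⟨z', hz'⟩ h1
      have h2 := congrArg Subtype.val h1
      apply Subtype.ext
      simpa using h2
    · rintro ⟨w, hw⟩
      refine ⟨⟨e w, by simpa using hw⟩, ?_⟩
      apply Subtype.ext
      simp

/-- (E2) quotients -/
theorem FP.quot (n : ℕ) (g : M →ₗ[R] N) (hg : Function.Surjective g) (hM : FP R (n + 1) M)
    (hk : FP R n (LinearMap.ker g)) : FP R (n + 1) N := by
  obtain ⟨r, f, hf, hfk⟩ := hM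
  refine ⟨r, g.comp f, hg.comp hf, ?_⟩
  let q : LinearMap.ker (g.comp f) →ₗ[R] LinearMap.ker g :=
    LinearMap.codRestrict _ (f.comp (LinearMap.ker (g.comp f)).subtype) (by
      rintro ⟨x, hx⟩
      exact hx)
  have hq : Function.Surjective q := by
    rintro ⟨m, hm⟩
    obtain ⟨x, hx⟩ := hf m
    refine ⟨⟨x, ?_⟩, ?_⟩
    · rw [LinearMap.mem_ker, LinearMap.comp_apply, hx]
      exact hm
    · apply Subtype.ext
      exact hx
  refine FP.ext n q hq ?_ hk
  have e : LinearMap.ker f ≃ₗ[R] LinearMap.ker q := by
    refine LinearEquiv.ofBijective (LinearMap.codRestrict _ (LinearMap.codRestrict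
      (LinearMap.ker (g.comp f)) (LinearMap.ker f).subtype ?_) ?_) ⟨?_, ?_⟩
    · rintro ⟨x, hx⟩
      have hx' : f x = 0 := hx
      simp [hx']
    · rintro ⟨x, hx⟩
      apply Subtype.ext
      exact hx
    · rintro ⟨x, hx⟩ ⟨x', hx'⟩ h1
      have h2 := congrArg (fun z => (((z : LinearMap.ker q) : LinearMap.ker (g.comp f)) :
        (Fin r → R))) h1
      exact Subtype.ext h2
    · rintro ⟨⟨x, hx⟩, hz⟩
      have hx' : f x = 0 := congrArg Subtype.val (LinearMap.mem_ker.1 hz)
      exact ⟨⟨x, hx'⟩, rfl⟩
  exact FP.equiv e hfk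

/-- (E2) for `FP 0` -/
theorem FP.quot_zero (g : M →ₗ[R] N) (hg : Function.Surjective g) (hM : FP R 0 M) :
    FP R 0 N := by
  have : Module.Finite R M := hM
  exact Module.Finite.of_surjective g hg

/-- direct factors with free complement -/
theorem FP.of_prod_free : ∀ (n r : ℕ) {M : Type} [AddCommGroup M] [Module R M],
    FP R n (M × (Fin r → R)) → FP R n M := by
  intro n
  cases n with
  | zero =>
    intro r M _ _ h
    exact FP.quot_zero (LinearMap.fst R M (Fin r → R)) LinearMap.fst_surjective h
  | succ n =>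
    intro r M _ _ h
    refine FP.quot n (LinearMap.fst R M (Fin r → R)) LinearMap.fst_surjective h ?_
    have e : (Fin r → R) ≃ₗ[R] LinearMap.ker (LinearMap.fst R M (Fin r → R)) := by
      refine LinearEquiv.ofBijective (LinearMap.codRestrict _ (LinearMap.inr R M (Fin r → R)) ?_)
        ⟨?_, ?_⟩
      · intro x
        simp
      · intro x y h1
        exact congrArg (fun z => ((z : LinearMap.ker (LinearMap.fst R M (Fin r → R))) :
          M × (Fin r → R)).2) h1
      · rintro ⟨⟨x, y⟩, hx⟩
        have hx' : x = 0 := hx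
        subst hx'
        exact ⟨y, rfl⟩
    exact FP.equiv e (FP.free n r)

/-- products -/
theorem FP.prod (n : ℕ) (hM : FP R n M) (hN : FP R n N) : FP R n (M × N) := by
  refine FP.ext n (LinearMap.snd R M N) LinearMap.snd_surjective ?_ hN
  have e : M ≃ₗ[R] LinearMap.ker (LinearMap.snd R M N) := by
    refine LinearEquiv.ofBijective (LinearMap.codRestrict _ (LinearMap.inl R M N) ?_) ⟨?_, ?_⟩
    · intro x
      simp
    · intro x y h1
      exact congrArg (fun z => ((z : LinearMap.ker (LinearMap.snd R M N)) : M × N).1) h1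
    · rintro ⟨⟨x, y⟩, hx⟩
      have hx' : y = 0 := hx
      subst hx'
      exact ⟨x, rfl⟩
  exact FP.equiv e hM

/-- powers -/
theorem FP.pi (n s : ℕ) (hM : FP R n M) : FP R n (Fin s → M) := by
  induction s with
  | zero => exact FP.of_subsingleton n _
  | succ s ih =>
    exact FP.equiv (Fin.consLinearEquiv R (fun _ : Fin (s + 1) => M)) (FP.prod n hM ih)

/-- (E3) kernels -/
theorem FP.ker (n : ℕ) (g : M →ₗ[R] N) (hg : Function.Surjective g) (hM : FP R n M)
    (hN : FP R (n + 1) N) : FP R n (LinearMap.ker g) := by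
  obtain ⟨r, f, hf, hfk⟩ := hN
  -- the pullback
  let X : Submodule R (M × (Fin r → R)) :=
    LinearMap.ker ((g.comp (LinearMap.fst R M (Fin r → R))) -
      (f.comp (LinearMap.snd R M (Fin r → R))))
  have memX : ∀ z : M × (Fin r → R), z ∈ X ↔ g z.1 = f z.2 := by
    intro z
    simp [X, sub_eq_zero]
  let pM : X →ₗ[R] M := (LinearMap.fst R M (Fin r → R)).comp X.subtype
  have hpM : Function.Surjective pM := by
    intro m
    obtain ⟨y, hy⟩ := hf (g m)
    exact ⟨⟨(m, y), (memX _).2 hy.symm⟩, rfl⟩
  have hX : FP R n X := by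
    refine FP.ext n pM hpM ?_ hM
    have e : LinearMap.ker f ≃ₗ[R] LinearMap.ker pM := by
      refine LinearEquiv.ofBijective (LinearMap.codRestrict _ (LinearMap.codRestrict X
        ((LinearMap.inr R M (Fin r → R)).comp (LinearMap.ker f).subtype) ?_) ?_) ⟨?_, ?_⟩
      · rintro ⟨x, hx⟩
        have hx' : f x = 0 := hx
        rw [memX]
        simp [hx']
      · rintro ⟨x, hx⟩
        simp [pM]
      · rintro ⟨x, hx⟩ ⟨x', hx'⟩ h1
        have h2 := congrArg (fun z => (((z : LinearMap.ker pM) : X) : M × (Fin r → R)).2) h1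
        exact Subtype.ext h2
      · rintro ⟨⟨⟨m, y⟩, hmy⟩, hz⟩
        have hm : m = 0 := LinearMap.mem_ker.1 hz
        subst hm
        have hy : f y = 0 := by
          have := (memX _).1 hmy
          simpa using this.symm
        exact ⟨⟨y, hy⟩, rfl⟩
    exact FP.equiv e hfk
  -- a splitting
  choose l hl using fun i => hg (f (Pi.single i 1))
  let h' : (Fin r → R) →ₗ[R] M := Fintype.linearCombination R l
  have hh' : ∀ y, g (h' y) = f y := by
    intro y
    have : g.comp h' = f := by
      refine LinearMap.pi_ext' fun i => LinearMap.ext_ring ?_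
      simp [h', Fintype.linearCombination_apply_single, hl]
    rw [← this]
    rfl
  have e : X ≃ₗ[R] (LinearMap.ker g) × (Fin r → R) := by
    refine (LinearEquiv.ofBijective (LinearMap.coprod
      (LinearMap.codRestrict X ((LinearMap.inl R M (Fin r → R)).comp (LinearMap.ker g).subtype) ?_)
      (LinearMap.codRestrict X (LinearMap.prod h' LinearMap.id) ?_)) ⟨?_, ?_⟩).symm
    · rintro ⟨x, hx⟩
      have hx' : g x = 0 := hx
      rw [memX]
      simp [hx']
    · intro y
      rw [memX]
      simp [hh']
    · rintro ⟨⟨x, hx⟩, y⟩ ⟨⟨x', hx'⟩, y'⟩ h1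
      have h2 := congrArg Subtype.val h1
      have h3 : x + h' y = x' + h' y' := congrArg Prod.fst h2
      have h4 : 0 + y = 0 + y' := congrArg Prod.snd h2
      rw [zero_add, zero_add] at h4
      subst h4
      have h5 : x = x' := add_right_cancel h3
      subst h5
      rfl
    · rintro ⟨⟨m, y⟩, hmy⟩
      have h1 : g m = f y := (memX _).1 hmy
      refine ⟨(⟨m - h' y, ?_⟩, y), ?_⟩
      · rw [LinearMap.mem_ker, map_sub, hh', h1, sub_self]
      · apply Subtype.ext
        simp
  exact FP.of_prod_free n r (FP.equiv e hX)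

/-- over a Noetherian ring every finitely generated module is of type `FP n` -/
theorem FP.of_noetherian [IsNoetherianRing R] : ∀ (n : ℕ) (M : Type) [AddCommGroup M]
    [Module R M], Module.Finite R M → FP R n M
  | 0, _, _, _, h => h
  | n + 1, M, _, _, h => by
    obtain ⟨r, f, hf⟩ := Module.Finite.exists_fin' R M
    exact ⟨r, f, hf, FP.of_noetherian n _ inferInstance⟩

end Pool.Agent.Lib.MP_d943a5_al
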