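import Pool.Agent.Lib.MP_d943a5_al.Ind

/-!
# Finite presentability
-/

set_option autoImplicit false

namespace Pool.Agent.Lib.MP_d943a5_al

section

variable {G H Q P Γ₁ Γ₂ : Type} [Group G] [Group H] [Group Q] [Group P] [Group Γ₁] [Group Γ₂]

-- BEGIN F1
theorem f1_factor {P Γ Q : Type} [Group P] [Group Γ] [Group Q] (p : P →* Γ) (q : P →* Q)
    (hp : Function.Surjective p) (hk : p.ker ≤ q.ker) : ∃ θ : Γ →* Q, ∀ x, θ (p x) = q x :=
  ⟨p.liftOfSurjective hp ⟨q, hk⟩, fun x => MonoidHom.liftOfRightInverse_comp_apply p _ _ _ x⟩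

/-- the kernel of a surjection from a finitely generated group onto a finitely presented group
is finitely generated as a normal subgroup -/
theorem ker_fng (φ : H →* Q) (hφ : Function.Surjective φ) (hH : Group.FG H)
    (hQ : Group.IsFinitelyPresented Q) : φ.ker.IsFinitelyNormallyGenerated := by
  classical
  obtain ⟨n, ψ, hψ, S, hS, hSk⟩ := hQ.out
  obtain ⟨T, hT⟩ := hH.out
  choose a ha using fun i : Fin n => hφ (ψ (FreeGroup.of i))
  choose w hw using fun t : H => hψ (φ t)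
  let α : FreeGroup (Fin n) →* H := FreeGroup.lift a
  have hα : ∀ x, φ (α x) = ψ x := by
    intro x
    have h1 : φ.comp α = ψ := by
      ext i
      simp [α, ha]
    exact DFunLike.congr_fun h1 x
  let X : Set H := (α '' S) ∪ ((fun t => t⁻¹ * α (w t)) '' (T : Set H))
  have hX : X.Finite := (hS.image _).union (T.finite_toSet.image _)
  refine ⟨X, hX, le_antisymm ?_ ?_⟩
  · apply Subgroup.normalClosure_le_normal
    rintro x (⟨s, hs, rfl⟩ | ⟨t, ht, rfl⟩)
    · change α s ∈ φ.ker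
      rw [MonoidHom.mem_ker, hα]
      have h1 : s ∈ Subgroup.normalClosure S := Subgroup.subset_normalClosure hs
      rw [hSk] at h1
      exact h1
    · change t⁻¹ * α (w t) ∈ φ.ker
      rw [MonoidHom.mem_ker, map_mul, map_inv, hα, hw, inv_mul_cancel]
  · obtain ⟨β, hβ⟩ := f1_factor ψ ((QuotientGroup.mk' (Subgroup.normalClosure X)).comp α) hψ (by
      rw [← hSk]
      apply Subgroup.normalClosure_le_normal
      intro s hs
      change (QuotientGroup.mk' (Subgroup.normalClosure X)) (α s) = 1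
      rw [← MonoidHom.mem_ker, QuotientGroup.ker_mk']
      exact Subgroup.subset_normalClosure (Or.inl ⟨s, hs, rfl⟩))
    have h1 : β.comp φ = QuotientGroup.mk' (Subgroup.normalClosure X) := by
      apply MonoidHom.eq_of_eqOn_dense hT
      intro t ht
      have h2 : (QuotientGroup.mk' (Subgroup.normalClosure X)) (t⁻¹ * α (w t)) = 1 := by
        rw [← MonoidHom.mem_ker, QuotientGroup.ker_mk']
        exact Subgroup.subset_normalClosure (Or.inr ⟨t, ht, rfl⟩)
      rw [map_mul, map_inv, inv_mul_eq_one] at h2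
      rw [MonoidHom.comp_apply, ← hw, hβ, MonoidHom.comp_apply, h2]
    intro x hx
    have h2 : (QuotientGroup.mk' (Subgroup.normalClosure X)) x = 1 := by
      rw [← h1, MonoidHom.comp_apply, show φ x = 1 from hx, map_one]
    rwa [← MonoidHom.mem_ker, QuotientGroup.ker_mk'] at h2
-- END F1

-- BEGIN F2
theorem f2_fg (p₂ : P →* Γ₂) (h₂ : Function.Surjective p₂) (hA : Group.FG p₂.ker)
    (hΓ : Group.FG Γ₂) : Group.FG P := by
  obtain ⟨T, hT⟩ := hA.out
  obtain ⟨S, hS⟩ := hΓ.out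
  choose s hs using h₂
  rw [Group.fg_iff]
  refine ⟨(p₂.ker.subtype '' (T : Set p₂.ker)) ∪ (s '' (S : Set Γ₂)), ?_,
    (T.finite_toSet.image _).union (S.finite_toSet.image _)⟩
  rw [eq_top_iff]
  intro x _
  have hker : p₂.ker ≤ Subgroup.closure ((p₂.ker.subtype '' (T : Set p₂.ker)) ∪
      (s '' (S : Set Γ₂))) := by
    refine le_trans ?_ (Subgroup.closure_mono Set.subset_union_left)
    rw [← MonoidHom.map_closure, hT, ← MonoidHom.range_eq_map, Subgroup.range_subtype]
  have hmap : Subgroup.map p₂ (Subgroup.closure ((p₂.ker.subtype '' (T : Set p₂.ker)) ∪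
      (s '' (S : Set Γ₂)))) = ⊤ := by
    rw [eq_top_iff, ← hS, Subgroup.closure_le]
    intro g hg
    exact ⟨s g, Subgroup.subset_closure (Or.inr ⟨g, hg, rfl⟩), hs g⟩
  have hx : p₂ x ∈ Subgroup.map p₂ (Subgroup.closure ((p₂.ker.subtype '' (T : Set p₂.ker)) ∪
      (s '' (S : Set Γ₂)))) := hmap ▸ Subgroup.mem_top _
  obtain ⟨y, hy, hyx⟩ := hx
  have h3 : y⁻¹ * x ∈ p₂.ker := by
    rw [MonoidHom.mem_ker, map_mul, map_inv, hyx, inv_mul_cancel]
  have h4 := mul_mem hy (hker h3)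
  rwa [mul_inv_cancel_left] at h4

/-- a subgroup normalised by a generating set is normal -/
theorem f2_normal {F : Type} [Group F] (X : Set F) (hX : Subgroup.closure X = ⊤) (L : Subgroup F)
    (h1 : ∀ x ∈ X, ∀ a ∈ L, x * a * x⁻¹ ∈ L) (h2 : ∀ x ∈ X, ∀ a ∈ L, x⁻¹ * a * x ∈ L) :
    L.Normal := by
  have key : ∀ g : F, (∀ a ∈ L, g * a * g⁻¹ ∈ L) := by
    intro g
    have hg : g ∈ Subgroup.closure X := hX ▸ Subgroup.mem_top g
    induction hg using Subgroup.closure_induction'' with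
    | mem x hx => exact h1 x hx
    | inv_mem x hx => simpa using h2 x hx
    | one => intro a ha; simpa using ha
    | mul x y _ _ hx hy =>
      intro a ha
      have := hx _ (hy a ha)
      simpa [mul_assoc] using this
  exact ⟨fun a ha g => key g a ha⟩

/-- a finitely presented group covering `P` in which the two kernels commute -/
theorem cover_commuting (p₁ : P →* Γ₁) (p₂ : P →* Γ₂) (h₁ : Function.Surjective p₁)
    (h₂ : Function.Surjective p₂) (hinj : p₁.ker ⊓ p₂.ker = ⊥) (hA : Group.FG p₂.ker)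
    (hΓ₁ : Group.IsFinitelyPresented Γ₁) (hΓ₂ : Group.IsFinitelyPresented Γ₂) :
    ∃ (H : Type) (_ : Group H) (h : H →* P), Group.IsFinitelyPresented H ∧
      Function.Surjective h ∧ ∀ x ∈ h.ker, ∀ y ∈ h.ker, x * y = y * x := by
  classical
  have hΓf : Group.FG Γ₂ := by
    obtain ⟨n, ψ, hψ, -⟩ := hΓ₂.out
    exact Group.fg_of_surjective hψ
  have hP : Group.FG P := f2_fg p₂ h₂ hA hΓf
  obtain ⟨α, _, f, hf⟩ := Group.fg_iff_exists_freeGroup_hom_surjective_finite.1 hP
  obtain ⟨R₁, hR₁, hK₁⟩ := ker_fng (p₁.comp f) (h₁.comp hf) inferInstance hΓ₁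
  obtain ⟨R₂, hR₂, hK₂⟩ := ker_fng (p₂.comp f) (h₂.comp hf) inferInstance hΓ₂
  obtain ⟨T, hT⟩ := hA.out
  choose l hl using hf
  let A₀ : Set (FreeGroup α) := (fun t : p₂.ker => l t) '' (T : Set p₂.ker)
  have hA₀ : A₀.Finite := T.finite_toSet.image _
  have hA₀f : ∀ a ∈ A₀, f a ∈ p₂.ker := by
    rintro _ ⟨t, _, rfl⟩
    change f (l t) ∈ p₂.ker
    rw [hl]
    exact t.2
  let L : Subgroup (FreeGroup α) := Subgroup.closure A₀
  have hLf : p₂.ker ≤ L.map f := by
    have h3 : p₂.ker = (⊤ : Subgroup p₂.ker).map p₂.ker.subtype := by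
      rw [← MonoidHom.range_eq_map, Subgroup.range_subtype]
    rw [h3, ← hT, MonoidHom.map_closure, Subgroup.closure_le]
    rintro _ ⟨t, ht, rfl⟩
    exact ⟨l t, Subgroup.subset_closure ⟨t, ht, rfl⟩, hl t⟩
  have hW : ∀ y : P, ∃ w : FreeGroup α, y ∈ p₂.ker → w ∈ L ∧ f w = y := by
    intro y
    by_cases hy : y ∈ p₂.ker
    · obtain ⟨w, hw, hwy⟩ := hLf hy
      exact ⟨w, fun _ => ⟨hw, hwy⟩⟩
    · exact ⟨1, fun h => absurd h hy⟩
  choose W hW using hW
  -- the relators
  let c : FreeGroup α → FreeGroup α := fun r => (W (f r))⁻¹ * r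
  let X₁ : Set (FreeGroup α) := c '' R₂
  let X₂ : Set (FreeGroup α) := ⋃ i : α, (fun a => c (FreeGroup.of i * a * (FreeGroup.of i)⁻¹)) '' A₀
  let X₃ : Set (FreeGroup α) := ⋃ i : α, (fun a => c ((FreeGroup.of i)⁻¹ * a * FreeGroup.of i)) '' A₀
  let X₄ : Set (FreeGroup α) := Set.image2 (fun b a => b * a * b⁻¹ * a⁻¹) R₁ A₀
  have hX₁ : X₁.Finite := hR₂.image _
  have hX₂ : X₂.Finite := Set.finite_iUnion fun _ => hA₀.image _
  have hX₃ : X₃.Finite := Set.finite_iUnion fun _ => hA₀.image _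
  have hX₄ : X₄.Finite := hR₁.image2 _ hA₀
  let N : Subgroup (FreeGroup α) := Subgroup.normalClosure (X₁ ∪ X₂ ∪ X₃ ∪ X₄)
  have hc : ∀ r, f r ∈ p₂.ker → f (c r) = 1 := by
    intro r hr
    change f ((W (f r))⁻¹ * r) = 1
    rw [map_mul, map_inv, (hW _ hr).2, inv_mul_cancel]
  have hconj : ∀ (g a : FreeGroup α), f a ∈ p₂.ker → f (g * a * g⁻¹) ∈ p₂.ker := by
    intro g a ha
    rw [map_mul, map_mul, map_inv]
    exact (MonoidHom.normal_ker p₂).conj_mem _ ha _
  have hconj' : ∀ (g a : FreeGroup α), f a ∈ p₂.ker → f (g⁻¹ * a * g) ∈ p₂.ker := by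
    intro g a ha
    have := hconj g⁻¹ a ha
    rwa [inv_inv] at this
  have hR₁f : ∀ b ∈ R₁, f b ∈ p₁.ker := by
    intro b hb
    have h3 : b ∈ (p₁.comp f).ker := hK₁ ▸ Subgroup.subset_normalClosure hb
    exact h3
  have hR₂f : ∀ b ∈ R₂, f b ∈ p₂.ker := by
    intro b hb
    have h3 : b ∈ (p₂.comp f).ker := hK₂ ▸ Subgroup.subset_normalClosure hb
    exact h3
  have hNf : N ≤ f.ker := by
    apply Subgroup.normalClosure_le_normal
    rintro x (((⟨r, hr, rfl⟩ | hx) | hx) | ⟨b, hb, a, ha, rfl⟩)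
    · exact hc r (hR₂f r hr)
    · obtain ⟨i, a, ha, rfl⟩ := Set.mem_iUnion.1 hx
      exact hc _ (hconj _ _ (hA₀f a ha))
    · obtain ⟨i, a, ha, rfl⟩ := Set.mem_iUnion.1 hx
      exact hc _ (hconj' _ _ (hA₀f a ha))
    · change f (b * a * b⁻¹ * a⁻¹) = 1
      rw [← Subgroup.mem_bot, ← hinj, map_mul, map_mul, map_mul, map_inv, map_inv]
      refine Subgroup.mem_inf.2 ⟨?_, ?_⟩
      · rw [mul_assoc, mul_assoc]
        refine mul_mem (hR₁f b hb) ?_
        rw [← mul_assoc]
        exact (MonoidHom.normal_ker p₁).conj_mem _ (inv_mem (hR₁f b hb)) _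
      · exact mul_mem ((MonoidHom.normal_ker p₂).conj_mem _ (hA₀f a ha) _) (inv_mem (hA₀f a ha))
  let q : FreeGroup α →* FreeGroup α ⧸ N := QuotientGroup.mk' N
  have hq : ∀ x ∈ X₁ ∪ X₂ ∪ X₃ ∪ X₄, q x = 1 := by
    intro x hx
    change x ∈ q.ker
    rw [QuotientGroup.ker_mk']
    exact Subgroup.subset_normalClosure hx
  have hqc : ∀ r, c r ∈ X₁ ∪ X₂ ∪ X₃ ∪ X₄ → f r ∈ p₂.ker → q r ∈ L.map q := by
    intro r hr hr2
    have h3 := hq _ hr
    change q ((W (f r))⁻¹ * r) = 1 at h3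
    rw [map_mul, map_inv, inv_mul_eq_one] at h3
    exact ⟨W (f r), (hW _ hr2).1, h3⟩
  have hLn : (L.map q).Normal := by
    apply f2_normal (Set.range (fun i => q (FreeGroup.of i)))
    · rw [Set.range_comp' q, ← MonoidHom.map_closure, FreeGroup.closure_range_of]
      exact Subgroup.map_top_of_surjective _ (QuotientGroup.mk'_surjective _)
    · rintro _ ⟨i, rfl⟩ a ha
      have h3 : L.map q ≤ (L.map q).comap (MulAut.conj (q (FreeGroup.of i))).toMonoidHom := by
        rw [MonoidHom.map_closure, Subgroup.closure_le, ← MonoidHom.map_closure]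
        rintro _ ⟨a, ha, rfl⟩
        change q (FreeGroup.of i) * q a * (q (FreeGroup.of i))⁻¹ ∈ L.map q
        rw [← map_inv, ← map_mul, ← map_mul]
        exact hqc _ (Or.inl (Or.inl (Or.inr (Set.mem_iUnion.2 ⟨i, a, ha, rfl⟩))))
          (hconj _ _ (hA₀f a ha))
      exact h3 ha
    · rintro _ ⟨i, rfl⟩ a ha
      have h3 : L.map q ≤ (L.map q).comap (MulAut.conj (q (FreeGroup.of i))⁻¹).toMonoidHom := by
        rw [MonoidHom.map_closure, Subgroup.closure_le, ← MonoidHom.map_closure]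
        rintro _ ⟨a, ha, rfl⟩
        change (q (FreeGroup.of i))⁻¹ * q a * (q (FreeGroup.of i))⁻¹⁻¹ ∈ L.map q
        rw [inv_inv, ← map_inv, ← map_mul, ← map_mul]
        exact hqc _ (Or.inl (Or.inr (Set.mem_iUnion.2 ⟨i, a, ha, rfl⟩)))
          (hconj' _ _ (hA₀f a ha))
      have h4 := h3 ha
      change (q (FreeGroup.of i))⁻¹ * a * (q (FreeGroup.of i))⁻¹⁻¹ ∈ L.map q at h4
      rwa [inv_inv] at h4
  have hK₂q : (p₂.comp f).ker ≤ (L.map q).comap q := by
    rw [← hK₂]
    apply Subgroup.normalClosure_le_normal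
    intro r hr
    exact hqc r (Or.inl (Or.inl (Or.inl ⟨r, hr, rfl⟩))) (hR₂f r hr)
  have hK₁q : (p₁.comp f).ker ≤ (Subgroup.centralizer (L.map q : Set _)).comap q := by
    rw [← hK₁]
    apply Subgroup.normalClosure_le_normal
    intro b hb
    change q b ∈ Subgroup.centralizer (L.map q : Set _)
    rw [MonoidHom.map_closure, Subgroup.centralizer_closure, Subgroup.mem_centralizer_iff]
    rintro _ ⟨a, ha, rfl⟩
    have h3 := hq (b * a * b⁻¹ * a⁻¹) (Or.inr ⟨b, hb, a, ha, rfl⟩)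
    rw [map_mul, map_mul, map_mul, map_inv, map_inv, mul_inv_eq_one, mul_inv_eq_iff_eq_mul] at h3
    exact h3.symm
  refine ⟨FreeGroup α ⧸ N, inferInstance, QuotientGroup.lift N f (fun x hx => hNf hx),
    Group.IsFinitelyPresented.quotient N ⟨_, ((hX₁.union hX₂).union hX₃).union hX₄, rfl⟩, ?_, ?_⟩
  · intro y
    exact ⟨q (l y), by
      change QuotientGroup.lift N f (fun x hx => hNf hx) (QuotientGroup.mk (l y)) = y
      rw [QuotientGroup.lift_mk, hl]⟩
  · intro x hx y hy
    obtain ⟨x', rfl⟩ := QuotientGroup.mk'_surjective N x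
    obtain ⟨y', rfl⟩ := QuotientGroup.mk'_surjective N y
    have hx' : f x' = 1 := hx
    have hy' : f y' = 1 := hy
    have h3 : q x' ∈ Subgroup.centralizer (L.map q : Set _) := hK₁q (by
      change p₁ (f x') = 1
      rw [hx', map_one])
    have h4 : q y' ∈ L.map q := hK₂q (by
      change p₂ (f y') = 1
      rw [hy', map_one])
    exact (Subgroup.mem_centralizer_iff.1 h3 _ h4).symm
-- END F2

-- BEGIN F3
/-- a chosen preimage -/
noncomputable def f3_s (h : H →* P) (p : P) : H := by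
  classical
  exact if hp : ∃ x, h x = p then hp.choose else 1

theorem f3_hs (h : H →* P) (g : H) : h (f3_s h (h g)) = h g := by
  have hp : ∃ x, h x = h g := ⟨g, rfl⟩
  unfold f3_s
  rw [dif_pos hp]
  exact hp.choose_spec

/-- for an abelian normal subgroup `M = ker h`, elements with `m - 1 ∈ I_M I_H` are trivial -/
theorem eq_one_of_mem (h : H →* P) (hab : ∀ x ∈ h.ker, ∀ y ∈ h.ker, x * y = y * x) (m : H)
    (hm : m ∈ h.ker)
    (hI : el m - 1 ∈ AddSubgroup.closure {y : ZG H | ∃ x ∈ h.ker, ∃ u ∈ IG H,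
      y = (el x - 1) * u}) : m = 1 := by
  letI : CommGroup h.ker :=
    { (inferInstance : Group h.ker) with
      mul_comm := fun a b => Subtype.ext (hab a a.2 b b.2) }
  have hmem : ∀ g : H, g * (f3_s h (h g))⁻¹ ∈ h.ker := by
    intro g
    rw [MonoidHom.mem_ker, map_mul, map_inv, f3_hs, mul_inv_cancel]
  obtain ⟨l, hl⟩ := exists_zg_hom (G := H) (A := Additive h.ker)
    (fun g => Additive.ofMul ⟨g * (f3_s h (h g))⁻¹, hmem g⟩)
  have key : ∀ (x : H) (hx : x ∈ h.ker) (u : ZG H),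
      l ((el x - 1) * u) = (aug H u) • (Additive.ofMul (⟨x, hx⟩ : h.ker)) := by
    intro x hx u
    induction u using zg_induction with
    | h1 g =>
      have e1 : (el x - 1) * el g = el (x * g) - el g := by
        rw [sub_mul, ← el_mul, one_mul]
      rw [e1, map_sub, hl, hl, aug_el, one_smul, sub_eq_iff_eq_add]
      apply Additive.toMul.injective
      apply Subtype.ext
      have e2 : h (x * g) = h g := by rw [map_mul, MonoidHom.mem_ker.1 hx, one_mul]
      change x * g * (f3_s h (h (x * g)))⁻¹ = x * (g * (f3_s h (h g))⁻¹)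
      rw [e2, mul_assoc]
    | h0 => simp
    | hadd a b ha hb => rw [mul_add, map_add, map_add, ha, hb, add_smul]
    | hneg a ha => rw [mul_neg, map_neg, map_neg, ha, neg_smul]
  have h0 : l (el m - 1) = 0 := by
    have hle : AddSubgroup.closure {y : ZG H | ∃ x ∈ h.ker, ∃ u ∈ IG H,
        y = (el x - 1) * u} ≤ l.ker := by
      rw [AddSubgroup.closure_le]
      rintro y ⟨x, hx, u, hu, rfl⟩
      change l _ = 0
      rw [key x hx u, mem_IG.1 hu, zero_smul]
    exact hle hI
  have h1 := key m hm 1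
  rw [mul_one, h0, map_one, one_smul] at h1
  have h2 : (⟨m, hm⟩ : h.ker) = 1 := (Additive.ofMul.injective h1.symm)
  exact congrArg Subtype.val h2
-- END F3

-- BEGIN F4
/-- the elements `z` with `z - (m - 1)` in the closure for some `m` form a subgroup -/
theorem f4_add (h : H →* P) (z w : ZG H)
    (hz : ∃ m ∈ h.ker, z - (el m - 1) ∈ AddSubgroup.closure {y : ZG H | ∃ x ∈ h.ker,
      ∃ u ∈ IG H, y = (el x - 1) * u})
    (hw : ∃ m ∈ h.ker, w - (el m - 1) ∈ AddSubgroup.closure {y : ZG H | ∃ x ∈ h.ker,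
      ∃ u ∈ IG H, y = (el x - 1) * u}) :
    ∃ m ∈ h.ker, (z + w) - (el m - 1) ∈ AddSubgroup.closure {y : ZG H | ∃ x ∈ h.ker,
      ∃ u ∈ IG H, y = (el x - 1) * u} := by
  obtain ⟨m, hm, h1⟩ := hz
  obtain ⟨m', hm', h2⟩ := hw
  refine ⟨m * m', mul_mem hm hm', ?_⟩
  have h3 : (el m - 1) * (el m' - 1) ∈ AddSubgroup.closure {y : ZG H | ∃ x ∈ h.ker,
      ∃ u ∈ IG H, y = (el x - 1) * u} :=
    AddSubgroup.subset_closure ⟨m, hm, el m' - 1, el_sub_one_mem m', rfl⟩
  have h4 := AddSubgroup.sub_mem _ (AddSubgroup.add_mem _ h1 h2) h3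
  convert h4 using 1
  rw [el_mul, sub_mul, mul_sub, mul_one, one_mul]
  abel

theorem f4_neg (h : H →* P) (z : ZG H)
    (hz : ∃ m ∈ h.ker, z - (el m - 1) ∈ AddSubgroup.closure {y : ZG H | ∃ x ∈ h.ker,
      ∃ u ∈ IG H, y = (el x - 1) * u}) :
    ∃ m ∈ h.ker, (-z) - (el m - 1) ∈ AddSubgroup.closure {y : ZG H | ∃ x ∈ h.ker,
      ∃ u ∈ IG H, y = (el x - 1) * u} := by
  obtain ⟨m, hm, h1⟩ := hz
  refine ⟨m⁻¹, inv_mem hm, ?_⟩
  have h3 : (el m - 1) * (el m⁻¹ - 1) ∈ AddSubgroup.closure {y : ZG H | ∃ x ∈ h.ker,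
      ∃ u ∈ IG H, y = (el x - 1) * u} :=
    AddSubgroup.subset_closure ⟨m, hm, el m⁻¹ - 1, el_sub_one_mem m⁻¹, rfl⟩
  have h4 := AddSubgroup.sub_mem _ h3 h1
  convert h4 using 1
  rw [sub_mul, mul_sub, mul_one, one_mul, el_mul_inv]
  abel

/-- modulo `I_M I_H` every element of the kernel of `ℤH → ℤP` is of the form `m - 1` -/
theorem exists_ker_of_zmap (h : H →* P) (y : ZG H) (hy : zmap h y = 0) :
    ∃ m ∈ h.ker, y - (el m - 1) ∈ AddSubgroup.closure {y : ZG H | ∃ x ∈ h.ker, ∃ u ∈ IG H,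
      y = (el x - 1) * u} := by
  obtain ⟨f, hf⟩ := exists_zg_hom (G := P) (A := ZG H) (fun p => el (f3_s h p))
  have key : ∀ y : ZG H, ∃ m ∈ h.ker, (y - f (zmap h y)) - (el m - 1) ∈
      AddSubgroup.closure {y : ZG H | ∃ x ∈ h.ker, ∃ u ∈ IG H, y = (el x - 1) * u} := by
    intro y
    induction y using zg_induction with
    | h1 g =>
      refine ⟨g * (f3_s h (h g))⁻¹, ?_, ?_⟩
      · rw [MonoidHom.mem_ker, map_mul, map_inv, f3_hs, mul_inv_cancel]
      · apply AddSubgroup.subset_closure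
        refine ⟨g * (f3_s h (h g))⁻¹, ?_, el (f3_s h (h g)) - 1, el_sub_one_mem _, ?_⟩
        · rw [MonoidHom.mem_ker, map_mul, map_inv, f3_hs, mul_inv_cancel]
        · rw [zmap_el, hf, sub_mul, mul_sub, ← el_mul, inv_mul_cancel_right, mul_one, one_mul]
          abel
    | h0 =>
      refine ⟨1, one_mem _, ?_⟩
      rw [map_zero, map_zero, el_one, sub_self, sub_self, sub_self]
      exact AddSubgroup.zero_mem _
    | hadd a b ha hb =>
      have := f4_add h _ _ ha hb
      obtain ⟨m, hm, h1⟩ := this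
      refine ⟨m, hm, ?_⟩
      rw [map_add, map_add]
      convert h1 using 1
      abel
    | hneg a ha =>
      have := f4_neg h _ ha
      obtain ⟨m, hm, h1⟩ := this
      refine ⟨m, hm, ?_⟩
      rw [map_neg, map_neg]
      convert h1 using 1
      abel
  obtain ⟨m, hm, h1⟩ := key y
  refine ⟨m, hm, ?_⟩
  rw [hy, map_zero, sub_zero] at h1
  exact h1
-- END F4

-- BEGIN F5
private noncomputable def f5_J (h : H →* P) : AddSubgroup (ZG H) :=
  AddSubgroup.closure {y : ZG H | ∃ x ∈ h.ker, ∃ u ∈ IG H, y = (el x - 1) * u}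

private theorem f5_mem (h : H →* P) {x : H} (hx : x ∈ h.ker) {u : ZG H} (hu : u ∈ IG H) :
    (el x - 1) * u ∈ f5_J h := AddSubgroup.subset_closure ⟨x, hx, u, hu, rfl⟩

private theorem f5_mul_right (h : H →* P) {j : ZG H} (hj : j ∈ f5_J h) (c : ZG H) :
    j * c ∈ f5_J h := by
  rw [f5_J] at hj
  induction hj using AddSubgroup.closure_induction with
  | mem y hy =>
    obtain ⟨x, hx, u, hu, rfl⟩ := hy
    rw [mul_assoc]
    refine f5_mem h hx ?_
    rw [mem_IG, map_mul, mem_IG.1 hu, zero_mul]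
  | zero => rw [zero_mul]; exact AddSubgroup.zero_mem _
  | add y z _ _ hy hz => rw [add_mul]; exact AddSubgroup.add_mem _ hy hz
  | neg y _ hy => rw [neg_mul]; exact AddSubgroup.neg_mem _ hy

private theorem f5_el_mul (g x : H) : el g * (el x - 1) = (el (g * x * g⁻¹) - 1) * el g := by
  rw [mul_sub, mul_one, sub_mul, one_mul, ← el_mul, ← el_mul, inv_mul_cancel_right]

private theorem f5_conj (h : H →* P) {x : H} (hx : x ∈ h.ker) (g : H) : g * x * g⁻¹ ∈ h.ker :=
  Subgroup.Normal.conj_mem inferInstance x hx g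

private theorem f5_mul_left (h : H →* P) (c : ZG H) : ∀ {j : ZG H} (_ : j ∈ f5_J h),
    c * j ∈ f5_J h := by
  induction c using zg_induction with
  | h1 g =>
    intro j hj
    rw [f5_J] at hj
    induction hj using AddSubgroup.closure_induction with
    | mem y hy =>
      obtain ⟨x, hx, u, hu, rfl⟩ := hy
      rw [← mul_assoc, f5_el_mul, mul_assoc]
      refine f5_mem h (f5_conj h hx g) ?_
      rw [mem_IG, map_mul, mem_IG.1 hu, mul_zero]
    | zero => rw [mul_zero]; exact AddSubgroup.zero_mem _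
    | add y z _ _ hy hz => rw [mul_add]; exact AddSubgroup.add_mem _ hy hz
    | neg y _ hy => rw [mul_neg]; exact AddSubgroup.neg_mem _ hy
  | h0 => intro j _; rw [zero_mul]; exact AddSubgroup.zero_mem _
  | hadd x y hx hy => intro j hj; rw [add_mul]; exact AddSubgroup.add_mem _ (hx hj) (hy hj)
  | hneg x hx => intro j hj; rw [neg_mul]; exact AddSubgroup.neg_mem _ (hx hj)

private theorem f5_add (h : H →* P) {m m' : H} (hm : m ∈ h.ker) :
    (el m - 1) + (el m' - 1) - (el (m * m') - 1) ∈ f5_J h := by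
  have h1 := AddSubgroup.neg_mem _ (f5_mem h hm (el_sub_one_mem m'))
  convert h1 using 1
  rw [el_mul]
  noncomm_ring

/-- the elements congruent to some `m - 1`, `m ∈ N` -/
private noncomputable def f5_S (h : H →* P) (N : Subgroup H) (hN : N ≤ h.ker) :
    AddSubgroup (ZG H) where
  carrier := {y | ∃ m ∈ N, y - (el m - 1) ∈ f5_J h}
  zero_mem' := ⟨1, N.one_mem, by
    rw [el_one, sub_self, sub_self]
    exact AddSubgroup.zero_mem _⟩
  add_mem' := by
    rintro y z ⟨m, hm, hy⟩ ⟨m', hm', hz⟩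
    refine ⟨m * m', N.mul_mem hm hm', ?_⟩
    have h1 := AddSubgroup.add_mem _ (AddSubgroup.add_mem _ hy hz) (f5_add h (m' := m') (hN hm))
    convert h1 using 1
    abel
  neg_mem' := by
    rintro y ⟨m, hm, hy⟩
    refine ⟨m⁻¹, N.inv_mem hm, ?_⟩
    have h1 := AddSubgroup.add_mem _ hy (f5_add h (m' := m⁻¹) (hN hm))
    have h2 := AddSubgroup.neg_mem _ h1
    convert h2 using 1
    rw [mul_inv_cancel, el_one]
    abel

private theorem f5_S_smul (h : H →* P) (N : Subgroup H) [N.Normal] (hN : N ≤ h.ker)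
    (c : ZG H) : ∀ {y : ZG H} (_ : y ∈ f5_S h N hN), c * y ∈ f5_S h N hN := by
  induction c using zg_induction with
  | h1 g =>
    rintro y ⟨m, hm, hy⟩
    refine ⟨g * m * g⁻¹, Subgroup.Normal.conj_mem inferInstance m hm g, ?_⟩
    have h1 := f5_mul_left h (el g) hy
    have h2 := f5_mem h (f5_conj h (hN hm) g) (el_sub_one_mem g)
    have h3 := AddSubgroup.add_mem _ h1 h2
    convert h3 using 1
    rw [mul_sub (el g) y, f5_el_mul]
    noncomm_ring
  | h0 => intro y _; rw [zero_mul]; exact AddSubgroup.zero_mem _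
  | hadd x y hx hy => intro j hj; rw [add_mul]; exact AddSubgroup.add_mem _ (hx hj) (hy hj)
  | hneg x hx => intro j hj; rw [neg_mul]; exact AddSubgroup.neg_mem _ (hx hj)

/-- the augmentation ideal is generated by the generators minus one -/
private theorem f5_gen {n : ℕ} (φ : FreeGroup (Fin n) →* H) (w : FreeGroup (Fin n)) :
    ∃ y : Fin n → ZG H, el (φ w) - 1 = ∑ i, y i * (el (φ (FreeGroup.of i)) - 1) := by
  induction w using FreeGroup.induction_on with
  | C1 => exact ⟨0, by simp [el_one]⟩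
  | of i =>
    refine ⟨Pi.single i 1, ?_⟩
    rw [Finset.sum_eq_single i]
    · rw [Pi.single_eq_same, one_mul]
    · intro j _ hj
      rw [Pi.single_eq_of_ne hj, zero_mul]
    · intro hi
      exact absurd (Finset.mem_univ i) hi
  | inv_of i _ =>
    refine ⟨Pi.single i (-el (φ (FreeGroup.of i))⁻¹), ?_⟩
    rw [Finset.sum_eq_single i]
    · rw [Pi.single_eq_same, map_inv, neg_mul, mul_sub, el_inv_mul, mul_one, neg_sub]
    · intro j _ hj
      rw [Pi.single_eq_of_ne hj, zero_mul]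
    · intro hi
      exact absurd (Finset.mem_univ i) hi
  | mul x y hx hy =>
    obtain ⟨a, ha⟩ := hx
    obtain ⟨c, hc⟩ := hy
    refine ⟨fun i => el (φ x) * c i + a i, ?_⟩
    have h1 : el (φ (x * y)) - 1 = el (φ x) * (el (φ y) - 1) + (el (φ x) - 1) := by
      rw [map_mul, el_mul, mul_sub, mul_one, sub_add_sub_cancel]
    rw [h1, ha, hc, Finset.mul_sum, ← Finset.sum_add_distrib]
    refine Finset.sum_congr rfl fun i _ => ?_
    rw [add_mul, mul_assoc]

theorem fp_of_abelian_ker (h : H →* P) (hh : Function.Surjective h)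
    (hH : Group.IsFinitelyPresented H) (hab : ∀ x ∈ h.ker, ∀ y ∈ h.ker, x * y = y * x)
    (hP : GFP 2 P) : Group.IsFinitelyPresented P := by
  classical
  refine Group.IsFinitelyPresented.of_surjective h hh ?_
  obtain ⟨n, φ, hφ, _⟩ := hH.out
  -- the presentation of the augmentation ideal
  let x : Fin n → H := fun i => φ (FreeGroup.of i)
  let F : (Fin n → ZG P) →ₗ[ZG P] IG P :=
    Fintype.linearCombination (ZG P) (fun i => (⟨el (h (x i)) - 1, el_sub_one_mem _⟩ : IG P))
  have hFv : ∀ y : Fin n → ZG P, ((F y : IG P) : ZG P) = ∑ i, y i * (el (h (x i)) - 1) := by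
    intro y
    show ((Fintype.linearCombination (ZG P)
      (fun i => (⟨el (h (x i)) - 1, el_sub_one_mem _⟩ : IG P)) y : IG P) : ZG P) = _
    rw [Fintype.linearCombination_apply, AddSubmonoidClass.coe_finset_sum]
    refine Finset.sum_congr rfl fun i _ => ?_
    rfl
  have hF : Function.Surjective F := by
    rintro ⟨u, hu⟩
    have h1 : ∀ v ∈ AddSubgroup.closure (Set.range fun g : P => el g - 1),
        ∃ y, ((F y : IG P) : ZG P) = v := by
      intro v hv
      induction hv using AddSubgroup.closure_induction with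
      | mem v hv =>
        obtain ⟨g, rfl⟩ := hv
        obtain ⟨g', rfl⟩ := hh g
        obtain ⟨w, rfl⟩ := hφ g'
        obtain ⟨y, hy⟩ := f5_gen φ w
        refine ⟨fun i => zmap h (y i), ?_⟩
        rw [hFv]
        have h2 := congrArg (zmap h) hy
        rw [map_sub, zmap_el, map_one, map_sum] at h2
        show _ = el (h (φ w)) - 1
        rw [h2]
        refine Finset.sum_congr rfl fun i _ => ?_
        rw [map_mul, map_sub, zmap_el, map_one]
      | zero => exact ⟨0, by rw [map_zero]; rfl⟩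
      | add a c _ _ ha hc =>
        obtain ⟨y, hy⟩ := ha
        obtain ⟨z, hz⟩ := hc
        exact ⟨y + z, by rw [map_add, Submodule.coe_add, hy, hz]⟩
      | neg a _ ha =>
        obtain ⟨y, hy⟩ := ha
        exact ⟨-y, by rw [map_neg, Submodule.coe_neg, hy]⟩
    obtain ⟨y, hy⟩ := h1 u (IG_le_closure hu)
    exact ⟨y, Subtype.ext hy⟩
  have hker : Module.Finite (ZG P) (LinearMap.ker F) :=
    FP.ker 0 F hF (FP.free 0 n) ((GFP_succ_iff 1).1 hP)
  obtain ⟨s, g, hg⟩ := Module.Finite.exists_fin' (ZG P) (LinearMap.ker F)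
  let z : Fin s → (Fin n → ZG P) := fun l => (g (Pi.single l 1)).1
  have hz0 : ∀ l, ∑ i, z l i * (el (h (x i)) - 1) = 0 := by
    intro l
    rw [← hFv, LinearMap.mem_ker.1 (g (Pi.single l 1)).2]
    rfl
  choose z' hz' using fun (l : Fin s) (i : Fin n) => zmap_surjective h hh (z l i)
  let u : Fin s → ZG H := fun l => ∑ i, z' l i * (el (x i) - 1)
  have hu : ∀ l, zmap h (u l) = 0 := by
    intro l
    show zmap h (∑ i, z' l i * (el (x i) - 1)) = 0
    rw [map_sum, ← hz0 l]
    refine Finset.sum_congr rfl fun i _ => ?_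
    rw [map_mul, map_sub, zmap_el, map_one, hz']
  choose m hm hmu using fun l => exists_ker_of_zmap h (u l) (hu l)
  refine ⟨Set.range m, Set.finite_range m, le_antisymm ?_ ?_⟩
  · refine Subgroup.normalClosure_le_normal ?_
    rintro _ ⟨l, rfl⟩
    exact hm l
  · intro k hk
    let N : Subgroup H := Subgroup.normalClosure (Set.range m)
    have hN : N ≤ h.ker := by
      refine Subgroup.normalClosure_le_normal ?_
      rintro _ ⟨l, rfl⟩
      exact hm l
    have hJS : ∀ {j : ZG H}, j ∈ f5_J h → j ∈ f5_S h N hN := fun {j} hj => ⟨1, N.one_mem, by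
      rw [el_one, sub_self, sub_zero]
      exact hj⟩
    have huS : ∀ l, u l ∈ f5_S h N hN := fun l =>
      ⟨m l, Subgroup.subset_normalClosure ⟨l, rfl⟩, hmu l⟩
    obtain ⟨w, hw⟩ := hφ k
    obtain ⟨y, hy⟩ := f5_gen φ w
    rw [hw] at hy
    have hy' : (fun i => zmap h (y i)) ∈ LinearMap.ker F := by
      rw [LinearMap.mem_ker]
      apply Subtype.ext
      rw [hFv]
      have h2 := congrArg (zmap h) hy
      rw [map_sub, zmap_el, map_one, map_sum, MonoidHom.mem_ker.1 hk, el_one, sub_self] at h2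
      show _ = (0 : ZG P)
      rw [h2]
      refine Finset.sum_congr rfl fun i _ => ?_
      rw [map_mul, map_sub, zmap_el, map_one]
    obtain ⟨a', ha'⟩ := hg ⟨_, hy'⟩
    choose a ha using fun l => zmap_surjective h hh (a' l)
    have hcomb : ∀ i, zmap h (y i) = ∑ l, a' l * z l i := by
      intro i
      have h3 : g a' = ∑ l, a' l • g (Pi.single l 1) := by
        conv_lhs => rw [pi_eq_sum_univ' a']
        rw [map_sum]
        refine Finset.sum_congr rfl fun l _ => ?_
        rw [← g.map_smul]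
      have h4 := congrArg (fun v : LinearMap.ker F => v.1 i) ha'
      have h5 : (g a').1 i = ∑ l, a' l * z l i := by
        rw [h3, AddSubmonoidClass.coe_finset_sum, Finset.sum_apply]
        refine Finset.sum_congr rfl fun l _ => ?_
        rfl
      rw [← h5]
      exact h4.symm
    let δ : Fin n → ZG H := fun i => y i - ∑ l, a l * z' l i
    have hδ : ∀ i, zmap h (δ i) = 0 := by
      intro i
      show zmap h (y i - ∑ l, a l * z' l i) = 0
      rw [map_sub, map_sum, hcomb, sub_eq_zero]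
      refine Finset.sum_congr rfl fun l _ => ?_
      rw [map_mul, ha, hz']
    have hδJ : ∀ i, δ i * (el (x i) - 1) ∈ f5_J h := by
      intro i
      obtain ⟨c, hc, hcJ⟩ := exists_ker_of_zmap h (δ i) (hδ i)
      have h6 := AddSubgroup.add_mem _ (f5_mul_right h hcJ (el (x i) - 1))
        (f5_mem h hc (el_sub_one_mem (x i)))
      rw [← add_mul, sub_add_cancel] at h6
      exact h6
    have hdec : el k - 1 = ∑ l, a l * u l + ∑ i, δ i * (el (x i) - 1) := by
      rw [hy]
      have h7 : ∑ l, a l * u l = ∑ i, (∑ l, a l * z' l i) * (el (x i) - 1) := by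
        have h8 : ∀ l, a l * u l = ∑ i, a l * z' l i * (el (x i) - 1) := by
          intro l
          show a l * (∑ i, z' l i * (el (x i) - 1)) = _
          rw [Finset.mul_sum]
          refine Finset.sum_congr rfl fun i _ => ?_
          rw [mul_assoc]
        rw [Finset.sum_congr rfl fun l _ => h8 l, Finset.sum_comm]
        refine Finset.sum_congr rfl fun i _ => ?_
        rw [Finset.sum_mul]
      rw [h7, ← Finset.sum_add_distrib]
      refine Finset.sum_congr rfl fun i _ => ?_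
      rw [← add_mul]
      show y i * (el (x i) - 1) = _
      congr 1
      show y i = ∑ l, a l * z' l i + (y i - ∑ l, a l * z' l i)
      rw [add_sub_cancel]
    have hkS : el k - 1 ∈ f5_S h N hN := by
      rw [hdec]
      refine AddSubgroup.add_mem _ (AddSubgroup.sum_mem _ fun l _ => ?_)
        (AddSubgroup.sum_mem _ fun i _ => hJS (hδJ i))
      exact f5_S_smul h N hN (a l) (huS l)
    obtain ⟨k', hk', hkk⟩ := hkS
    rw [sub_sub_sub_cancel_right] at hkk
    have h9 : el (k'⁻¹ * k) - 1 ∈ f5_J h := by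
      have h10 := f5_mul_left h (el k'⁻¹) hkk
      rw [mul_sub, el_inv_mul, ← el_mul] at h10
      exact h10
    have h11 : k'⁻¹ * k = 1 := eq_one_of_mem h hab _
      (h.ker.mul_mem (h.ker.inv_mem (hN hk')) hk) h9
    have h12 : k = k' := by
      rw [inv_mul_eq_one] at h11
      exact h11.symm
    rw [h12]
    exact hk'
-- END F5

/-- finite presentability of fibre products -/
theorem fp_thm (p₁ : P →* Γ₁) (p₂ : P →* Γ₂) (h₁ : Function.Surjective p₁)
    (h₂ : Function.Surjective p₂) (hinj : p₁.ker ⊓ p₂.ker = ⊥) (hA : Group.FG p₂.ker)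
    (hΓ₁ : Group.IsFinitelyPresented Γ₁) (hΓ₂ : Group.IsFinitelyPresented Γ₂)
    (hP : GFP 2 P) : Group.IsFinitelyPresented P := by
  obtain ⟨H, _, h, hH, hh, hab⟩ := cover_commuting p₁ p₂ h₁ h₂ hinj hA hΓ₁ hΓ₂
  exact fp_of_abelian_ker h hh hH hab hP

-- BEGIN F6
theorem f6_factor {P Γ Q : Type} [Group P] [Group Γ] [Group Q] (p : P →* Γ) (q : P →* Q)
    (hp : Function.Surjective p) (hk : p.ker ≤ q.ker) : ∃ θ : Γ →* Q, ∀ x, θ (p x) = q x :=
  ⟨p.liftOfSurjective hp ⟨q, hk⟩, fun x => MonoidHom.liftOfRightInverse_comp_apply p _ _ _ x⟩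

theorem f6_conj {H : Type} [Group H] {n : ℕ} (μ : FreeGroup (Fin n) →* H) (z : H)
    (h : ∀ i, z * μ (FreeGroup.of i) * z⁻¹ ∈ μ.range) (x : H) (hx : x ∈ μ.range) :
    z * x * z⁻¹ ∈ μ.range := by
  obtain ⟨w, rfl⟩ := hx
  have h1 : (μ.range.comap ((MulAut.conj z).toMonoidHom.comp μ)) = ⊤ := by
    rw [eq_top_iff, ← FreeGroup.closure_range_of, Subgroup.closure_le]
    rintro _ ⟨i, rfl⟩
    exact h i
  have h2 : w ∈ (μ.range.comap ((MulAut.conj z).toMonoidHom.comp μ)) := by
    rw [h1]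
    trivial
  exact h2

/-- extensions of finitely presented groups -/
theorem fp_extension (π : G →* Q) (hπ : Function.Surjective π)
    (hA : Group.IsFinitelyPresented π.ker) (hQ : Group.IsFinitelyPresented Q) :
    Group.IsFinitelyPresented G := by
  classical
  obtain ⟨n, α, hα, S, hS, hSk⟩ := hA.out
  obtain ⟨m, ψ, hψ, R, hR, hRk⟩ := hQ.out
  choose g hg using fun j : Fin m => hπ (ψ (FreeGroup.of j))
  let Θ : FreeGroup (Fin n ⊕ Fin m) →* G :=
    FreeGroup.lift (Sum.elim (fun i => (α (FreeGroup.of i) : G)) g)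
  let ιx : FreeGroup (Fin n) →* FreeGroup (Fin n ⊕ Fin m) := FreeGroup.map Sum.inl
  let ιy : FreeGroup (Fin m) →* FreeGroup (Fin n ⊕ Fin m) := FreeGroup.map Sum.inr
  have hx : ∀ w, Θ (ιx w) = (α w : G) := by
    intro w
    have h1 : Θ.comp ιx = (π.ker.subtype).comp α := by
      ext i
      simp [Θ, ιx]
    exact DFunLike.congr_fun h1 w
  have hy : ∀ w, π (Θ (ιy w)) = ψ w := by
    intro w
    have h1 : (π.comp Θ).comp ιy = ψ := by
      ext i
      simp [Θ, ιy, hg]
    exact DFunLike.congr_fun h1 w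
  have hu : ∀ r, ∃ w, r ∈ ψ.ker → (α w : G) = Θ (ιy r) := by
    intro r
    by_cases hr : r ∈ ψ.ker
    · obtain ⟨w, hw⟩ := hα ⟨Θ (ιy r), by rw [MonoidHom.mem_ker, hy]; exact hr⟩
      exact ⟨w, fun _ => congrArg Subtype.val hw⟩
    · exact ⟨1, fun h => absurd h hr⟩
  have hv : ∀ (z : G) (i : Fin n), ∃ w, (α w : G) = z * (α (FreeGroup.of i) : G) * z⁻¹ := by
    intro z i
    obtain ⟨w, hw⟩ := hα ⟨z * (α (FreeGroup.of i) : G) * z⁻¹,
      (MonoidHom.normal_ker π).conj_mem _ (α (FreeGroup.of i)).2 z⟩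
    exact ⟨w, congrArg Subtype.val hw⟩
  choose u hu using hu
  choose v hv using hv
  let X : Set (FreeGroup (Fin n ⊕ Fin m)) := (ιx '' S) ∪ ((fun r => ιy r * (ιx (u r))⁻¹) '' R) ∪
    (Set.range fun p : Fin m × Fin n => ιy (FreeGroup.of p.1) * ιx (FreeGroup.of p.2) *
      (ιy (FreeGroup.of p.1))⁻¹ * (ιx (v (g p.1) p.2))⁻¹) ∪
    (Set.range fun p : Fin m × Fin n => (ιy (FreeGroup.of p.1))⁻¹ * ιx (FreeGroup.of p.2) *
      ιy (FreeGroup.of p.1) * (ιx (v (g p.1)⁻¹ p.2))⁻¹)
  have hX : X.Finite := (((hS.image _).union (hR.image _)).union (Set.finite_range _)).union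
    (Set.finite_range _)
  obtain ⟨N, hNdef⟩ : ∃ N : Subgroup (FreeGroup (Fin n ⊕ Fin m)), N = Subgroup.normalClosure X :=
    ⟨_, rfl⟩
  have hNn : N.Normal := by rw [hNdef]; infer_instance
  have hXN : ∀ x ∈ X, x ∈ N := by
    intro x hx
    rw [hNdef]
    exact Subgroup.subset_normalClosure hx
  have hfp : Group.IsFinitelyPresented (FreeGroup (Fin n ⊕ Fin m) ⧸ N) :=
    Group.IsFinitelyPresented.quotient N ⟨X, hX, hNdef.symm⟩
  have hgy : ∀ j, Θ (ιy (FreeGroup.of j)) = g j := by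
    intro j
    simp [Θ, ιy]
  have hNk : N ≤ Θ.ker := by
    rw [hNdef]
    apply Subgroup.normalClosure_le_normal
    rintro x (((⟨s, hs, rfl⟩ | ⟨r, hr, rfl⟩) | ⟨p, rfl⟩) | ⟨p, rfl⟩)
    · change Θ (ιx s) = 1
      rw [hx]
      have h1 : s ∈ Subgroup.normalClosure S := Subgroup.subset_normalClosure hs
      rw [hSk, MonoidHom.mem_ker] at h1
      rw [h1]
      rfl
    · change Θ (ιy r * (ιx (u r))⁻¹) = 1
      have h1 : r ∈ Subgroup.normalClosure R := Subgroup.subset_normalClosure hr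
      rw [hRk] at h1
      rw [map_mul, map_inv, hx, hu r h1, mul_inv_cancel]
    · change Θ _ = 1
      simp only [map_mul, map_inv, hx, hgy, hv]
      group
    · change Θ _ = 1
      simp only [map_mul, map_inv, hx, hgy, hv]
      group
  let mk : FreeGroup (Fin n ⊕ Fin m) →* (FreeGroup (Fin n ⊕ Fin m) ⧸ N) := QuotientGroup.mk' N
  have hmk : ∀ x, x ∈ N → mk x = 1 := by
    intro x hx
    rw [← MonoidHom.mem_ker, QuotientGroup.ker_mk']
    exact hx
  let Θ' : (FreeGroup (Fin n ⊕ Fin m) ⧸ N) →* G := QuotientGroup.lift N Θ hNk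
  have hΘ' : ∀ x, Θ' (mk x) = Θ x := fun x => rfl
  let μ : FreeGroup (Fin n) →* (FreeGroup (Fin n ⊕ Fin m) ⧸ N) := mk.comp ιx
  obtain ⟨β, hβ⟩ := f6_factor α μ hα (by
    rw [← hSk]
    apply Subgroup.normalClosure_le_normal
    intro s hs
    exact hmk _ (hXN _ (Or.inl (Or.inl (Or.inl ⟨s, hs, rfl⟩)))))
  have hnorm : μ.range.Normal := by
    rw [← Subgroup.normalizer_eq_top_iff, eq_top_iff]
    intro z _
    obtain ⟨z, rfl⟩ := QuotientGroup.mk'_surjective N z
    have h0 : ((Subgroup.normalizer (μ.range : Set (FreeGroup (Fin n ⊕ Fin m) ⧸ N))).comap mk) = ⊤ := by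
      rw [eq_top_iff, ← FreeGroup.closure_range_of, Subgroup.closure_le]
      rintro _ ⟨i | j, rfl⟩
      · have h1 : mk (FreeGroup.of (Sum.inl i)) ∈ μ.range := ⟨FreeGroup.of i, by simp [μ, ιx]⟩
        exact Subgroup.le_normalizer h1
      · have e : mk (FreeGroup.of (Sum.inr j)) = mk (ιy (FreeGroup.of j)) := by simp [ιy]
        change mk (FreeGroup.of (Sum.inr j)) ∈ Subgroup.normalizer (μ.range : Set (FreeGroup (Fin n ⊕ Fin m) ⧸ N))
        rw [e, Subgroup.mem_normalizer_iff]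
        have c1 : ∀ i, mk (ιy (FreeGroup.of j)) * μ (FreeGroup.of i) *
            (mk (ιy (FreeGroup.of j)))⁻¹ ∈ μ.range := by
          intro i
          have h2 := hmk _ (hXN _ (Or.inl (Or.inr ⟨(j, i), rfl⟩)))
          simp only [map_mul, map_inv] at h2
          rw [mul_inv_eq_one] at h2
          exact ⟨v (g j) i, h2.symm⟩
        have c2 : ∀ i, (mk (ιy (FreeGroup.of j)))⁻¹ * μ (FreeGroup.of i) *
            ((mk (ιy (FreeGroup.of j)))⁻¹)⁻¹ ∈ μ.range := by
          intro i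
          have h2 := hmk _ (hXN _ (Or.inr ⟨(j, i), rfl⟩))
          simp only [map_mul, map_inv] at h2
          rw [mul_inv_eq_one] at h2
          rw [inv_inv]
          exact ⟨v (g j)⁻¹ i, h2.symm⟩
        intro x
        constructor
        · exact f6_conj μ _ c1 x
        · intro hx'
          have h3 := f6_conj μ _ c2 _ hx'
          have h4 : (mk (ιy (FreeGroup.of j)))⁻¹ * (mk (ιy (FreeGroup.of j)) * x *
              (mk (ιy (FreeGroup.of j)))⁻¹) * ((mk (ιy (FreeGroup.of j)))⁻¹)⁻¹ = x := by group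
          rwa [h4] at h3
    have h1 : z ∈ ((Subgroup.normalizer (μ.range : Set (FreeGroup (Fin n ⊕ Fin m) ⧸ N))).comap mk) := by rw [h0]; trivial
    exact h1
  let mk2 : (FreeGroup (Fin n ⊕ Fin m) ⧸ N) →* ((FreeGroup (Fin n ⊕ Fin m) ⧸ N) ⧸ μ.range) :=
    QuotientGroup.mk' μ.range
  have hmk2 : ∀ x, x ∈ μ.range → mk2 x = 1 := by
    intro x hx
    rw [← MonoidHom.mem_ker, QuotientGroup.ker_mk']
    exact hx
  obtain ⟨γ, hγ⟩ := f6_factor ψ ((mk2.comp mk).comp ιy) hψ (by
    rw [← hRk]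
    apply Subgroup.normalClosure_le_normal
    intro r hr
    change mk2 (mk (ιy r)) = 1
    apply hmk2
    have h2 := hmk _ (hXN _ (Or.inl (Or.inl (Or.inr ⟨r, hr, rfl⟩))))
    simp only [map_mul, map_inv] at h2
    rw [mul_inv_eq_one] at h2
    exact ⟨u r, h2.symm⟩)
  have hγπ : (γ.comp (π.comp Θ)) = mk2.comp mk := by
    ext i
    rcases i with i | j
    · have h1 : π (Θ (FreeGroup.of (Sum.inl i))) = 1 := by
        have : Θ (FreeGroup.of (Sum.inl i)) = (α (FreeGroup.of i) : G) := by simp [Θ]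
        rw [this]
        exact (α (FreeGroup.of i)).2
      have h2 : mk2 (mk (FreeGroup.of (Sum.inl i))) = 1 := hmk2 _ ⟨FreeGroup.of i, by simp [μ, ιx]⟩
      rw [MonoidHom.comp_apply, MonoidHom.comp_apply, MonoidHom.comp_apply, h1, h2, map_one]
    · have h1 : Θ (FreeGroup.of (Sum.inr j)) = g j := by simp [Θ]
      have h2 := hγ (FreeGroup.of j)
      rw [MonoidHom.comp_apply, MonoidHom.comp_apply, h1, hg, h2]
      simp [ιy]
  have hinj : Function.Injective Θ' := by
    rw [injective_iff_map_eq_one]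
    intro h hh
    obtain ⟨f, rfl⟩ := QuotientGroup.mk'_surjective N h
    have hh' : Θ f = 1 := hh
    have h1 : mk2 (mk f) = 1 := by
      have h2 := DFunLike.congr_fun hγπ f
      simp only [MonoidHom.comp_apply] at h2
      rw [← h2, hh', map_one, map_one]
    rw [← MonoidHom.mem_ker, QuotientGroup.ker_mk'] at h1
    obtain ⟨w, hw⟩ := h1
    have h3 : mk f = 1 := by
      rw [← hw, ← hβ]
      have h4 : α w = 1 := by
        apply Subtype.ext
        rw [← hx w]
        have h5 : Θ' (mk (ιx w)) = Θ' (mk f) := congrArg Θ' hw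
        rw [hΘ', hΘ', hh'] at h5
        exact h5
      rw [h4, map_one]
    exact h3
  have hsurj : Function.Surjective Θ' := by
    intro x
    obtain ⟨w, hw⟩ := hψ (π x)
    obtain ⟨w', hw'⟩ := hα ⟨x * (Θ (ιy w))⁻¹, by
      rw [MonoidHom.mem_ker, map_mul, map_inv, hy, hw, mul_inv_cancel]⟩
    refine ⟨mk (ιx w' * ιy w), ?_⟩
    rw [hΘ', map_mul, hx, hw']
    change x * (Θ (ιy w))⁻¹ * Θ (ιy w) = x
    group
  exact Group.IsFinitelyPresented.equiv (MulEquiv.ofBijective Θ' ⟨hinj, hsurj⟩)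
-- END F6

end

end Pool.Agent.Lib.MP_d943a5_al
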