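import Pool.Agent.Lib.MP_d943a5_al.Ind

/-!
# Subgroups of finite index of finitely presented groups
-/

set_option autoImplicit false

namespace Pool.Agent.Lib.MP_d943a5_al

/-- a free group with a finite generating set has a finite basis -/
theorem finite_of_fg_freeGroup {X : Type} (h : Group.FG (FreeGroup X)) : Finite X := by
  classical
  obtain ⟨T, hT⟩ := h
  let Y : Finset X := T.biUnion fun t => (t.toWord.map Prod.fst).toFinset
  have hY : ∀ z : X, z ∈ Y := by
    intro z
    by_contra hz
    let f : X → Multiplicative ℤ := fun x => if x = z then Multiplicative.ofAdd 1 else 1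
    have h1 : ∀ t ∈ T, FreeGroup.lift f t = 1 := by
      intro t ht
      rw [← FreeGroup.mk_toWord (x := t), FreeGroup.lift_mk]
      refine List.prod_eq_one fun y hy => ?_
      obtain ⟨w, hw, rfl⟩ := List.mem_map.1 hy
      have hwz : w.1 ≠ z := by
        intro hc
        refine hz (Finset.mem_biUnion.2 ⟨t, ht, ?_⟩)
        rw [List.mem_toFinset, List.mem_map]
        exact ⟨w, hw, hc⟩
      have : f w.1 = 1 := if_neg hwz
      cases hb : w.2 <;> simp [this]
    have h2 : (⊤ : Subgroup (FreeGroup X)) ≤ (FreeGroup.lift f).ker := by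
      rw [← hT, Subgroup.closure_le]
      intro t ht
      exact h1 t ht
    have h3 : FreeGroup.lift f (FreeGroup.of z) = 1 := h2 (Subgroup.mem_top _)
    rw [FreeGroup.lift_apply_of] at h3
    have h4 : f z = Multiplicative.ofAdd 1 := if_pos rfl
    rw [h4] at h3
    exact one_ne_zero (Multiplicative.ofAdd.injective h3)
  exact Finite.of_injective (fun x => (⟨x, hY x⟩ : Y)) fun a b hab => congrArg Subtype.val hab

/-- subgroups of finite index of free groups of finite rank are finitely presented -/
theorem fp_finiteIndex_free {n : ℕ} (H : Subgroup (FreeGroup (Fin n))) [H.FiniteIndex] :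
    Group.IsFinitelyPresented H := by
  have h1 : Group.FG H := inferInstance
  have h2 : Group.FG (FreeGroup (IsFreeGroup.Generators H)) := by
    refine Group.fg_of_surjective (f := (IsFreeGroup.toFreeGroup H).toMonoidHom)
      (IsFreeGroup.toFreeGroup H).surjective
  have h3 : Finite (IsFreeGroup.Generators H) := finite_of_fg_freeGroup h2
  exact Group.IsFinitelyPresented.equiv (IsFreeGroup.toFreeGroup H).symm

/-- subgroups of finite index of finitely presented groups are finitely presented -/
theorem fp_finiteIndex {G : Type} [Group G] (H : Subgroup G) [H.FiniteIndex]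
    (h : Group.IsFinitelyPresented G) : Group.IsFinitelyPresented H := by
  classical
  obtain ⟨n, φ, hφ, S, hS, hSφ⟩ := h
  have hfin : (H.comap φ).FiniteIndex := by
    refine ⟨?_⟩
    rw [Subgroup.index_comap_of_surjective _ hφ]
    exact Subgroup.FiniteIndex.index_ne_zero
  have hfp : Group.IsFinitelyPresented (H.comap φ) := fp_finiteIndex_free _
  refine Group.IsFinitelyPresented.of_surjective (φ.subgroupComap H) ?_ ?_
  · intro y
    obtain ⟨x, hx⟩ := hφ y.1
    refine ⟨⟨x, ?_⟩, Subtype.ext hx⟩
    rw [Subgroup.mem_comap, hx]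
    exact y.2
  · have hker : φ.ker ≤ H.comap φ := by
      intro x hx
      rw [Subgroup.mem_comap, MonoidHom.mem_ker.1 hx]
      exact H.one_mem
    let T : Set (FreeGroup (Fin n)) :=
      Set.range fun q : FreeGroup (Fin n) ⧸ (H.comap φ) => (q.out)⁻¹
    have hT : T.Finite := Set.finite_range _
    let U : Set (FreeGroup (Fin n)) := Set.image2 (fun t s => t * s * t⁻¹) T S
    have hU : U.Finite := hT.image2 _ hS
    have hUk : ∀ u ∈ U, u ∈ φ.ker := by
      rintro _ ⟨t, -, s, hs, rfl⟩
      refine (MonoidHom.normal_ker φ).conj_mem s ?_ t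
      rw [← hSφ]
      exact Subgroup.subset_normalClosure hs
    refine ⟨Subtype.val ⁻¹' U, hU.preimage Subtype.val_injective.injOn, ?_⟩
    apply le_antisymm
    · refine Subgroup.normalClosure_le_normal ?_
      intro x hx
      have h1 := hUk _ hx
      exact Subtype.ext h1
    · intro x hx
      have hx1 : (x : FreeGroup (Fin n)) ∈ φ.ker := congrArg Subtype.val hx
      have h1 : Subgroup.normalClosure S ≤
          (Subgroup.normalClosure (Subtype.val ⁻¹' U : Set (H.comap φ))).map
            (H.comap φ).subtype := by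
        rw [Subgroup.normalClosure, Subgroup.closure_le]
        intro y hy
        obtain ⟨s, hs, hsy⟩ := Group.mem_conjugatesOfSet_iff.1 hy
        obtain ⟨f, rfl⟩ := isConj_iff.1 hsy
        -- write `f = h * t`
        have h2 : ((f⁻¹ : FreeGroup (Fin n)) : FreeGroup (Fin n) ⧸ (H.comap φ)).out⁻¹ *
            f⁻¹ ∈ H.comap φ := by
          rw [← QuotientGroup.eq]
          exact QuotientGroup.out_eq' _
        set t := ((f⁻¹ : FreeGroup (Fin n)) : FreeGroup (Fin n) ⧸ (H.comap φ)).out⁻¹ with ht
        have h3 : f * t⁻¹ ∈ H.comap φ := by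
          have := (H.comap φ).inv_mem h2
          simpa using this
        have h4 : t * s * t⁻¹ ∈ U := ⟨t, ⟨_, rfl⟩, s, hs, rfl⟩
        have h5 : t * s * t⁻¹ ∈ H.comap φ := hker (hUk _ h4)
        refine ⟨⟨f * t⁻¹, h3⟩ * ⟨t * s * t⁻¹, h5⟩ * ⟨f * t⁻¹, h3⟩⁻¹, ?_, ?_⟩
        · exact (Subgroup.normalClosure_normal).conj_mem _
            (Subgroup.subset_normalClosure (show (⟨t * s * t⁻¹, h5⟩ : H.comap φ) ∈
              (Subtype.val ⁻¹' U : Set (H.comap φ)) from h4)) _
        · simp only [map_mul, map_inv, Subgroup.coe_subtype]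
          group
      rw [← hSφ] at hx1
      obtain ⟨z, hz, hzx⟩ := h1 hx1
      have : z = x := Subtype.ext hzx
      rw [← this]
      exact hz

end Pool.Agent.Lib.MP_d943a5_al
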