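import Pool.Agent.Lib.MP_d943a5_al.Res

/-!
# Integral group rings, augmentation, groups of type `FP_n`
-/

set_option autoImplicit false

namespace Pool.Agent.Lib.MP_d943a5_al

/-- the integral group ring -/
abbrev ZG (G : Type) : Type := MonoidAlgebra ℤ G

section

variable {G H L : Type} [Group G] [Group H] [Group L]

/-- the group element `g` in the group ring -/
noncomputable def el (g : G) : ZG G := MonoidAlgebra.of ℤ G g

theorem el_def (g : G) : el g = MonoidAlgebra.of ℤ G g := rfl

theorem el_one : el (1 : G) = 1 := map_one (MonoidAlgebra.of ℤ G)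

theorem el_mul (g h : G) : el (g * h) = el g * el h := map_mul (MonoidAlgebra.of ℤ G) g h

theorem el_mul_inv (g : G) : el g * el g⁻¹ = 1 := by rw [← el_mul, mul_inv_cancel, el_one]

theorem el_inv_mul (g : G) : el g⁻¹ * el g = 1 := by rw [← el_mul, inv_mul_cancel, el_one]

/-- induction on elements of the group ring -/
theorem zg_induction {p : ZG G → Prop} (h1 : ∀ g : G, p (el g)) (h0 : p 0)
    (hadd : ∀ x y, p x → p y → p (x + y)) (hneg : ∀ x, p x → p (-x)) (x : ZG G) : p x := by
  have hnat : ∀ (g : G) (n : ℕ), p (MonoidAlgebra.single g (n : ℤ)) := by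
    intro g n
    induction n with
    | zero => simpa using h0
    | succ n ih =>
      have e : (MonoidAlgebra.single g ((n + 1 : ℕ) : ℤ) : ZG G) =
          MonoidAlgebra.single g (n : ℤ) + el g := by
        rw [el_def, MonoidAlgebra.of_apply, ← MonoidAlgebra.single_add]
        push_cast
        rfl
      rw [e]
      exact hadd _ _ ih (h1 g)
  induction x using MonoidAlgebra.induction_linear with
  | zero => exact h0
  | add x y hx hy => exact hadd x y hx hy
  | single g n =>
    obtain ⟨m, rfl | rfl⟩ := n.eq_nat_or_neg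
    · exact hnat g m
    · have e : (MonoidAlgebra.single g (-(m : ℤ)) : ZG G) = -MonoidAlgebra.single g (m : ℤ) := by
        rw [eq_neg_iff_add_eq_zero, ← MonoidAlgebra.single_add]
        simp
      rw [e]
      exact hneg _ (hnat g m)

/-- additive maps on the group ring agree if they agree on the group -/
theorem zg_hom_ext {A : Type} [AddCommGroup A] {f f' : ZG G →+ A}
    (h : ∀ g : G, f (el g) = f' (el g)) (x : ZG G) : f x = f' x := by
  induction x using zg_induction with
  | h1 g => exact h g
  | h0 => rw [map_zero, map_zero]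
  | hadd x y hx hy => rw [map_add, map_add, hx, hy]
  | hneg x hx => rw [map_neg, map_neg, hx]

/-- the additive extension of a function on the group -/
theorem exists_zg_hom {A : Type} [AddCommGroup A] (d : G → A) :
    ∃ f : ZG G →+ A, ∀ g, f (el g) = d g := by
  refine ⟨(Finsupp.liftAddHom (fun g => (AddMonoidHom.mk' (fun n : ℤ => n • d g)
    (fun a b => add_smul a b (d g))))).comp MonoidAlgebra.coeffAddEquiv.toAddMonoidHom, ?_⟩
  intro g
  simp [el_def]

/-- the augmentation -/
noncomputable def aug (G : Type) [Group G] : ZG G →+* ℤ :=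
  ((MonoidAlgebra.lift ℤ ℤ G (1 : G →* ℤ) : ZG G →ₐ[ℤ] ℤ) : ZG G →+* ℤ)

@[simp] theorem aug_el (g : G) : aug G (el g) = 1 := by
  simp [aug, el_def]

/-- the map of group rings induced by a homomorphism -/
noncomputable def zmap (φ : G →* H) : ZG G →+* ZG H := MonoidAlgebra.mapDomainRingHom ℤ φ

@[simp] theorem zmap_el (φ : G →* H) (g : G) : zmap φ (el g) = el (φ g) := by
  simp [zmap, el_def]

theorem zmap_surjective (φ : G →* H) (hφ : Function.Surjective φ) :
    Function.Surjective (zmap φ) := by
  intro y
  induction y using zg_induction with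
  | h1 g =>
    obtain ⟨x, hx⟩ := hφ g
    exact ⟨el x, by rw [zmap_el, hx]⟩
  | h0 => exact ⟨0, map_zero _⟩
  | hadd x y hx hy =>
    obtain ⟨a, rfl⟩ := hx
    obtain ⟨b, rfl⟩ := hy
    exact ⟨a + b, map_add _ _ _⟩
  | hneg x hx =>
    obtain ⟨a, rfl⟩ := hx
    exact ⟨-a, map_neg _ _⟩

theorem zmap_comp (ψ : H →* L) (φ : G →* H) (x : ZG G) : zmap ψ (zmap φ x) =
    zmap (ψ.comp φ) x := by
  induction x using zg_induction with
  | h1 g => simp
  | h0 => simp
  | hadd x y hx hy => rw [map_add, map_add, map_add, hx, hy]
  | hneg x hx => rw [map_neg, map_neg, map_neg, hx]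

theorem zmap_comp' (ψ : H →* L) (φ : G →* H) : (zmap ψ).comp (zmap φ) = zmap (ψ.comp φ) :=
  RingHom.ext fun x => zmap_comp ψ φ x

theorem zmap_id (x : ZG G) : zmap (MonoidHom.id G) x = x := by
  induction x using zg_induction with
  | h1 g => simp
  | h0 => simp
  | hadd x y hx hy => rw [map_add, hx, hy]
  | hneg x hx => rw [map_neg, hx]

theorem aug_zmap (φ : G →* H) (x : ZG G) : aug H (zmap φ x) = aug G x := by
  induction x using zg_induction with
  | h1 g => simp
  | h0 => simp
  | hadd x y hx hy => rw [map_add, map_add, map_add, hx, hy]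
  | hneg x hx => rw [map_neg, map_neg, map_neg, hx]

theorem aug_comp_zmap (φ : G →* H) : (aug H).comp (zmap φ) = aug G :=
  RingHom.ext fun x => aug_zmap φ x

/-- the trivial module `ℤ` -/
abbrev Triv (G : Type) [Group G] : Type := Res (aug G) ℤ

/-- a group is of type `FP n` if the trivial module `ℤ` is -/
def GFP (n : ℕ) (G : Type) [Group G] : Prop := FP (ZG G) n (Triv G)

/-- the augmentation as a linear map onto the trivial module -/
noncomputable def augL (G : Type) [Group G] : ZG G →ₗ[ZG G] Triv G where
  toFun x := (show Triv G from aug G x)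
  map_add' x y := (aug G).map_add x y
  map_smul' a x := (aug G).map_mul a x

theorem augL_surjective : Function.Surjective (augL G) := by
  intro n
  refine ⟨(show ℤ from n) • (1 : ZG G), ?_⟩
  have h : aug G ((show ℤ from n) • (1 : ZG G)) = (show ℤ from n) := by
    rw [map_zsmul, map_one, smul_eq_mul, mul_one]
  exact h

/-- the augmentation ideal -/
noncomputable def IG (G : Type) [Group G] : Submodule (ZG G) (ZG G) := LinearMap.ker (augL G)

theorem mem_IG {x : ZG G} : x ∈ IG G ↔ aug G x = 0 := Iff.rfl

theorem el_sub_one_mem (g : G) : el g - 1 ∈ IG G := by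
  rw [mem_IG, map_sub, aug_el, map_one, sub_self]

/-- `x - ε(x)` is a combination of the elements `g - 1` -/
theorem sub_aug_mem_closure (x : ZG G) :
    x - (aug G x) • (1 : ZG G) ∈ AddSubgroup.closure (Set.range fun g : G => el g - 1) := by
  induction x using zg_induction with
  | h1 g =>
    rw [aug_el, one_smul]
    exact AddSubgroup.subset_closure ⟨g, rfl⟩
  | h0 => simp
  | hadd x y hx hy =>
    rw [map_add, add_smul]
    have := AddSubgroup.add_mem _ hx hy
    convert this using 1
    abel
  | hneg x hx =>
    rw [map_neg, neg_smul]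
    have := AddSubgroup.neg_mem _ hx
    convert this using 1
    abel

theorem IG_le_closure {x : ZG G} (hx : x ∈ IG G) :
    x ∈ AddSubgroup.closure (Set.range fun g : G => el g - 1) := by
  have h := sub_aug_mem_closure x
  rw [mem_IG.1 hx, zero_smul, sub_zero] at h
  exact h

/-- one dimensional free module -/
noncomputable def oneEquiv (R : Type) [Ring R] : (Fin 1 → R) ≃ₗ[R] R :=
  LinearEquiv.funUnique (Fin 1) R R

theorem FP.ring (R : Type) [Ring R] (n : ℕ) : FP R n R := FP.equiv (oneEquiv R) (FP.free n 1)

theorem GFP_succ_iff (n : ℕ) : GFP (n + 1) G ↔ FP (ZG G) n (IG G) := by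
  constructor
  · intro h
    exact FP.ker n (augL G) augL_surjective (FP.ring _ n) h
  · intro h
    exact FP.quot n (augL G) augL_surjective (FP.ring _ (n + 1)) h

theorem GFP_zero : GFP 0 G := FP.quot_zero (augL G) augL_surjective (FP.ring _ 0)

theorem GFP.mono {m n : ℕ} (hmn : m ≤ n) (h : GFP n G) : GFP m G := FP.mono hmn h

/-- the trivial module of a quotient -/
noncomputable def trivEquiv (φ : G →* H) : Triv G ≃ₗ[ZG G] Res (zmap φ) (Triv H) :=
  (Res.congrHom (M := ℤ) (aug_comp_zmap φ).symm).trans (Res.compEquiv (aug H) (zmap φ))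

/-- invariance under isomorphism of groups -/
theorem GFP.congr (e : G ≃* H) {n : ℕ} (h : GFP n H) : GFP n G := by
  have hinj : ∀ x : ZG G, zmap (e.symm : H →* G) (zmap (e : G →* H) x) = x := by
    intro x
    rw [zmap_comp]
    have : (e.symm : H →* G).comp (e : G →* H) = MonoidHom.id G := by
      ext g
      simp
    rw [this, zmap_id]
  have hsurj : ∀ x : ZG H, zmap (e : G →* H) (zmap (e.symm : H →* G) x) = x := by
    intro x
    rw [zmap_comp]
    have : (e : G →* H).comp (e.symm : H →* G) = MonoidHom.id H := by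
      ext g
      simp
    rw [this, zmap_id]
  let E : ZG G ≃ₗ[ZG G] Res (zmap (e : G →* H)) (ZG H) :=
    { toFun := fun x => (zmap (e : G →* H) x : ZG H)
      invFun := fun y => zmap (e.symm : H →* G) (show ZG H from y)
      left_inv := fun x => hinj x
      right_inv := fun x => hsurj x
      map_add' := fun x y => map_add _ x y
      map_smul' := fun x y => (zmap (e : G →* H)).map_mul x y }
  have h1 : FP (ZG G) n (Res (zmap (e : G →* H)) (ZG H)) := FP.equiv E (FP.ring _ n)
  exact FP.equiv (trivEquiv (e : G →* H)).symm (FP.res _ n h1 h)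

/-- a module over the group ring from an action by additive endomorphisms -/
@[reducible] noncomputable def modOf {M : Type} [AddCommGroup M] (θ : G →* Module.End ℤ M) :
    Module (ZG G) M :=
  Module.compHom M ((MonoidAlgebra.lift ℤ (Module.End ℤ M) G θ : ZG G →ₐ[ℤ] Module.End ℤ M) :
    ZG G →+* Module.End ℤ M)

theorem modOf_el {M : Type} [AddCommGroup M] (θ : G →* Module.End ℤ M) (g : G) (m : M) :
    letI := modOf θ
    el g • m = θ g m := by
  change ((MonoidAlgebra.lift ℤ (Module.End ℤ M) G θ : ZG G →ₐ[ℤ] Module.End ℤ M) (el g)) m = θ g m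
  rw [el_def]
  exact congrArg (fun t : Module.End ℤ M => t m) (MonoidAlgebra.lift_of θ g)

end

end Pool.Agent.Lib.MP_d943a5_al
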