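import Pool.Agent.Lib.MP_d943a5_al.FPr
import Pool.Agent.Lib.MP_d943a5_al.Cmod

/-!
# Finitely generated virtually nilpotent groups
-/

set_option autoImplicit false

namespace Pool.Agent.Lib.MP_d943a5_al

/-- virtually nilpotent groups -/
def VN (G : Type) [Group G] : Prop :=
  ∃ N : Subgroup G, N.Normal ∧ N.FiniteIndex ∧ Group.IsNilpotent N

/-- finitely presented and of type `FP n` for all `n` -/
def Good (G : Type) [Group G] : Prop := Group.IsFinitelyPresented G ∧ ∀ n, GFP n G

section

variable {G H : Type} [Group G] [Group H]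

-- BEGIN N1
theorem VN.of_injective (φ : G →* H) (hφ : Function.Injective φ) (h : VN H) : VN G := by
  obtain ⟨N, hN, hfi, hnil⟩ := h
  refine ⟨N.comap φ, inferInstance, ?_, ?_⟩
  · constructor
    rw [Subgroup.index_comap]
    intro h0
    exact hfi.index_ne_zero (Subgroup.index_eq_zero_of_relIndex_eq_zero h0)
  · let ψ : N.comap φ →* N := φ.subgroupComap N
    have hψ : Function.Injective ψ := by
      intro a b hab
      apply Subtype.ext
      apply hφ
      exact congrArg (fun x : N => (x : H)) hab
    have h1 : Group.IsNilpotent ψ.range := inferInstance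
    exact Group.nilpotent_of_mulEquiv (MonoidHom.ofInjective hψ).symm

theorem VN.of_surjective (φ : G →* H) (hφ : Function.Surjective φ) (h : VN G) : VN H := by
  obtain ⟨N, hN, hfi, hnil⟩ := h
  refine ⟨N.map φ, hN.map φ hφ, ?_, ?_⟩
  · constructor
    intro h0
    have h1 := Subgroup.index_map_dvd (H := N) hφ
    rw [h0] at h1
    exact hfi.index_ne_zero (Nat.eq_zero_of_zero_dvd h1)
  · exact Group.nilpotent_of_surjective (φ.subgroupMap N) (φ.subgroupMap_surjective N)
-- END N1

theorem Good.congr (e : G ≃* H) (h : Good H) : Good G :=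
  ⟨Group.IsFinitelyPresented.equiv (h := h.1) e.symm, fun n => GFP.congr e (h.2 n)⟩

theorem Good.extension (π : G →* H) (hπ : Function.Surjective π) (h : Good π.ker)
    (hH : Good H) : Good G :=
  ⟨fp_extension π hπ h.1 hH.1, fun n => GFP.extension π hπ n (h.2 n) (hH.2 n)⟩

theorem Good.of_finite [Finite G] : Good G := ⟨inferInstance, fun n => GFP.of_finite n⟩

-- BEGIN N2
theorem Good.cyclic [IsCyclic G] : Good G := by
  cases finite_or_infinite G with
  | inl h => exact Good.of_finite
  | inr h =>
    have e : G ≃* FreeGroup (Fin 1) :=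
      (intCyclicMulEquiv (G := G)).symm.trans (FreeGroup.mulEquivIntOfUnique (α := Fin 1)).symm
    exact Good.congr e ⟨inferInstance, fun n => GFP_freeGroup 1 n⟩
-- END N2

-- BEGIN N3
theorem n3_aux : ∀ (n : ℕ) (G : Type) [Group G], (∀ a b : G, a * b = b * a) →
    ∀ f : Fin n → G, Subgroup.closure (Set.range f) = ⊤ → Good G := by
  intro n
  induction n with
  | zero =>
    intro G _ _ f hf
    have h1 : Set.range f = ∅ := Set.range_eq_empty f
    rw [h1, Subgroup.closure_empty] at hf
    have : Subsingleton G := Subgroup.subsingleton_iff.1 (subsingleton_of_bot_eq_top hf)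
    exact Good.of_finite
  | succ n ih =>
    intro G _ hab f hf
    have hN : (Subgroup.zpowers (f 0)).Normal :=
      ⟨fun x hx g => by rw [hab g x, mul_assoc, mul_inv_cancel, mul_one]; exact hx⟩
    have hQ : Good (G ⧸ Subgroup.zpowers (f 0)) := by
      apply ih _ _ (fun i => (QuotientGroup.mk (f i.succ) : G ⧸ Subgroup.zpowers (f 0)))
      · rw [eq_top_iff]
        intro y _
        obtain ⟨x, rfl⟩ := QuotientGroup.mk_surjective y
        have hx : x ∈ Subgroup.closure (Set.range f) := by rw [hf]; exact Subgroup.mem_top x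
        induction hx using Subgroup.closure_induction with
        | mem x hx =>
          obtain ⟨i, rfl⟩ := hx
          refine Fin.cases ?_ (fun i => ?_) i
          · have : (QuotientGroup.mk (f 0) : G ⧸ Subgroup.zpowers (f 0)) = 1 :=
              (QuotientGroup.eq_one_iff _).2 (Subgroup.mem_zpowers _)
            rw [this]
            exact Subgroup.one_mem _
          · exact Subgroup.subset_closure ⟨i, rfl⟩
        | one => exact Subgroup.one_mem _
        | mul x y _ _ hx hy =>
          rw [QuotientGroup.mk_mul]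
          exact Subgroup.mul_mem _ (hx trivial) (hy trivial)
        | inv x _ hx =>
          rw [QuotientGroup.mk_inv]
          exact Subgroup.inv_mem _ (hx trivial)
      · intro a b
        obtain ⟨a, rfl⟩ := QuotientGroup.mk_surjective a
        obtain ⟨b, rfl⟩ := QuotientGroup.mk_surjective b
        rw [← QuotientGroup.mk_mul, ← QuotientGroup.mk_mul, hab]
    refine Good.extension (QuotientGroup.mk' (Subgroup.zpowers (f 0)))
      (QuotientGroup.mk'_surjective _) ?_ hQ
    have hc : IsCyclic (QuotientGroup.mk' (Subgroup.zpowers (f 0))).ker := by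
      rw [QuotientGroup.ker_mk']
      infer_instance
    exact Good.cyclic

theorem Good.abelian (hab : ∀ a b : G, a * b = b * a) (hfg : Group.FG G) : Good G := by
  obtain ⟨S, hS⟩ := Group.fg_iff'.1 hfg
  obtain ⟨T, -, hT⟩ := hS
  refine n3_aux T.card G hab (fun i => ((T.equivFin.symm i : T) : G)) ?_
  rw [← hT]
  congr 1
  ext x
  constructor
  · rintro ⟨i, rfl⟩
    exact (T.equivFin.symm i).2
  · intro hx
    exact ⟨T.equivFin ⟨x, hx⟩, by simp⟩
-- END N3

-- BEGIN N4
open scoped commutatorElement in
/-- one step for the lower central series -/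
theorem n4_step (S : Set G) (hS : Subgroup.closure S = ⊤) (i : ℕ) (T : Set G)
    (hT : (⊤ : Subgroup G).lowerCentralSeries i =
      Subgroup.closure T ⊔ (⊤ : Subgroup G).lowerCentralSeries (i + 1)) :
    (⊤ : Subgroup G).lowerCentralSeries (i + 1) =
      Subgroup.closure (Set.image2 (fun t g => ⁅t, g⁆) T S) ⊔
        (⊤ : Subgroup G).lowerCentralSeries (i + 2) := by
  set L := (⊤ : Subgroup G).lowerCentralSeries with hL
  have hTi : T ⊆ L i := by
    intro t ht
    have : t ∈ Subgroup.closure T ⊔ L (i + 1) :=
      Subgroup.mem_sup_left (Subgroup.subset_closure ht)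
    rw [← hT] at this
    exact this
  have hanti : L (i + 2) ≤ L (i + 1) :=
    (⊤ : Subgroup G).lowerCentralSeries_antitone (Nat.le_succ (i + 1))
  have hcomm : ∀ (j : ℕ) (a : G), a ∈ L j → ∀ g : G, ⁅a, g⁆ ∈ L (j + 1) := by
    intro j a ha g
    exact Subgroup.commutator_mem_commutator ha (Subgroup.mem_top g)
  set M := Subgroup.closure (Set.image2 (fun t g => ⁅t, g⁆) T S) ⊔ L (i + 2) with hM
  have hMle : M ≤ L (i + 1) := by
    rw [hM]
    refine sup_le ?_ hanti
    rw [Subgroup.closure_le]
    rintro x ⟨t, ht, g, -, rfl⟩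
    exact hcomm i t (hTi ht) g
  have hNM : L (i + 2) ≤ M := le_sup_right
  have hnorm : M.Normal := by
    constructor
    intro m hm g
    have h1 : ⁅m⁻¹, g⁆ ∈ M := hNM (hcomm (i + 1) m⁻¹ (inv_mem (hMle hm)) g)
    have h2 : g * m * g⁻¹ = m * ⁅m⁻¹, g⁆ := by
      rw [commutatorElement_def]; group
    rw [h2]
    exact mul_mem hm h1
  apply le_antisymm _ hMle
  -- the elements commuting with everything modulo `M`
  have hC : ∀ a ∈ L i, ∀ g : G, ⁅a, g⁆ ∈ M := by
    have key : L i ≤ (Subgroup.center (G ⧸ M)).comap (QuotientGroup.mk' M) := by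
      rw [hT]
      refine sup_le ?_ ?_
      · rw [Subgroup.closure_le]
        intro t ht
        change (QuotientGroup.mk' M) t ∈ Subgroup.center (G ⧸ M)
        rw [Subgroup.mem_center_iff]
        intro q
        obtain ⟨g, rfl⟩ := QuotientGroup.mk'_surjective M q
        have hg : g ∈ Subgroup.closure S := by rw [hS]; exact Subgroup.mem_top g
        induction hg using Subgroup.closure_induction with
        | mem g hg =>
          have h1 : ⁅t, g⁆ ∈ M := by
            apply Subgroup.mem_sup_left
            exact Subgroup.subset_closure ⟨t, ht, g, hg, rfl⟩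
          have h2 : (QuotientGroup.mk' M) ⁅t, g⁆ = 1 := by
            rw [QuotientGroup.mk'_apply, QuotientGroup.eq_one_iff]
            exact h1
          rw [map_commutatorElement, commutatorElement_eq_one_iff_mul_comm] at h2
          exact h2.symm
        | one => rw [map_one, one_mul, mul_one]
        | mul x y _ _ hx hy => rw [map_mul, mul_assoc, hy, ← mul_assoc, hx, mul_assoc]
        | inv x _ hx =>
          rw [map_inv]
          have := congrArg (fun z => ((QuotientGroup.mk' M) x)⁻¹ * z *
            ((QuotientGroup.mk' M) x)⁻¹) hx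
          simp only [mul_assoc, inv_mul_cancel_left, mul_inv_cancel, mul_one] at this
          exact this.symm
      · intro b hb
        change (QuotientGroup.mk' M) b ∈ Subgroup.center (G ⧸ M)
        rw [Subgroup.mem_center_iff]
        intro q
        obtain ⟨g, rfl⟩ := QuotientGroup.mk'_surjective M q
        have h1 : ⁅b, g⁆ ∈ M := hNM (hcomm (i + 1) b hb g)
        have h2 : (QuotientGroup.mk' M) ⁅b, g⁆ = 1 := by
          rw [QuotientGroup.mk'_apply, QuotientGroup.eq_one_iff]
          exact h1
        rw [map_commutatorElement, commutatorElement_eq_one_iff_mul_comm] at h2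
        exact h2.symm
    intro a ha g
    have h1 : (QuotientGroup.mk' M) a ∈ Subgroup.center (G ⧸ M) := key ha
    rw [Subgroup.mem_center_iff] at h1
    have h2 := h1 ((QuotientGroup.mk' M) g)
    rw [← QuotientGroup.eq_one_iff, ← QuotientGroup.mk'_apply, map_commutatorElement,
      commutatorElement_eq_one_iff_mul_comm]
    exact h2.symm
  change ⁅L i, (⊤ : Subgroup G)⁆ ≤ M
  rw [Subgroup.commutator_le]
  intro a ha g _
  exact hC a ha g

/-- the terms of the lower central series of a finitely generated group are finitely generated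
modulo the next term -/
theorem lcs_fg (hfg : Group.FG G) (i : ℕ) : ∃ T : Set G, T.Finite ∧
    (⊤ : Subgroup G).lowerCentralSeries i =
      Subgroup.closure T ⊔ (⊤ : Subgroup G).lowerCentralSeries (i + 1) := by
  obtain ⟨S, hS⟩ := hfg.out
  induction i with
  | zero =>
    refine ⟨S, S.finite_toSet, ?_⟩
    rw [Subgroup.lowerCentralSeries_zero, hS, top_sup_eq]
  | succ i ih =>
    obtain ⟨T, hTf, hT⟩ := ih
    exact ⟨_, hTf.image2 _ S.finite_toSet, n4_step (S : Set G) hS i T hT⟩
-- END N4

-- BEGIN N5
theorem n5_aux (c : ℕ) : ∀ (G : Type) [Group G], Group.FG G →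
    (⊤ : Subgroup G).lowerCentralSeries c = ⊥ → Good G := by
  induction c with
  | zero =>
    intro G _ _ h
    rw [Subgroup.lowerCentralSeries_zero] at h
    have h1 : Subsingleton G := by
      refine ⟨fun a b => ?_⟩
      have ha : a ∈ (⊥ : Subgroup G) := h ▸ Subgroup.mem_top a
      have hb : b ∈ (⊥ : Subgroup G) := h ▸ Subgroup.mem_top b
      rw [Subgroup.mem_bot] at ha hb
      rw [ha, hb]
    exact Good.of_finite
  | succ c ih =>
    intro G _ hfg h
    have hcomm : ∀ z ∈ (⊤ : Subgroup G).lowerCentralSeries c, ∀ g : G, z * g = g * z := by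
      intro z hz g
      have h1 := Subgroup.commutator_mem_commutator hz (Subgroup.mem_top g)
      rw [← Subgroup.lowerCentralSeries_succ, h, Subgroup.mem_bot,
        commutatorElement_eq_one_iff_mul_comm] at h1
      exact h1
    obtain ⟨T, hT, hTc⟩ := lcs_fg hfg c
    rw [h, sup_bot_eq] at hTc
    have hZfg : Group.FG ((⊤ : Subgroup G).lowerCentralSeries c) := by
      rw [Group.fg_iff_subgroup_fg, Subgroup.fg_iff]
      exact ⟨T, hTc.symm, hT⟩
    have hZ : Good ((⊤ : Subgroup G).lowerCentralSeries c) :=
      Good.abelian (fun a b => Subtype.ext (hcomm a a.2 b)) hZfg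
    have hK : Good (QuotientGroup.mk' ((⊤ : Subgroup G).lowerCentralSeries c)).ker :=
      Good.congr (MulEquiv.subgroupCongr (QuotientGroup.ker_mk' _)) hZ
    refine Good.extension (QuotientGroup.mk' ((⊤ : Subgroup G).lowerCentralSeries c))
      (QuotientGroup.mk'_surjective _) hK (ih _ (QuotientGroup.fg _) ?_)
    have h2 := (⊤ : Subgroup G).map_lowerCentralSeries
      (QuotientGroup.mk' ((⊤ : Subgroup G).lowerCentralSeries c)) c
    rw [QuotientGroup.map_mk'_self, Subgroup.map_top_of_surjective _
      (QuotientGroup.mk'_surjective _)] at h2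
    exact h2.symm

theorem Good.nilpotent (hfg : Group.FG G) (hn : Group.IsNilpotent G) : Good G := by
  obtain ⟨c, hc⟩ := Subgroup.nilpotent_iff_lowerCentralSeries.1 hn
  exact n5_aux c G hfg hc
-- END N5

-- BEGIN N6
theorem Good.virtuallyNilpotent (hfg : Group.FG G) (h : VN G) : Good G := by
  obtain ⟨N, hN, hf, hnil⟩ := h
  have hfgN : Group.FG N := Subgroup.fg_of_index_ne_zero N
  have h1 : Good N := Good.nilpotent hfgN hnil
  have h2 : Good (QuotientGroup.mk' N).ker :=
    Good.congr (MulEquiv.subgroupCongr (QuotientGroup.ker_mk' N)) h1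
  haveI : Finite (G ⧸ N) := inferInstance
  exact Good.extension (QuotientGroup.mk' N) (QuotientGroup.mk'_surjective N) h2 Good.of_finite
-- END N6

end

end Pool.Agent.Lib.MP_d943a5_al
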