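import Pool.Agent.Lib.MP_d943a5_al.GR

/-!
# Free groups: crossed homomorphisms and the tree complex
-/

set_option autoImplicit false

namespace Pool.Agent.Lib.MP_d943a5_al

-- BEGIN T1
/-- crossed homomorphisms of a free group with prescribed values on the basis -/
theorem fox_exists {X M : Type} [AddCommGroup M] [Module (ZG (FreeGroup X)) M] (m : X → M) :
    ∃ d : FreeGroup X → M, (∀ f g, d (f * g) = d f + el f • d g) ∧
      ∀ x, d (FreeGroup.of x) = m x := by
  let P : X → Equiv.Perm M := fun x =>
    { toFun := fun v => el (FreeGroup.of x) • v + m x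
      invFun := fun v => el (FreeGroup.of x)⁻¹ • (v - m x)
      left_inv := fun v => by
        change el (FreeGroup.of x)⁻¹ • (el (FreeGroup.of x) • v + m x - m x) = v
        rw [add_sub_cancel_right, smul_smul, el_inv_mul, one_smul]
      right_inv := fun v => by
        change el (FreeGroup.of x) • (el (FreeGroup.of x)⁻¹ • (v - m x)) + m x = v
        rw [smul_smul, el_mul_inv, one_smul, sub_add_cancel] }
  let T : FreeGroup X →* Equiv.Perm M := FreeGroup.lift P
  have hT : ∀ f : FreeGroup X, ∀ v : M, T f v = el f • v + T f 0 := by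
    intro f
    induction f using FreeGroup.induction_on with
    | C1 =>
      intro v
      rw [map_one, Equiv.Perm.one_apply, Equiv.Perm.one_apply, el_one, one_smul, add_zero]
    | of x =>
      intro v
      have h1 : ∀ v, T (FreeGroup.of x) v = el (FreeGroup.of x) • v + m x := by
        intro v
        change FreeGroup.lift P (FreeGroup.of x) v = _
        rw [FreeGroup.lift_apply_of]
        rfl
      rw [h1 v, h1 0, smul_zero, zero_add]
    | inv_of x ih =>
      have h2 : ∀ w, T (FreeGroup.of x)⁻¹ w =
          el (FreeGroup.of x)⁻¹ • (w - T (FreeGroup.of x) 0) := by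
        intro w
        rw [map_inv, Equiv.Perm.inv_eq_iff_eq, ih, smul_smul, el_mul_inv, one_smul,
          sub_add_cancel]
      intro v
      rw [h2 v, h2 0, zero_sub, smul_neg, smul_sub, sub_eq_add_neg]
    | mul f g hf hg =>
      intro v
      rw [map_mul, Equiv.Perm.mul_apply, Equiv.Perm.mul_apply, hf (T g v), hf (T g 0), hg v,
        smul_add, smul_smul, ← el_mul, add_assoc]
  refine ⟨fun f => T f 0, ?_, ?_⟩
  · intro f g
    change T (f * g) 0 = T f 0 + el f • T g 0
    rw [map_mul, Equiv.Perm.mul_apply, hT f (T g 0), add_comm]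
  · intro x
    change FreeGroup.lift P (FreeGroup.of x) 0 = m x
    rw [FreeGroup.lift_apply_of]
    change el (FreeGroup.of x) • (0 : M) + m x = m x
    rw [smul_zero, zero_add]

/-- a crossed homomorphism is determined by its values on the basis -/
theorem fox_unique {X M : Type} [AddCommGroup M] [Module (ZG (FreeGroup X)) M]
    (d d' : FreeGroup X → M) (hd : ∀ f g, d (f * g) = d f + el f • d g)
    (hd' : ∀ f g, d' (f * g) = d' f + el f • d' g)
    (h : ∀ x, d (FreeGroup.of x) = d' (FreeGroup.of x)) : d = d' := by
  have one : ∀ d : FreeGroup X → M, (∀ f g, d (f * g) = d f + el f • d g) → d 1 = 0 := by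
    intro d hd
    have h1 := hd 1 1
    rw [mul_one, el_one, one_smul] at h1
    exact left_eq_add.1 h1
  have inv : ∀ d : FreeGroup X → M, (∀ f g, d (f * g) = d f + el f • d g) →
      ∀ f, d f⁻¹ = -(el f⁻¹ • d f) := by
    intro d hd f
    have h1 := hd f⁻¹ f
    rw [inv_mul_cancel, one d hd] at h1
    exact eq_neg_of_add_eq_zero_left h1.symm
  funext f
  induction f using FreeGroup.induction_on with
  | C1 => rw [one d hd, one d' hd']
  | of x => exact h x
  | inv_of x ih => rw [inv d hd, inv d' hd', ih]
  | mul f g hf hg => rw [hd, hd', hf, hg]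
-- END T1

section tree

variable (r : ℕ) (C : Type) [AddCommGroup C]

/-- boundary map of the Cayley tree of a free group with coefficients in `C`; the edge `(x, f)`
goes from `f` to `f x` -/
noncomputable def treeD : (Fin r → (FreeGroup (Fin r) →₀ C)) →+ (FreeGroup (Fin r) →₀ C) where
  toFun c := ∑ x, ((c x).mapDomain (fun f => f * FreeGroup.of x) - c x)
  map_zero' := by simp
  map_add' c c' := by
    rw [← Finset.sum_add_distrib]
    refine Finset.sum_congr rfl fun x _ => ?_
    rw [Pi.add_apply, Finsupp.mapDomain_add]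
    abel

/-- the sum of the coefficients -/
noncomputable def treeS : (FreeGroup (Fin r) →₀ C) →+ C where
  toFun v := v.sum fun _ c => c
  map_zero' := Finsupp.sum_zero_index
  map_add' _ _ := Finsupp.sum_add_index' (fun _ => rfl) (fun _ _ _ => rfl)

-- BEGIN T2
theorem treeS_treeD (c : Fin r → (FreeGroup (Fin r) →₀ C)) : treeS r C (treeD r C c) = 0 := by
  have h1 : ∀ (φ : FreeGroup (Fin r) → FreeGroup (Fin r)) (v : FreeGroup (Fin r) →₀ C),
      treeS r C (v.mapDomain φ) = treeS r C v := by
    intro φ v
    change (v.mapDomain φ).sum (fun _ c => c) = v.sum fun _ c => c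
    exact Finsupp.sum_mapDomain_index (fun _ => rfl) (fun _ _ _ => rfl)
  change treeS r C (∑ x, ((c x).mapDomain (fun f => f * FreeGroup.of x) - c x)) = 0
  rw [map_sum]
  refine Finset.sum_eq_zero fun x _ => ?_
  rw [map_sub, h1, sub_self]

/-- translation of edges -/
noncomputable def t2_act (g : FreeGroup (Fin r)) : Module.End ℤ (Fin r → (FreeGroup (Fin r) →₀ C)) :=
  AddMonoidHom.toIntLinearMap
    { toFun := fun v x => (v x).mapDomain (fun f => g * f)
      map_zero' := by
        funext x
        exact Finsupp.mapDomain_zero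
      map_add' := fun v w => by
        funext x
        exact Finsupp.mapDomain_add }

theorem t2_act_apply (g : FreeGroup (Fin r)) (v : Fin r → (FreeGroup (Fin r) →₀ C)) (x : Fin r) :
    t2_act r C g v x = (v x).mapDomain (fun f => g * f) := rfl

theorem t2_act_single (g : FreeGroup (Fin r)) (x : Fin r) (f : FreeGroup (Fin r)) (c : C) :
    t2_act r C g (Pi.single x (Finsupp.single f c)) = Pi.single x (Finsupp.single (g * f) c) := by
  classical
  funext y
  rw [t2_act_apply]
  by_cases h : y = x
  · subst h
    rw [Pi.single_eq_same, Pi.single_eq_same, Finsupp.mapDomain_single]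
  · rw [Pi.single_eq_of_ne h, Pi.single_eq_of_ne h, Finsupp.mapDomain_zero]

/-- the action of the free group -/
noncomputable def t2_theta : FreeGroup (Fin r) →* Module.End ℤ (Fin r → (FreeGroup (Fin r) →₀ C)) where
  toFun := t2_act r C
  map_one' := by
    refine LinearMap.ext fun v => ?_
    funext x
    rw [t2_act_apply]
    have : (fun f : FreeGroup (Fin r) => 1 * f) = id := by
      funext f
      exact one_mul f
    rw [this, Finsupp.mapDomain_id]
    rfl
  map_mul' g h := by
    refine LinearMap.ext fun v => ?_
    funext x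
    rw [Module.End.mul_apply, t2_act_apply, t2_act_apply, t2_act_apply, ← Finsupp.mapDomain_comp]
    congr 1
    funext f
    exact mul_assoc g h f

theorem t2_treeD_single (x : Fin r) (f : FreeGroup (Fin r)) (c : C) :
    treeD r C (Pi.single x (Finsupp.single f c)) =
      Finsupp.single (f * FreeGroup.of x) c - Finsupp.single f c := by
  change ∑ y, (((Pi.single x (Finsupp.single f c) : Fin r → (FreeGroup (Fin r) →₀ C)) y).mapDomain
    (fun f => f * FreeGroup.of y) - (Pi.single x (Finsupp.single f c) :
      Fin r → (FreeGroup (Fin r) →₀ C)) y) = _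
  rw [Finset.sum_eq_single x]
  · rw [Pi.single_eq_same, Finsupp.mapDomain_single]
  · intro y _ hy
    rw [Pi.single_eq_of_ne hy, Finsupp.mapDomain_zero, sub_self]
  · intro h
    exact absurd (Finset.mem_univ x) h

theorem t2_treeD_act (g : FreeGroup (Fin r)) (v : Fin r → (FreeGroup (Fin r) →₀ C)) :
    treeD r C (t2_act r C g v) = (treeD r C v).mapDomain (fun f => g * f) := by
  change ∑ x, (((v x).mapDomain (fun f => g * f)).mapDomain (fun f => f * FreeGroup.of x) -
    (v x).mapDomain (fun f => g * f)) =
    (∑ x, ((v x).mapDomain (fun f => f * FreeGroup.of x) - v x)).mapDomain (fun f => g * f)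
  have h1 : ∀ w : FreeGroup (Fin r) →₀ C, w.mapDomain (fun f => g * f) =
      Finsupp.mapDomain.addMonoidHom (fun f => g * f) w := fun _ => rfl
  rw [h1 (∑ x, ((v x).mapDomain (fun f => f * FreeGroup.of x) - v x)), map_sum]
  refine Finset.sum_congr rfl fun x _ => ?_
  rw [map_sub, ← h1, ← h1, ← Finsupp.mapDomain_comp, ← Finsupp.mapDomain_comp]
  congr 2
  funext f
  exact mul_assoc g f _

theorem t2_path (c : C) : ∃ d : FreeGroup (Fin r) → (Fin r → (FreeGroup (Fin r) →₀ C)),
    (∀ f g, d (f * g) = d f + t2_act r C f (d g)) ∧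
      ∀ x, d (FreeGroup.of x) = Pi.single x (Finsupp.single 1 c) := by
  let _ := modOf (t2_theta r C)
  obtain ⟨d, hd, hx⟩ := fox_exists (X := Fin r) (M := Fin r → (FreeGroup (Fin r) →₀ C))
    (fun x => Pi.single x (Finsupp.single 1 c))
  refine ⟨d, ?_, hx⟩
  intro f g
  rw [hd, modOf_el]
  rfl

theorem t2_unique (d d' : FreeGroup (Fin r) → (Fin r → (FreeGroup (Fin r) →₀ C)))
    (hd : ∀ f g, d (f * g) = d f + t2_act r C f (d g))
    (hd' : ∀ f g, d' (f * g) = d' f + t2_act r C f (d' g))
    (h : ∀ x, d (FreeGroup.of x) = d' (FreeGroup.of x)) : d = d' := by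
  let _ := modOf (t2_theta r C)
  refine fox_unique d d' ?_ ?_ h
  · intro f g
    rw [hd, modOf_el]
    rfl
  · intro f g
    rw [hd', modOf_el]
    rfl

theorem t2_delta : ∃ δ : (FreeGroup (Fin r) →₀ C) →+ (Fin r → (FreeGroup (Fin r) →₀ C)),
    (∀ v, treeD r C (δ v) = v - Finsupp.single 1 (treeS r C v)) ∧
      ∀ w, δ (treeD r C w) = w := by
  choose d hd hx using t2_path r C
  have hadd : ∀ c c', d (c + c') = fun f => d c f + d c' f := by
    intro c c'
    refine t2_unique r C _ _ (hd _) ?_ ?_
    · intro f g
      rw [hd, hd, map_add]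
      abel
    · intro x
      rw [hx, hx, hx, Finsupp.single_add, Pi.single_add]
  let δ : (FreeGroup (Fin r) →₀ C) →+ (Fin r → (FreeGroup (Fin r) →₀ C)) :=
    Finsupp.liftAddHom (fun f => AddMonoidHom.mk' (fun c => d c f)
      (fun c c' => congrFun (hadd c c') f))
  have hδ : ∀ f c, δ (Finsupp.single f c) = d c f := by
    intro f c
    exact Finsupp.liftAddHom_apply_single _ f c
  have one : ∀ c, d c 1 = 0 := by
    intro c
    have h1 := hd c 1 1
    have h2 : t2_act r C 1 (d c 1) = d c 1 := by
      have h3 := congrArg (fun t : Module.End ℤ (Fin r → (FreeGroup (Fin r) →₀ C)) => t (d c 1))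
        (map_one (t2_theta r C))
      exact h3
    rw [mul_one, h2] at h1
    exact left_eq_add.1 h1
  have hT : ∀ c f, treeD r C (d c f) = Finsupp.single f c - Finsupp.single 1 c := by
    intro c f
    induction f using FreeGroup.induction_on with
    | C1 => rw [one, map_zero, sub_self]
    | of x => rw [hx, t2_treeD_single, one_mul]
    | inv_of x ih =>
      have h1 := congrArg (treeD r C) (hd c (FreeGroup.of x)⁻¹ (FreeGroup.of x))
      have h4 : ∀ w : FreeGroup (Fin r) →₀ C, w.mapDomain (fun f => (FreeGroup.of x)⁻¹ * f) =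
        Finsupp.mapDomain.addMonoidHom (fun f => (FreeGroup.of x)⁻¹ * f) w := fun _ => rfl
      rw [inv_mul_cancel, one, map_zero, map_add, t2_treeD_act, ih, h4, map_sub, ← h4, ← h4,
        Finsupp.mapDomain_single, Finsupp.mapDomain_single, inv_mul_cancel, mul_one] at h1
      have h2 := eq_neg_of_add_eq_zero_left h1.symm
      rw [h2, neg_sub]
    | mul f g hf hg =>
      have h4 : ∀ w : FreeGroup (Fin r) →₀ C, w.mapDomain (fun k => f * k) =
        Finsupp.mapDomain.addMonoidHom (fun k => f * k) w := fun _ => rfl
      rw [hd, map_add, t2_treeD_act, hf, hg, h4, map_sub, ← h4, ← h4,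
        Finsupp.mapDomain_single, Finsupp.mapDomain_single, mul_one]
      abel
  refine ⟨δ, ?_, ?_⟩
  · intro v
    induction v using Finsupp.induction_linear with
    | zero => rw [map_zero, map_zero, map_zero, Finsupp.single_zero, sub_zero]
    | add v w hv hw =>
      rw [map_add, map_add, hv, hw, map_add, Finsupp.single_add]
      abel
    | single f c =>
      rw [hδ, hT]
      congr 2
      change c = (Finsupp.single f c).sum fun _ c => c
      rw [Finsupp.sum_single_index rfl]
  · intro w
    have h1 : ∀ (x : Fin r) (u : FreeGroup (Fin r) →₀ C),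
        δ (treeD r C (Pi.single x u)) = Pi.single x u := by
      intro x u
      induction u using Finsupp.induction_linear with
      | zero => rw [Pi.single_zero, map_zero, map_zero]
      | add v w hv hw => rw [Pi.single_add, map_add, map_add, hv, hw]
      | single f c =>
        rw [t2_treeD_single, map_sub, hδ, hδ, hd, hx, t2_act_single, mul_one,
          add_sub_cancel_left]
    conv_rhs => rw [← Finset.univ_sum_single w]
    conv_lhs => rw [← Finset.univ_sum_single w]
    rw [map_sum, map_sum]
    exact Finset.sum_congr rfl fun x _ => h1 x (w x)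

theorem treeD_injective : Function.Injective (treeD r C) := by
  obtain ⟨δ, _, h⟩ := t2_delta r C
  intro a b hab
  rw [← h a, ← h b, hab]

theorem treeD_surj_ker (v : FreeGroup (Fin r) →₀ C) (hv : treeS r C v = 0) :
    ∃ c, treeD r C c = v := by
  obtain ⟨δ, h, _⟩ := t2_delta r C
  refine ⟨δ v, ?_⟩
  rw [h, hv, Finsupp.single_zero, sub_zero]
-- END T2

end tree

end Pool.Agent.Lib.MP_d943a5_al
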