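import Pool.Agent.Lib.MP_d943a5_al.Small
import Pool.Agent.Lib.MP_d943a5_al.Tree

/-!
# Coinvariants with respect to a free normal subgroup
-/

set_option autoImplicit false

namespace Pool.Agent.Lib.MP_d943a5_al

section

variable {G Γ : Type} [Group G] [Group Γ] {ι : Type}

/-- `b` is a basis of the (free) subgroup `R` -/
def IsBasis (b : ι → G) (R : Subgroup G) : Prop :=
  Function.Injective (FreeGroup.lift b) ∧ (FreeGroup.lift b).range = R

-- BEGIN R1
/-- a subgroup which is mapped injectively to a free group is free -/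
theorem exists_isBasis {X : Type} (π : G →* FreeGroup X) (R : Subgroup G)
    (hR : ∀ g ∈ R, π g = 1 → g = 1) : ∃ (ι : Type) (b : ι → G), IsBasis b R := by
  have hinj : Function.Injective (π.comp R.subtype) := by
    rw [injective_iff_map_eq_one]
    intro g hg
    exact Subtype.ext (hR g g.2 hg)
  have e : R ≃* (π.comp R.subtype).range := MonoidHom.ofInjective hinj
  haveI : IsFreeGroup R := IsFreeGroup.ofMulEquiv e.symm
  refine ⟨IsFreeGroup.Generators R, fun i => ((IsFreeGroup.mulEquiv R (FreeGroup.of i) : R) : G), ?_⟩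
  have hl : FreeGroup.lift (fun i => ((IsFreeGroup.mulEquiv R (FreeGroup.of i) : R) : G)) =
      R.subtype.comp (IsFreeGroup.mulEquiv R).toMonoidHom := by
    ext i
    rw [FreeGroup.lift_apply_of]
    rfl
  constructor
  · rw [hl]
    exact Subtype.val_injective.comp (IsFreeGroup.mulEquiv R).injective
  · rw [hl]
    ext g
    constructor
    · rintro ⟨w, rfl⟩
      exact (IsFreeGroup.mulEquiv R w).2
    · intro hg
      refine ⟨(IsFreeGroup.mulEquiv R).symm ⟨g, hg⟩, ?_⟩
      show ((IsFreeGroup.mulEquiv R ((IsFreeGroup.mulEquiv R).symm ⟨g, hg⟩) : R) : G) = g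
      rw [MulEquiv.apply_symm_apply]
-- END R1

/-- the sum `∑ (b_i - 1) v_i` -/
noncomputable def bsum {M : Type} [AddCommGroup M] [Module (ZG G) M] (b : ι → G) (v : ι →₀ M) :
    M := v.sum fun i m => el (b i) • m - m

/-- the first homology of the free group with basis `b` with coefficients in `M` vanishes -/
def InjB (b : ι → G) (M : Type) [AddCommGroup M] [Module (ZG G) M] : Prop :=
  ∀ v : ι →₀ M, bsum b v = 0 → v = 0

variable {M N : Type} [AddCommGroup M] [Module (ZG G) M] [AddCommGroup N] [Module (ZG G) N]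

-- BEGIN R2
/-- right multiplication, coordinatewise -/
private noncomputable def r2_rmul (ι : Type) (a : ZG G) : (ι →₀ ZG G) →+ (ι →₀ ZG G) :=
  Finsupp.mapRange.addMonoidHom (AddMonoidHom.mulRight a)

private theorem r2_rmul_apply (a : ZG G) (v : ι →₀ ZG G) (i : ι) :
    r2_rmul ι a v i = v i * a := rfl

private theorem r2_rmul_mul (a c : ZG G) (v : ι →₀ ZG G) :
    r2_rmul ι (a * c) v = r2_rmul ι c (r2_rmul ι a v) := by
  ext1 i
  rw [r2_rmul_apply, r2_rmul_apply, r2_rmul_apply, mul_assoc]

private theorem r2_rmul_one (v : ι →₀ ZG G) : r2_rmul ι (1 : ZG G) v = v := by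
  ext1 i
  rw [r2_rmul_apply, mul_one]

private theorem r2_rmul_single (a x : ZG G) (i : ι) :
    r2_rmul ι a (Finsupp.single i x) = Finsupp.single i (x * a) := by
  rw [r2_rmul, Finsupp.mapRange.addMonoidHom_apply, Finsupp.mapRange_single]
  rfl

private noncomputable def r2_perm (b : ι → G) (i : ι) : Equiv.Perm (ι →₀ ZG G) where
  toFun v := r2_rmul ι (el (b i)) v + Finsupp.single i 1
  invFun v := r2_rmul ι (el (b i)⁻¹) (v - Finsupp.single i 1)
  left_inv v := by
    show r2_rmul ι (el (b i)⁻¹) (r2_rmul ι (el (b i)) v + Finsupp.single i 1 - Finsupp.single i 1) = v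
    rw [add_sub_cancel_right, ← r2_rmul_mul, el_mul_inv, r2_rmul_one]
  right_inv v := by
    show r2_rmul ι (el (b i)) (r2_rmul ι (el (b i)⁻¹) (v - Finsupp.single i 1)) +
      Finsupp.single i 1 = v
    rw [← r2_rmul_mul, el_inv_mul, r2_rmul_one, sub_add_cancel]

private noncomputable def r2_T (b : ι → G) : FreeGroup ι →* (Equiv.Perm (ι →₀ ZG G))ᵐᵒᵖ :=
  FreeGroup.lift fun i => MulOpposite.op (r2_perm b i)

private noncomputable def r2_D (b : ι → G) (w : FreeGroup ι) : ι →₀ ZG G :=
  (r2_T b w).unop 0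

private theorem r2_T_apply (b : ι → G) (w : FreeGroup ι) : ∀ v : ι →₀ ZG G,
    (r2_T b w).unop v = r2_rmul ι (el (FreeGroup.lift b w)) v + r2_D b w := by
  induction w using FreeGroup.induction_on with
  | C1 =>
    intro v
    rw [r2_D, map_one, map_one, el_one, r2_rmul_one]
    simp
  | of i =>
    intro v
    rw [r2_D, r2_T, FreeGroup.lift_apply_of, FreeGroup.lift_apply_of, MulOpposite.unop_op]
    show r2_rmul ι (el (b i)) v + Finsupp.single i 1 =
      r2_rmul ι (el (b i)) v + (r2_rmul ι (el (b i)) 0 + Finsupp.single i 1)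
    rw [map_zero, zero_add]
  | inv_of i _ =>
    intro v
    rw [r2_D, map_inv, map_inv, MulOpposite.unop_inv, r2_T, FreeGroup.lift_apply_of,
      FreeGroup.lift_apply_of, MulOpposite.unop_op]
    show r2_rmul ι (el (b i)⁻¹) (v - Finsupp.single i 1) =
      r2_rmul ι (el (b i)⁻¹) v + r2_rmul ι (el (b i)⁻¹) (0 - Finsupp.single i 1)
    rw [← map_add, zero_sub, sub_eq_add_neg]
  | mul x y hx hy =>
    intro v
    have h1 : ∀ u : ι →₀ ZG G, (r2_T b (x * y)).unop u =
        (r2_T b y).unop ((r2_T b x).unop u) := by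
      intro u
      rw [map_mul, MulOpposite.unop_mul]
      rfl
    rw [r2_D, h1, h1, hx v, hy, hy, hx 0, map_mul, el_mul, r2_rmul_mul, map_add, map_zero,
      zero_add, add_assoc]

private theorem r2_D_mul (b : ι → G) (w w' : FreeGroup ι) :
    r2_D b (w * w') = r2_rmul ι (el (FreeGroup.lift b w')) (r2_D b w) + r2_D b w' := by
  rw [← r2_T_apply, r2_D, map_mul, MulOpposite.unop_mul]
  rfl

private theorem r2_D_of (b : ι → G) (i : ι) :
    r2_D b (FreeGroup.of i) = Finsupp.single i 1 := by
  rw [r2_D, r2_T, FreeGroup.lift_apply_of, MulOpposite.unop_op]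
  show r2_rmul ι (el (b i)) 0 + Finsupp.single i 1 = Finsupp.single i 1
  rw [map_zero, zero_add]

theorem InjB.ring (b : ι → G) (hb : Function.Injective (FreeGroup.lift b)) :
    InjB b (ZG G) := by
  classical
  let R : Subgroup G := (FreeGroup.lift b).range
  let t : G → G := fun g => (Quotient.mk (QuotientGroup.rightRel R) g).out
  have ht : ∀ g, g * (t g)⁻¹ ∈ R := by
    intro g
    have h1 : (QuotientGroup.rightRel R) (t g) g := Quotient.mk_out g
    exact QuotientGroup.rightRel_apply.1 h1
  have htb : ∀ i g, t (b i * g) = t g := by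
    intro i g
    have h1 : Quotient.mk (QuotientGroup.rightRel R) (b i * g) =
        Quotient.mk (QuotientGroup.rightRel R) g := by
      refine Quotient.sound (QuotientGroup.rightRel_apply.2 ?_)
      rw [mul_inv_rev, mul_inv_cancel_left]
      exact R.inv_mem ⟨FreeGroup.of i, FreeGroup.lift_apply_of⟩
    show (Quotient.mk (QuotientGroup.rightRel R) (b i * g)).out = _
    rw [h1]
  choose w hw using ht
  have hwb : ∀ i g, w (b i * g) = FreeGroup.of i * w g := by
    intro i g
    apply hb
    rw [hw, htb, map_mul, hw, FreeGroup.lift_apply_of, mul_assoc]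
  obtain ⟨δ, hδ⟩ := exists_zg_hom (fun g : G => r2_rmul ι (el (t g)) (r2_D b (w g)))
  have hkey : ∀ (i : ι) (y : ZG G), δ (el (b i) * y - y) = Finsupp.single i y := by
    intro i y
    induction y using zg_induction with
    | h1 g =>
      rw [map_sub, ← el_mul, hδ, hδ, htb, hwb, r2_D_mul, r2_D_of, map_add, add_sub_cancel_right,
        r2_rmul_single, r2_rmul_single, one_mul, ← el_mul, hw, inv_mul_cancel_right]
    | h0 => simp
    | hadd x y hx hy =>
      rw [mul_add, add_sub_add_comm, map_add, hx, hy, Finsupp.single_add]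
    | hneg x hx =>
      rw [mul_neg, sub_neg_eq_add, neg_add_eq_sub, ← neg_sub, map_neg, hx, Finsupp.single_neg]
  intro v hv
  have h1 : δ (bsum b v) = v := by
    rw [bsum, Finsupp.sum, map_sum]
    conv_rhs => rw [← Finsupp.sum_single v]
    refine Finset.sum_congr rfl fun i _ => ?_
    exact hkey i (v i)
  rw [← h1, hv, map_zero]
-- END R2

-- BEGIN R3
private theorem r3_bsum_map (b : ι → G) (f : M →ₗ[ZG G] N) (v : ι →₀ M) :
    bsum b (v.mapRange f (map_zero f)) = f (bsum b v) := by
  rw [bsum, Finsupp.sum_mapRange_index, bsum, Finsupp.sum, Finsupp.sum, map_sum]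
  · refine Finset.sum_congr rfl fun i _ => ?_
    rw [map_sub, map_smul]
  · intro i
    rw [smul_zero, sub_zero]

theorem InjB.pi (b : ι → G) (r : ℕ) (h : InjB b M) : InjB b (Fin r → M) := by
  intro v hv
  ext i j
  have h1 := h (v.mapRange (LinearMap.proj j : (Fin r → M) →ₗ[ZG G] M) (map_zero _)) (by
    rw [r3_bsum_map, hv, map_zero])
  exact DFunLike.congr_fun h1 i

theorem InjB.prod (b : ι → G) (h : InjB b M) (h' : InjB b N) : InjB b (M × N) := by
  intro v hv
  have h1 := h (v.mapRange (LinearMap.fst (ZG G) M N) (map_zero _)) (by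
    rw [r3_bsum_map, hv, map_zero])
  have h2 := h' (v.mapRange (LinearMap.snd (ZG G) M N) (map_zero _)) (by
    rw [r3_bsum_map, hv, map_zero])
  refine Finsupp.ext fun i => Prod.ext ?_ ?_
  · exact DFunLike.congr_fun h1 i
  · exact DFunLike.congr_fun h2 i

theorem InjB.submodule (b : ι → G) (L : Submodule (ZG G) M) (h : InjB b M) : InjB b L := by
  intro v hv
  have h1 := h (v.mapRange L.subtype (map_zero _)) (by
    rw [r3_bsum_map, hv, map_zero])
  exact Finsupp.ext fun i => Subtype.ext (DFunLike.congr_fun h1 i)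
-- END R3

-- BEGIN R4
private theorem r4_bsum_zero (b : ι → G) : bsum b (0 : ι →₀ M) = 0 := by
  rw [bsum, Finsupp.sum_zero_index]

private theorem r4_bsum_add (b : ι → G) (v w : ι →₀ M) :
    bsum b (v + w) = bsum b v + bsum b w := by
  classical
  rw [bsum, bsum, bsum, Finsupp.sum_add_index']
  · intro i
    rw [smul_zero, sub_zero]
  · intro i x y
    rw [smul_add, add_sub_add_comm]

private theorem r4_bsum_single (b : ι → G) (i : ι) (m : M) :
    bsum b (Finsupp.single i m) = el (b i) • m - m := by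
  rw [bsum, Finsupp.sum_single_index]
  rw [smul_zero, sub_zero]

private theorem r4_bsum_neg (b : ι → G) (v : ι →₀ M) : bsum b (-v) = -bsum b v := by
  rw [eq_neg_iff_add_eq_zero, ← r4_bsum_add, neg_add_cancel, r4_bsum_zero]

/-- elements of `I_R M` are sums `∑ (b_i - 1) v_i` -/
theorem mem_IR_iff (b : ι → G) (R : Subgroup G) [R.Normal] (hb : IsBasis b R) (x : M) :
    x ∈ IR R M ↔ ∃ v : ι →₀ M, x = bsum b v := by
  classical
  have hbR : ∀ i, b i ∈ R := by
    intro i
    rw [← hb.2]
    exact ⟨FreeGroup.of i, FreeGroup.lift_apply_of⟩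
  -- the additive subgroup of all sums
  let B : AddSubgroup M :=
    { carrier := {x | ∃ v : ι →₀ M, x = bsum b v}
      zero_mem' := ⟨0, (r4_bsum_zero b).symm⟩
      add_mem' := by
        rintro _ _ ⟨v, rfl⟩ ⟨w, rfl⟩
        exact ⟨v + w, (r4_bsum_add b v w).symm⟩
      neg_mem' := by
        rintro _ ⟨v, rfl⟩
        exact ⟨-v, (r4_bsum_neg b v).symm⟩ }
  have hsingle : ∀ i (m : M), el (b i) • m - m ∈ B := fun i m =>
    ⟨Finsupp.single i m, (r4_bsum_single b i m).symm⟩
  -- the words
  have hword : ∀ (w : FreeGroup ι) (m : M), el (FreeGroup.lift b w) • m - m ∈ B := by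
    intro w
    induction w using FreeGroup.induction_on with
    | C1 =>
      intro m
      rw [map_one, el_one, one_smul, sub_self]
      exact B.zero_mem
    | of i =>
      intro m
      rw [FreeGroup.lift_apply_of]
      exact hsingle i m
    | inv_of i _ =>
      intro m
      rw [map_inv, FreeGroup.lift_apply_of]
      have h1 := B.neg_mem (hsingle i (el (b i)⁻¹ • m))
      rw [← mul_smul, el_mul_inv, one_smul, neg_sub] at h1
      exact h1
    | mul x y hx hy =>
      intro m
      have h1 := B.add_mem (hx (el (FreeGroup.lift b y) • m)) (hy m)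
      rw [sub_add_sub_cancel, ← mul_smul, ← el_mul, ← map_mul] at h1
      exact h1
  have hR : ∀ ρ ∈ R, ∀ m : M, el ρ • m - m ∈ B := by
    intro ρ hρ m
    rw [← hb.2] at hρ
    obtain ⟨w, rfl⟩ := hρ
    exact hword w m
  -- closed under the ring
  have hg : ∀ (g : G) (x : M), x ∈ B → el g • x ∈ B := by
    rintro g _ ⟨v, rfl⟩
    rw [bsum, Finsupp.sum, Finset.smul_sum]
    refine B.sum_mem fun i _ => ?_
    have h1 := hR (g * b i * g⁻¹) (Subgroup.Normal.conj_mem inferInstance _ (hbR i) g)
      (el g • v i)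
    rw [← mul_smul, ← el_mul, inv_mul_cancel_right, el_mul, mul_smul] at h1
    rw [smul_sub]
    exact h1
  have hz : ∀ (y : ZG G) (x : M), x ∈ B → y • x ∈ B := by
    intro y
    induction y using zg_induction with
    | h1 g => exact hg g
    | h0 =>
      intro x _
      rw [zero_smul]
      exact B.zero_mem
    | hadd y y' hy hy' =>
      intro x hx
      rw [add_smul]
      exact B.add_mem (hy x hx) (hy' x hx)
    | hneg y hy =>
      intro x hx
      rw [neg_smul]
      exact B.neg_mem (hy x hx)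
  constructor
  · intro hx
    rw [IR] at hx
    have h1 : x ∈ B := by
      induction hx using Submodule.span_induction with
      | mem x hx =>
        obtain ⟨ρ, hρ, m, rfl⟩ := hx
        exact hR ρ hρ m
      | zero => exact B.zero_mem
      | add x y _ _ hx hy => exact B.add_mem hx hy
      | smul a x _ hx => exact hz a x hx
    exact h1
  · rintro ⟨v, rfl⟩
    rw [bsum, Finsupp.sum]
    exact Submodule.sum_mem _ fun i _ => Submodule.subset_span ⟨b i, hbR i, v i, rfl⟩
-- END R4

-- BEGIN R5
/-- the kernel of `ℤG → ℤΓ` -/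
theorem zmap_eq_zero_iff (κ : G →* Γ) (y : ZG G) : zmap κ y = 0 ↔ y ∈ IR κ.ker (ZG G) := by
  classical
  constructor
  · intro hy
    let s : Γ → G := fun h => if hh : ∃ g, κ g = h then hh.choose else 1
    have hs : ∀ g, κ (s (κ g)) = κ g := by
      intro g
      have hh : ∃ g', κ g' = κ g := ⟨g, rfl⟩
      show κ (if hh : ∃ g', κ g' = κ g then hh.choose else 1) = κ g
      rw [dif_pos hh]
      exact hh.choose_spec
    obtain ⟨σ, hσ⟩ := exists_zg_hom (G := Γ) (fun h => el (s h))
    have key : ∀ z : ZG G, z - σ (zmap κ z) ∈ IR κ.ker (ZG G) := by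
      intro z
      induction z using zg_induction with
      | h1 g =>
        rw [zmap_el, hσ]
        refine Submodule.subset_span ⟨g * (s (κ g))⁻¹, ?_, el (s (κ g)), ?_⟩
        · rw [MonoidHom.mem_ker, map_mul, map_inv, hs, mul_inv_cancel]
        · rw [smul_eq_mul, ← el_mul, inv_mul_cancel_right]
      | h0 =>
        rw [map_zero, map_zero, sub_zero]
        exact Submodule.zero_mem _
      | hadd x y hx hy =>
        rw [map_add, map_add, add_sub_add_comm]
        exact Submodule.add_mem _ hx hy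
      | hneg x hx =>
        rw [map_neg, map_neg, neg_sub_neg, ← neg_sub]
        exact Submodule.neg_mem _ hx
    have h1 := key y
    rw [hy, map_zero, sub_zero] at h1
    exact h1
  · intro hy
    rw [IR] at hy
    induction hy using Submodule.span_induction with
    | mem x hx =>
      obtain ⟨ρ, hρ, m, rfl⟩ := hx
      rw [smul_eq_mul, map_sub, map_mul, zmap_el, MonoidHom.mem_ker.mp hρ, el_one, one_mul,
        sub_self]
    | zero => exact map_zero _
    | add x y _ _ hx hy => rw [map_add, hx, hy, add_zero]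
    | smul a x _ hx => rw [smul_eq_mul, map_mul, hx, mul_zero]

private theorem r5_map (R : Subgroup G) (f : M →ₗ[ZG G] N) {x : M} (hx : x ∈ IR R M) :
    f x ∈ IR R N := by
  rw [IR] at hx
  induction hx using Submodule.span_induction with
  | mem x hx =>
    obtain ⟨ρ, hρ, m, rfl⟩ := hx
    rw [map_sub, map_smul]
    exact Submodule.subset_span ⟨ρ, hρ, f m, rfl⟩
  | zero =>
    rw [map_zero]
    exact Submodule.zero_mem _
  | add x y _ _ hx hy =>
    rw [map_add]
    exact Submodule.add_mem _ hx hy
  | smul a x _ hx =>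
    rw [map_smul]
    exact Submodule.smul_mem _ a hx

theorem zmap_pi_eq_zero_iff (κ : G →* Γ) (r : ℕ) (y : Fin r → ZG G) :
    (∀ i, zmap κ (y i) = 0) ↔ y ∈ IR κ.ker (Fin r → ZG G) := by
  constructor
  · intro h
    have e : y = ∑ i, (LinearMap.single (ZG G) (fun _ : Fin r => ZG G) i) (y i) := by
      funext j
      rw [Finset.sum_apply]
      simp [Pi.single_apply]
    rw [e]
    exact Submodule.sum_mem _ fun i _ => r5_map _ _ ((zmap_eq_zero_iff κ (y i)).mp (h i))
  · intro h i
    exact (zmap_eq_zero_iff κ (y i)).mpr (r5_map _ (LinearMap.proj i) h)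
-- END R5

/-- `p : M → M'` identifies `M'` with the coinvariants of `M` under the kernel of `κ` -/
def IsCo (κ : G →* Γ) {M' : Type} [AddCommGroup M'] [Module (ZG Γ) M']
    (p : M →ₗ[ZG G] Res (zmap κ) M') : Prop :=
  Function.Surjective p ∧ LinearMap.ker p = IR κ.ker M

/-- `M` has no homology in degree one and the coinvariants are of type `FP j` -/
def RF (κ : G →* Γ) (b : ι → G) (j : ℕ) (M : Type) [AddCommGroup M] [Module (ZG G) M] : Prop :=
  InjB b M ∧ ∃ (M' : Type) (_ : AddCommGroup M') (_ : Module (ZG Γ) M')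
    (p : M →ₗ[ZG G] Res (zmap κ) M'), IsCo κ p ∧ FP (ZG Γ) j M'

-- BEGIN R6
private theorem r6_map_bsum (b : ι → G) (f : M →ₗ[ZG G] N) (v : ι →₀ M) (v' : ι →₀ N)
    (h : ∀ i, f (v i) = v' i) (hs : v'.support ⊆ v.support) : f (bsum b v) = bsum b v' := by
  classical
  rw [bsum, bsum, Finsupp.sum, map_sum, Finsupp.sum_of_support_subset v' hs]
  · refine Finset.sum_congr rfl fun i _ => ?_
    rw [map_sub, map_smul, h]
  · intro i _
    rw [smul_zero, sub_zero]

/-- coinvariants of a kernel -/
theorem co_ker (κ : G →* Γ) (hκ : Function.Surjective κ) (b : ι → G)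
    (hb : IsBasis b κ.ker) (hM : InjB b M) {M' : Type} [AddCommGroup M'] [Module (ZG Γ) M']
    (p : M →ₗ[ZG G] Res (zmap κ) M') (hp : IsCo κ p) (r : ℕ) (f : (Fin r → ZG G) →ₗ[ZG G] M)
    (hf : Function.Surjective f) : ∃ (f' : (Fin r → ZG Γ) →ₗ[ZG Γ] M')
      (p' : LinearMap.ker f →ₗ[ZG G] Res (zmap κ) (LinearMap.ker f')),
      Function.Surjective f' ∧ IsCo κ p' := by
  classical
  let f' : (Fin r → ZG Γ) →ₗ[ZG Γ] M' :=
    Fintype.linearCombination (ZG Γ) (fun i => (show M' from p (f (Pi.single i 1))))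
  let q : (Fin r → ZG G) → (Fin r → ZG Γ) := fun y i => zmap κ (y i)
  have hf' : ∀ y : Fin r → ZG G, f' (q y) = (show M' from p (f y)) := by
    intro y
    have h1 : f y = ∑ i, y i • f (Pi.single i 1) := by
      conv_lhs => rw [pi_eq_sum_univ' y]
      rw [map_sum]
      refine Finset.sum_congr rfl fun i _ => ?_
      rw [← f.map_smul]
    rw [h1, map_sum]
    show Fintype.linearCombination (ZG Γ) (fun i => (show M' from p (f (Pi.single i 1)))) (q y) = _
    rw [Fintype.linearCombination_apply]
    refine Finset.sum_congr rfl fun i _ => ?_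
    rw [map_smul]
    rfl
  have hbκ : ∀ i, κ (b i) = 1 := by
    intro i
    have h1 : b i ∈ κ.ker := by
      rw [← hb.2]
      exact ⟨FreeGroup.of i, FreeGroup.lift_apply_of⟩
    exact h1
  -- the coordinatewise map kills the sums `bsum`
  have hq0 : ∀ (v : ι →₀ (Fin r → ZG G)), q (bsum b v) = 0 := by
    intro v
    funext j
    show zmap κ ((bsum b v) j) = 0
    rw [bsum, Finsupp.sum, Finset.sum_apply, map_sum]
    refine Finset.sum_eq_zero fun i _ => ?_
    rw [Pi.sub_apply, Pi.smul_apply, smul_eq_mul, map_sub, map_mul, zmap_el, hbκ, el_one, one_mul,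
      sub_self]
  have hqadd : ∀ y y', q (y + y') = q y + q y' := fun y y' => funext fun i => map_add _ _ _
  have hqsub : ∀ y y', q (y - y') = q y - q y' := fun y y' => funext fun i => map_sub _ _ _
  have hqsmul : ∀ (a : ZG G) y, q (a • y) = zmap κ a • q y := fun a y => funext fun i => map_mul _ _ _
  let p' : LinearMap.ker f →ₗ[ZG G] Res (zmap κ) (LinearMap.ker f') :=
    { toFun := fun y => (⟨q y.1, by
        rw [LinearMap.mem_ker, hf', LinearMap.mem_ker.1 y.2]
        exact map_zero p⟩ : LinearMap.ker f')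
      map_add' := fun y y' => Subtype.ext (hqadd y.1 y'.1)
      map_smul' := fun a y => Subtype.ext (hqsmul a y.1) }
  refine ⟨f', p', ?_, ?_, ?_⟩
  · intro m'
    obtain ⟨m, hm⟩ := hp.1 m'
    obtain ⟨y, hy⟩ := hf m
    refine ⟨q y, ?_⟩
    rw [hf', hy, hm]
  · rintro ⟨c', hc'⟩
    choose c hc using fun i => zmap_surjective κ hκ (c' i)
    have hqc : q c = c' := funext hc
    have h1 : p (f c) = 0 := by
      have h2 := hf' c
      rw [hqc, LinearMap.mem_ker.1 hc'] at h2
      exact h2.symm
    have h3 : f c ∈ IR κ.ker M := by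
      rw [← hp.2]
      exact h1
    obtain ⟨v, hv⟩ := (mem_IR_iff b κ.ker hb (f c)).1 h3
    choose s hs using hf
    let s' : M → (Fin r → ZG G) := fun m => if m = 0 then 0 else s m
    have hs' : ∀ m, f (s' m) = m := by
      intro m
      by_cases hm : m = 0
      · show f (if m = 0 then 0 else s m) = m
        rw [if_pos hm, map_zero, hm]
      · show f (if m = 0 then 0 else s m) = m
        rw [if_neg hm, hs]
    have hs0 : s' 0 = 0 := if_pos rfl
    let w : ι →₀ (Fin r → ZG G) := Finsupp.mapRange s' hs0 v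
    have hfw : f (bsum b w) = bsum b v := by
      refine r6_map_bsum b f w v (fun i => ?_) fun i hi => ?_
      · rw [Finsupp.mapRange_apply, hs']
      · rw [Finsupp.mem_support_iff] at hi ⊢
        rw [Finsupp.mapRange_apply]
        intro h0
        apply hi
        rw [← hs' (v i), h0, map_zero]
    have hmem : c - bsum b w ∈ LinearMap.ker f := by
      rw [LinearMap.mem_ker, map_sub, hfw, hv, sub_self]
    refine ⟨⟨c - bsum b w, hmem⟩, Subtype.ext ?_⟩
    show q (c - bsum b w) = c'
    rw [hqsub, hq0, sub_zero, hqc]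
  · ext y
    rw [LinearMap.mem_ker, mem_IR_iff b κ.ker hb]
    constructor
    · intro hy
      have h1 : q y.1 = 0 := congrArg Subtype.val hy
      have h2 : y.1 ∈ IR κ.ker (Fin r → ZG G) :=
        (zmap_pi_eq_zero_iff κ r y.1).1 fun i => congrFun h1 i
      obtain ⟨v, hv⟩ := (mem_IR_iff b κ.ker hb y.1).1 h2
      have hfv : ∀ i, f (v i) = 0 := by
        let u : ι →₀ M := Finsupp.mapRange f (map_zero f) v
        have h3 : f (bsum b v) = bsum b u := by
          refine r6_map_bsum b f v u (fun i => rfl) fun i hi => ?_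
          rw [Finsupp.mem_support_iff] at hi ⊢
          intro h0
          apply hi
          rw [Finsupp.mapRange_apply, h0, map_zero]
        rw [← hv, LinearMap.mem_ker.1 y.2] at h3
        have h4 := hM u h3.symm
        intro i
        have h5 := DFunLike.congr_fun h4 i
        rwa [Finsupp.mapRange_apply] at h5
      let g : (Fin r → ZG G) → LinearMap.ker f := fun m => if h : f m = 0 then ⟨m, h⟩ else 0
      have hg0 : g 0 = 0 := by
        show (if h : f 0 = 0 then (⟨0, h⟩ : LinearMap.ker f) else 0) = 0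
        rw [dif_pos (map_zero f)]
        rfl
      let w : ι →₀ LinearMap.ker f := Finsupp.mapRange g hg0 v
      have hw : ∀ i, (w i).1 = v i := by
        intro i
        have h5 : w i = g (v i) := Finsupp.mapRange_apply
        rw [h5]
        show ((if h : f (v i) = 0 then (⟨v i, h⟩ : LinearMap.ker f) else 0) : LinearMap.ker f).1 = v i
        rw [dif_pos (hfv i)]
      refine ⟨w, Subtype.ext ?_⟩
      have h6 : (LinearMap.ker f).subtype (bsum b w) = bsum b v := by
        refine r6_map_bsum b (LinearMap.ker f).subtype w v hw fun i hi => ?_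
        rw [Finsupp.mem_support_iff] at hi ⊢
        intro h0
        apply hi
        rw [← hw i, h0]
        rfl
      rw [hv, ← h6]
      rfl
    · rintro ⟨v, hv⟩
      apply Subtype.ext
      show q y.1 = 0
      let u : ι →₀ (Fin r → ZG G) := Finsupp.mapRange (LinearMap.ker f).subtype (map_zero _) v
      have h6 : (LinearMap.ker f).subtype (bsum b v) = bsum b u := by
        refine r6_map_bsum b (LinearMap.ker f).subtype v u (fun i => rfl) fun i hi => ?_
        rw [Finsupp.mem_support_iff] at hi ⊢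
        intro h0
        apply hi
        rw [Finsupp.mapRange_apply, h0, map_zero]
      have h7 : y.1 = bsum b u := by
        rw [hv, ← h6]
        rfl
      rw [h7, hq0]
-- END R6

-- BEGIN R7
theorem RF.step (κ : G →* Γ) (hκ : Function.Surjective κ) (b : ι → G) (hb : IsBasis b κ.ker)
    (j : ℕ) (h : RF κ b (j + 1) M) (r : ℕ) (f : (Fin r → ZG G) →ₗ[ZG G] M)
    (hf : Function.Surjective f) : RF κ b j (LinearMap.ker f) := by
  obtain ⟨hInj, M', i1, i2, p, hp, hFP⟩ := h
  obtain ⟨f', p', hf', hp'⟩ := co_ker κ hκ b hb hInj p hp r f hf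
  exact ⟨InjB.submodule b _ (InjB.pi b r (InjB.ring b hb.1)), LinearMap.ker f', inferInstance,
    inferInstance, p', hp', FP.ker j f' hf' (FP.free j r) hFP⟩

theorem RF.fin (κ : G →* Γ) (hκ : Function.Surjective κ) (b : ι → G) (h : RF κ b 0 M) :
    ∃ T : Set M, T.Finite ∧ Submodule.span (ZG G) T ⊔ IR κ.ker M = ⊤ := by
  obtain ⟨_, M', i1, i2, p, hp, hFP⟩ := h
  have hfin : Module.Finite (ZG Γ) M' := hFP
  obtain ⟨n, g, hg⟩ := Module.Finite.exists_fin' (ZG Γ) M'
  choose m hm using fun i : Fin n => hp.1 (g (Pi.single i 1))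
  refine ⟨Set.range m, Set.finite_range m, ?_⟩
  rw [eq_top_iff]
  rintro x -
  obtain ⟨c', hc'⟩ := hg (p x)
  choose c hc using fun i => zmap_surjective κ hκ (c' i)
  have h1 : p (∑ i, c i • m i) = p x := by
    rw [map_sum, ← hc']
    have h2 : g c' = ∑ i, c' i • g (Pi.single i 1) := by
      conv_lhs => rw [pi_eq_sum_univ' c']
      rw [map_sum]
      refine Finset.sum_congr rfl fun i _ => ?_
      rw [← g.map_smul]
    rw [h2]
    refine Finset.sum_congr rfl fun i _ => ?_
    rw [map_smul, hm, ← hc i]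
    rfl
  have h3 : x - ∑ i, c i • m i ∈ IR κ.ker M := by
    rw [← hp.2, LinearMap.mem_ker, map_sub, h1, sub_self]
  rw [← add_sub_cancel (∑ i, c i • m i) x]
  refine Submodule.add_mem_sup (Submodule.sum_mem _ fun i _ => ?_) h3
  exact Submodule.smul_mem _ _ (Submodule.subset_span ⟨i, rfl⟩)
-- END R7

-- BEGIN R8
private theorem r8_map_mem (R : Subgroup G) (f : M →ₗ[ZG G] N) {x : M} (hx : x ∈ IR R M) :
    f x ∈ IR R N := by
  rw [IR] at hx
  induction hx using Submodule.span_induction with
  | mem x hx =>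
    obtain ⟨ρ, hρ, m, rfl⟩ := hx
    exact Submodule.subset_span ⟨ρ, hρ, f m, by rw [map_sub, map_smul]⟩
  | zero => rw [map_zero]; exact Submodule.zero_mem _
  | add x y _ _ hx hy => rw [map_add]; exact Submodule.add_mem _ hx hy
  | smul a x _ hx => rw [map_smul]; exact Submodule.smul_mem _ _ hx

/-- base change of modules of type `FP j` -/
theorem RF.base (κ : G →* Γ) (hκ : Function.Surjective κ) (b : ι → G) (hb : IsBasis b κ.ker) :
    ∀ (j : ℕ) {M : Type} [AddCommGroup M] [Module (ZG G) M] {M' : Type} [AddCommGroup M']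
      [Module (ZG Γ) M'], FP (ZG G) j M → InjB b M →
      ∀ p : M →ₗ[ZG G] Res (zmap κ) M', IsCo κ p → FP (ZG Γ) j M' := by
  intro j
  induction j with
  | zero =>
    intro M _ _ M' _ _ hM _ p hp
    have h1 : Module.Finite (ZG G) M := hM
    exact Res.finite_of_res (zmap κ) (Module.Finite.of_surjective p hp.1)
  | succ j ih =>
    intro M _ _ M' _ _ hM hI p hp
    obtain ⟨r, f, hf, hk⟩ := hM
    obtain ⟨f', p', hf', hp'⟩ := co_ker κ hκ b hb hI p hp r f hf
    exact ⟨r, f', hf', ih hk (InjB.submodule b _ (InjB.pi b r (InjB.ring b hb.1))) p' hp'⟩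

theorem RF.free (κ : G →* Γ) (hκ : Function.Surjective κ) (b : ι → G) (hb : IsBasis b κ.ker)
    (j r : ℕ) : RF κ b j (Fin r → ZG G) := by
  let p : (Fin r → ZG G) →ₗ[ZG G] Res (zmap κ) (Fin r → ZG Γ) :=
    { toFun := fun y => (fun i => zmap κ (y i) : Fin r → ZG Γ)
      map_add' := fun y y' => funext fun i => map_add _ _ _
      map_smul' := fun a y => funext fun i => map_mul _ _ _ }
  refine ⟨InjB.pi b r (InjB.ring b hb.1), Fin r → ZG Γ, inferInstance, inferInstance, p,
    ⟨?_, ?_⟩, FP.free j r⟩
  · intro y'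
    choose y hy using fun i => zmap_surjective κ hκ ((show Fin r → ZG Γ from y') i)
    exact ⟨y, funext hy⟩
  · ext y
    rw [← zmap_pi_eq_zero_iff, LinearMap.mem_ker]
    exact funext_iff

theorem RF.prod (κ : G →* Γ) (b : ι → G) (j : ℕ) (h : RF κ b j M) (h' : RF κ b j N) :
    RF κ b j (M × N) := by
  obtain ⟨hI, M', i1, i2, p, hp, hFP⟩ := h
  obtain ⟨hI', N', i1', i2', p', hp', hFP'⟩ := h'
  let q : (M × N) →ₗ[ZG G] Res (zmap κ) (M' × N') :=
    { toFun := fun y => ((show M' from p y.1, show N' from p' y.2) : M' × N')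
      map_add' := fun y y' => Prod.ext (map_add p _ _) (map_add p' _ _)
      map_smul' := fun a y => Prod.ext (map_smul p _ _) (map_smul p' _ _) }
  refine ⟨InjB.prod b hI hI', M' × N', inferInstance, inferInstance, q, ⟨?_, ?_⟩,
    FP.prod j hFP hFP'⟩
  · rintro ⟨x, y⟩
    obtain ⟨m, hm⟩ := hp.1 x
    obtain ⟨n, hn⟩ := hp'.1 y
    exact ⟨(m, n), Prod.ext hm hn⟩
  · ext y
    constructor
    · intro hy
      have h1 : p y.1 = 0 := congrArg (Prod.fst (α := M') (β := N')) hy
      have h2 : p' y.2 = 0 := congrArg (Prod.snd (α := M') (β := N')) hy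
      have h3 : y.1 ∈ IR κ.ker M := by
        rw [← hp.2]
        exact h1
      have h4 : y.2 ∈ IR κ.ker N := by
        rw [← hp'.2]
        exact h2
      have h5 := Submodule.add_mem _ (r8_map_mem κ.ker (LinearMap.inl (ZG G) M N) h3)
        (r8_map_mem κ.ker (LinearMap.inr (ZG G) M N) h4)
      have h6 : LinearMap.inl (ZG G) M N y.1 + LinearMap.inr (ZG G) M N y.2 = y := by
        rw [LinearMap.inl_apply, LinearMap.inr_apply, Prod.mk_add_mk, add_zero, zero_add]
      rwa [h6] at h5
    · intro hy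
      have h3 := r8_map_mem κ.ker (LinearMap.fst (ZG G) M N) hy
      have h4 := r8_map_mem κ.ker (LinearMap.snd (ZG G) M N) hy
      rw [← hp.2] at h3
      rw [← hp'.2] at h4
      exact Prod.ext h3 h4
-- END R8

end

end Pool.Agent.Lib.MP_d943a5_al
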