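import Pool.Agent.Lib.MP_d943a5_al.FPMod

/-!
# Restriction of scalars along a ring homomorphism (noncommutative rings)
-/

set_option autoImplicit false

namespace Pool.Agent.Lib.MP_d943a5_al

/-- `M` regarded as a module over `S` by means of `σ : S →+* R` -/
def Res {S R : Type} [Ring S] [Ring R] (_σ : S →+* R) (M : Type) : Type := M

section

variable {S R : Type} [Ring S] [Ring R] (σ : S →+* R)
variable {M N : Type} [AddCommGroup M] [Module R M] [AddCommGroup N] [Module R N]

instance : AddCommGroup (Res σ M) := inferInstanceAs (AddCommGroup M)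

instance : Module S (Res σ M) := Module.compHom M σ

theorem Res.smul_def (s : S) (m : M) : (s • (show Res σ M from m) : Res σ M) =
    (show Res σ M from (σ s • m : M)) := rfl

/-- a linear map after restriction of scalars -/
def Res.map (f : M →ₗ[R] N) : Res σ M →ₗ[S] Res σ N where
  toFun m := f m
  map_add' x y := f.map_add x y
  map_smul' s x := f.map_smul (σ s) x

@[simp] theorem Res.map_apply (f : M →ₗ[R] N) (m : M) :
    Res.map σ f (show Res σ M from m) = (show Res σ N from f m) := rfl

/-- a linear equivalence after restriction of scalars -/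
noncomputable def Res.equiv (e : M ≃ₗ[R] N) : Res σ M ≃ₗ[S] Res σ N :=
  LinearEquiv.ofBijective (Res.map σ e.toLinearMap) e.bijective

/-- kernels and restriction of scalars -/
def Res.kerEquiv (f : M →ₗ[R] N) :
    Res σ (LinearMap.ker f) ≃ₗ[S] LinearMap.ker (Res.map σ f) where
  toFun x := ⟨(x : LinearMap.ker f).1, (x : LinearMap.ker f).2⟩
  invFun x := (⟨x.1, x.2⟩ : LinearMap.ker f)
  left_inv _ := rfl
  right_inv _ := rfl
  map_add' _ _ := rfl
  map_smul' _ _ := rfl

/-- restriction of scalars for functions -/
def Res.piEquiv (n : ℕ) : Res σ (Fin n → M) ≃ₗ[S] (Fin n → Res σ M) where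
  toFun x := x
  invFun x := x
  left_inv _ := rfl
  right_inv _ := rfl
  map_add' _ _ := rfl
  map_smul' _ _ := rfl

/-- transitivity of restriction of scalars -/
def Res.compEquiv {T : Type} [Ring T] (τ : T →+* S) :
    Res (σ.comp τ) M ≃ₗ[T] Res τ (Res σ M) where
  toFun x := x
  invFun x := x
  left_inv _ := rfl
  right_inv _ := rfl
  map_add' _ _ := rfl
  map_smul' _ _ := rfl

/-- equality of ring homomorphisms -/
def Res.congrHom {σ τ : S →+* R} (h : σ = τ) : Res σ M ≃ₗ[S] Res τ M where
  toFun x := x
  invFun x := x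
  left_inv _ := rfl
  right_inv _ := rfl
  map_add' _ _ := rfl
  map_smul' s x := by
    subst h
    rfl

/-- (CR1) If `R` is of type `FP n` over `S` and `M` of type `FP n` over `R`, then `M` is of type
`FP n` over `S`. -/
theorem FP.res : ∀ (n : ℕ) {M : Type} [AddCommGroup M] [Module R M],
    FP S n (Res σ R) → FP R n M → FP S n (Res σ M)
  | 0, M, _, _, hR, hM => by
    have h1 : Module.Finite S (Res σ (R : Type)) := hR
    have h2 : Module.Finite R M := hM
    obtain ⟨r, f, hf⟩ := Module.Finite.exists_fin' R M
    have h3 : Module.Finite S (Fin r → Res σ (R : Type)) := inferInstance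
    have h4 : Module.Finite S (Res σ (Fin r → R)) := Module.Finite.equiv (Res.piEquiv σ r).symm
    exact Module.Finite.of_surjective (Res.map σ f) hf
  | n + 1, M, _, _, hR, hM => by
    obtain ⟨r, f, hf, hk⟩ := hM
    have h1 : FP S (n + 1) (Res σ (Fin r → R)) :=
      FP.equiv (Res.piEquiv σ r).symm (FP.pi (n + 1) r hR)
    have h2 : FP S n (LinearMap.ker (Res.map σ f)) :=
      FP.equiv (Res.kerEquiv σ f) (FP.res n hR.pred hk)
    exact FP.quot n (Res.map σ f) hf h1 h2

/-- finite generation over `S` implies finite generation over `R` -/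
theorem Res.finite_of_res (h : Module.Finite S (Res σ M)) : Module.Finite R M := by
  obtain ⟨r, f, hf⟩ := Module.Finite.exists_fin' S (Res σ M)
  let g : (Fin r → R) →ₗ[R] M := Fintype.linearCombination R
    (fun i => (show M from f (Pi.single i 1)))
  refine Module.Finite.of_surjective g ?_
  intro m
  obtain ⟨y, hy⟩ := hf m
  refine ⟨fun i => σ (y i), ?_⟩
  have h1 : f y = ∑ i, y i • f (Pi.single i 1) := by
    conv_lhs => rw [pi_eq_sum_univ' y]
    rw [map_sum]
    refine Finset.sum_congr rfl fun i _ => ?_
    rw [← f.map_smul]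
  rw [← hy, h1, Fintype.linearCombination_apply]
  rfl

/-- If `R` is free of finite rank over `S`, then `FP n` over `S` implies `FP n` over `R`. -/
theorem FP.of_res (s : ℕ) (e : Res σ R ≃ₗ[S] (Fin s → S)) : ∀ (n : ℕ) {M : Type}
    [AddCommGroup M] [Module R M], FP S n (Res σ M) → FP R n M
  | 0, M, _, _, hM => Res.finite_of_res σ hM
  | n + 1, M, _, _, hM => by
    have h0 : FP R 0 M := FP.of_res s e 0 (FP.mono (Nat.zero_le _) hM)
    have h1 : Module.Finite R M := h0
    obtain ⟨r, f, hf⟩ := Module.Finite.exists_fin' R M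
    refine ⟨r, f, hf, ?_⟩
    apply FP.of_res s e n
    refine FP.equiv (Res.kerEquiv σ f).symm ?_
    refine FP.ker n (Res.map σ f) hf ?_ hM
    refine FP.equiv (Res.piEquiv σ r).symm (FP.pi n r ?_)
    exact FP.equiv e.symm (FP.free n s)

end

end Pool.Agent.Lib.MP_d943a5_al
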