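import Pool.Agent.Lib.MP_d943a5_al.GR

/-!
# Small endomorphisms
-/

set_option autoImplicit false

namespace Pool.Agent.Lib.MP_d943a5_al

section

variable {G : Type} [Group G]

/-- `ρ - 1` factors on `K` through a free `ℤA`-module of finite rank -/
def Small (A : Subgroup G) (ρ : G) (K : Type) [AddCommGroup K] [Module (ZG G) K] : Prop :=
  ∃ (k : ℕ) (α : Res (zmap A.subtype) K →ₗ[ZG A] (Fin k → ZG A))
    (β : (Fin k → ZG A) →ₗ[ZG A] Res (zmap A.subtype) K),
    ∀ m : K, el ρ • m - m = (show K from β (α (show Res (zmap A.subtype) K from m)))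

/-- the submodule `I_R M` -/
noncomputable def IR (R : Subgroup G) (M : Type) [AddCommGroup M] [Module (ZG G) M] :
    Submodule (ZG G) M :=
  Submodule.span (ZG G) {x | ∃ ρ ∈ R, ∃ m : M, x = el ρ • m - m}

variable {K C : Type} [AddCommGroup K] [Module (ZG G) K] [AddCommGroup C] [Module (ZG G) C]

-- BEGIN S1
theorem Small.triv (A : Subgroup G) (ρ : G) : Small A ρ (Triv G) := by
  refine ⟨0, 0, 0, fun m => ?_⟩
  show el ρ • m - m = 0
  rw [sub_eq_zero]
  show aug G (el ρ) • (show ℤ from m) = (show ℤ from m)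
  rw [aug_el, one_smul]

theorem s1_comm (A : Subgroup G) (ρ : G) (hρ : ∀ a ∈ A, ρ * a = a * ρ) (y : ZG A) :
    el ρ * zmap A.subtype y = zmap A.subtype y * el ρ := by
  induction y using zg_induction with
  | h1 a =>
    rw [zmap_el, ← el_mul, ← el_mul]
    exact congrArg el (hρ a a.2)
  | h0 => rw [map_zero, mul_zero, zero_mul]
  | hadd x y hx hy => rw [map_add, mul_add, add_mul, hx, hy]
  | hneg x hx => rw [map_neg, mul_neg, neg_mul, hx]

/-- smallness passes to kernels -/
theorem Small.ker (A : Subgroup G) (ρ : G) (hρ : ∀ a ∈ A, ρ * a = a * ρ) (p : C →ₗ[ZG G] K)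
    (hp : Function.Surjective p) (k : ℕ)
    (e : Res (zmap A.subtype) C ≃ₗ[ZG A] (Fin k → ZG A)) (h : Small A ρ K) :
    Small A ρ (LinearMap.ker p) := by
  obtain ⟨k', α, β, hαβ⟩ := h
  have hp' : Function.Surjective (Res.map (zmap A.subtype) p) := hp
  obtain ⟨b, hb⟩ := Module.projective_lifting_property (Res.map (zmap A.subtype) p) β hp'
  have hb' : ∀ y, (Res.map (zmap A.subtype) p) (b y) = β y := fun y => by rw [← hb]; rfl
  let v : Res (zmap A.subtype) C →ₗ[ZG A] Res (zmap A.subtype) C :=
    { toFun := fun c => (show C from (el ρ • (show C from c) - (show C from c)))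
      map_add' := fun x y => by
        show (el ρ • ((show C from x) + (show C from y)) - ((show C from x) + (show C from y)) : C) =
          (el ρ • (show C from x) - (show C from x)) + (el ρ • (show C from y) - (show C from y))
        rw [smul_add]
        abel
      map_smul' := fun a x => by
        show (el ρ • (zmap A.subtype a • (show C from x)) - zmap A.subtype a • (show C from x) : C) =
          zmap A.subtype a • (el ρ • (show C from x) - (show C from x))
        rw [smul_sub, smul_smul, smul_smul, s1_comm A ρ hρ a] }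
  have hv : ∀ c : C, (show C from v (show Res (zmap A.subtype) C from c)) = el ρ • c - c := fun c => rfl
  let u : Res (zmap A.subtype) C →ₗ[ZG A] Res (zmap A.subtype) C :=
    v - (b.comp (α.comp (Res.map (zmap A.subtype) p)))
  have hu : ∀ c, u c ∈ LinearMap.ker (Res.map (zmap A.subtype) p) := by
    intro c
    rw [LinearMap.mem_ker]
    show (Res.map (zmap A.subtype) p) (v c - b (α (Res.map (zmap A.subtype) p c))) = 0
    rw [map_sub, hb']
    have h1 : Res.map (zmap A.subtype) p (v c) = (show Res (zmap A.subtype) K from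
        (el ρ • p (show C from c) - p (show C from c))) := by
      show p (el ρ • (show C from c) - (show C from c)) = _
      rw [map_sub, map_smul]
    rw [h1]
    have h2 := hαβ (p (show C from c))
    show (el ρ • p (show C from c) - p (show C from c) : K) -
      (show K from β (α (show Res (zmap A.subtype) K from p (show C from c)))) = 0
    rw [h2, sub_self]
  refine ⟨k, e.toLinearMap.comp (Res.map (zmap A.subtype) (LinearMap.ker p).subtype),
    ((Res.kerEquiv (zmap A.subtype) p).symm.toLinearMap.comp (u.codRestrict _ hu)).comp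
      e.symm.toLinearMap, fun m => ?_⟩
  apply Subtype.ext
  show (el ρ • (m : C) - (m : C) : C) = (show C from u (e.symm (e (show Res (zmap A.subtype) C from (m : C)))))
  rw [LinearEquiv.symm_apply_apply]
  show (el ρ • (m : C) - (m : C) : C) =
    (el ρ • (m : C) - (m : C)) - (show C from b (α (Res.map (zmap A.subtype) p (show Res (zmap A.subtype) C from (m : C)))))
  have h3 : Res.map (zmap A.subtype) p (show Res (zmap A.subtype) C from (m : C)) = 0 := m.2
  rw [h3, map_zero, map_zero]
  exact (sub_zero _).symm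
-- END S1

-- BEGIN S2
theorem Small.finite_span (A : Subgroup G) (ρ : G) (h : Small A ρ K) :
    ∃ T : Set K, T.Finite ∧ ∀ m : K, el ρ • m - m ∈ Submodule.span (ZG G) T := by
  obtain ⟨k, α, β, hαβ⟩ := h
  refine ⟨Set.range (fun i : Fin k => (show K from β (Pi.single i 1))), Set.finite_range _,
    fun m => ?_⟩
  rw [hαβ m]
  have key : ∀ y : Fin k → ZG A, (show K from β y) ∈ Submodule.span (ZG G)
      (Set.range (fun i : Fin k => (show K from β (Pi.single i 1)))) := by
    intro y
    have h1 : β y = ∑ i, y i • β (Pi.single i 1) := by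
      conv_lhs => rw [pi_eq_sum_univ' y]
      rw [map_sum]
      refine Finset.sum_congr rfl fun i _ => ?_
      rw [← β.map_smul]
    rw [h1]
    refine Submodule.sum_mem (M := K) _ fun i _ => ?_
    exact Submodule.smul_mem (M := K) _ (zmap A.subtype (y i)) (Submodule.subset_span ⟨i, rfl⟩)
  exact key _

/-- the image of `I_R` under a surjective map -/
theorem IR_map (R : Subgroup G) (f : K →ₗ[ZG G] C) (hf : Function.Surjective f) :
    (IR R K).map f = IR R C := by
  unfold IR
  rw [Submodule.map_span]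
  congr 1
  ext x
  constructor
  · rintro ⟨_, ⟨ρ, hρ, m, rfl⟩, rfl⟩
    exact ⟨ρ, hρ, f m, by rw [map_sub, map_smul]⟩
  · rintro ⟨ρ, hρ, c, rfl⟩
    obtain ⟨m, rfl⟩ := hf c
    exact ⟨el ρ • m - m, ⟨ρ, hρ, m, rfl⟩, by rw [map_sub, map_smul]⟩

/-- the group elements acting as the identity modulo a submodule -/
noncomputable def s2_sub (Y : Submodule (ZG G) K) : Subgroup G where
  carrier := {ρ | ∀ m : K, el ρ • m - m ∈ Y}
  one_mem' := by
    intro m
    rw [el_one, one_smul, sub_self]
    exact Y.zero_mem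
  mul_mem' := by
    intro ρ σ hρ hσ m
    have e : el (ρ * σ) • m - m = (el ρ • (el σ • m) - el σ • m) + (el σ • m - m) := by
      rw [el_mul, mul_smul]
      abel
    rw [e]
    exact Y.add_mem (hρ _) (hσ _)
  inv_mem' := by
    intro ρ hρ m
    have e : el ρ⁻¹ • m - m = -(el ρ • (el ρ⁻¹ • m) - el ρ⁻¹ • m) := by
      rw [← mul_smul, el_mul_inv, one_smul]
      abel
    rw [e]
    exact Y.neg_mem (hρ _)

theorem s2_normal (Y : Submodule (ZG G) K) : (s2_sub Y).Normal := by
  constructor
  intro ρ hρ g m
  have e : el (g * ρ * g⁻¹) • m - m = el g • (el ρ • (el g⁻¹ • m) - el g⁻¹ • m) := by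
    rw [el_mul, el_mul, smul_sub, ← mul_smul, ← mul_smul, ← mul_smul, el_mul_inv, one_smul]
  rw [e]
  exact Y.smul_mem _ (hρ _)

/-- finite generation modulo `I_R` implies finite generation -/
theorem keyFG (A R : Subgroup G) [R.Normal] (S : Set G) (hS : S.Finite)
    (hR : Subgroup.normalClosure S = R) (hsm : ∀ ρ ∈ S, Small A ρ K) (T : Set K) (hT : T.Finite)
    (h : Submodule.span (ZG G) T ⊔ IR R K = ⊤) : Module.Finite (ZG G) K := by
  classical
  have h1 : ∀ ρ : G, ∃ T' : Set K, T'.Finite ∧
      (ρ ∈ S → ∀ m : K, el ρ • m - m ∈ Submodule.span (ZG G) T') := by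
    intro ρ
    by_cases hρ : ρ ∈ S
    · obtain ⟨T', hT', h'⟩ := Small.finite_span A ρ (hsm ρ hρ)
      exact ⟨T', hT', fun _ => h'⟩
    · exact ⟨∅, Set.finite_empty, fun h' => absurd h' hρ⟩
  choose U hU hU' using h1
  let W : Set K := T ∪ ⋃ ρ ∈ S, U ρ
  have hW : W.Finite := hT.union (hS.biUnion fun ρ _ => hU ρ)
  have h2 : S ⊆ (s2_sub (Submodule.span (ZG G) W) : Set G) := by
    intro ρ hρ m
    refine Submodule.span_mono ?_ (hU' ρ hρ m)
    intro x hx
    exact Or.inr (Set.mem_biUnion hρ hx)
  have h3 : R ≤ s2_sub (Submodule.span (ZG G) W) := by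
    have := s2_normal (Submodule.span (ZG G) W)
    rw [← hR]
    exact Subgroup.normalClosure_le_normal h2
  have h4 : IR R K ≤ Submodule.span (ZG G) W := by
    refine Submodule.span_le.2 ?_
    rintro _ ⟨ρ, hρ, m, rfl⟩
    exact h3 hρ m
  have h5 : Submodule.span (ZG G) W = ⊤ := by
    rw [eq_top_iff, ← h]
    exact sup_le (Submodule.span_mono Set.subset_union_left) h4
  exact ⟨⟨hW.toFinset, by rw [Set.Finite.coe_toFinset]; exact h5⟩⟩
-- END S2

end

end Pool.Agent.Lib.MP_d943a5_al
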