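import Pool.Agent.Lib.MP_d943a5_al.RFmod

/-!
# Fibre products over a free group and the relation module
-/

set_option autoImplicit false

namespace Pool.Agent.Lib.MP_d943a5_al

/-- `G` is the fibre product of `Γ → Q` and `F → Q` -/
structure Square (G Γ F Q : Type) [Group G] [Group Γ] [Group F] [Group Q] where
  /-- projection to `F` -/
  π : G →* F
  /-- projection to `Γ` -/
  κ : G →* Γ
  /-- the map `F → Q` -/
  q : F →* Q
  /-- the map `Γ → Q` -/
  θ : Γ →* Q
  comm : ∀ g, θ (κ g) = q (π g)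
  hπ : Function.Surjective π
  hκ : Function.Surjective κ
  hq : Function.Surjective q
  inj : ∀ g, κ g = 1 → π g = 1 → g = 1
  lift : ∀ f, q f = 1 → ∃ g, κ g = 1 ∧ π g = f

section

variable {G Γ F Q : Type} [Group G] [Group Γ] [Group F] [Group Q]

-- BEGIN Q1
theorem Square.hθ (S : Square G Γ F Q) : Function.Surjective S.θ := by
  intro x
  obtain ⟨f, rfl⟩ := S.hq x
  obtain ⟨g, rfl⟩ := S.hπ f
  exact ⟨S.κ g, S.comm g⟩

/-- the kernels of the two projections commute -/
theorem Square.commute (S : Square G Γ F Q) {ρ a : G} (hρ : ρ ∈ S.κ.ker) (ha : a ∈ S.π.ker) :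
    ρ * a = a * ρ := by
  have h1 : ρ * a * (a * ρ)⁻¹ = 1 := by
    apply S.inj
    · rw [map_mul, map_inv, map_mul, map_mul, MonoidHom.mem_ker.mp hρ, one_mul, mul_one,
        mul_inv_cancel]
    · rw [map_mul, map_inv, map_mul, map_mul, MonoidHom.mem_ker.mp ha, one_mul, mul_one,
        mul_inv_cancel]
  exact mul_inv_eq_one.mp h1

/-- the kernel of `G → F` is isomorphic to the kernel of `Γ → Q` -/
theorem Square.ker_equiv (S : Square G Γ F Q) : Nonempty (S.π.ker ≃* S.θ.ker) := by
  have hmem : ∀ g : S.π.ker, S.κ (g : G) ∈ S.θ.ker := by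
    intro g
    rw [MonoidHom.mem_ker, S.comm, MonoidHom.mem_ker.mp g.2, map_one]
  let f : S.π.ker →* S.θ.ker := (S.κ.comp S.π.ker.subtype).codRestrict S.θ.ker hmem
  have hf : ∀ g : S.π.ker, ((f g : S.θ.ker) : Γ) = S.κ (g : G) := fun g => rfl
  refine ⟨MulEquiv.ofBijective f ⟨?_, ?_⟩⟩
  · rw [injective_iff_map_eq_one]
    intro g hg
    refine Subtype.ext (S.inj _ ?_ (MonoidHom.mem_ker.mp g.2))
    rw [← hf, hg]
    rfl
  · intro γ
    obtain ⟨g, hg⟩ := S.hκ (γ : Γ)
    have h1 : S.q (S.π g) = 1 := by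
      rw [← S.comm, hg]
      exact MonoidHom.mem_ker.mp γ.2
    obtain ⟨g', h2, h3⟩ := S.lift _ h1
    have h4 : g * g'⁻¹ ∈ S.π.ker := by
      rw [MonoidHom.mem_ker, map_mul, map_inv, h3, mul_inv_cancel]
    refine ⟨⟨g * g'⁻¹, h4⟩, Subtype.ext ?_⟩
    rw [hf]
    show S.κ (g * g'⁻¹) = γ
    rw [map_mul, map_inv, h2, inv_one, mul_one, hg]
-- END Q1

-- BEGIN Q2
/-- the kernel of `G → Γ` is finitely generated as a normal subgroup if the kernel of `F → Q` is -/
theorem Square.ker_fng (S : Square G Γ F Q) (h : S.q.ker.IsFinitelyNormallyGenerated) :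
    S.κ.ker.IsFinitelyNormallyGenerated := by
  obtain ⟨T, hT, hTn⟩ := h
  have hl : ∀ t ∈ T, ∃ g, S.κ g = 1 ∧ S.π g = t := by
    intro t ht
    apply S.lift
    have h1 : t ∈ S.q.ker := by
      rw [← hTn]
      exact Subgroup.subset_normalClosure ht
    exact h1
  choose! l hl1 hl2 using hl
  refine ⟨l '' T, hT.image l, ?_⟩
  have hle : Subgroup.normalClosure (l '' T) ≤ S.κ.ker := by
    apply Subgroup.normalClosure_le_normal
    rintro _ ⟨t, ht, rfl⟩
    exact hl1 t ht
  apply le_antisymm hle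
  intro g hg
  have hg' : S.κ g = 1 := hg
  have h1 : S.π g ∈ S.q.ker := by
    change S.q (S.π g) = 1
    rw [← S.comm, hg', map_one]
  have h2 : S.π '' (l '' T) = T := by
    rw [Set.image_image]
    ext t
    constructor
    · rintro ⟨t', ht', rfl⟩
      change S.π (l t') ∈ T
      rw [hl2 t' ht']
      exact ht'
    · intro ht
      exact ⟨t, ht, hl2 t ht⟩
  have h3 : (Subgroup.normalClosure (l '' T)).map S.π = S.q.ker := by
    rw [Subgroup.map_normalClosure _ _ S.hπ, h2, hTn]
  rw [← h3] at h1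
  obtain ⟨g', hg'1, hg'2⟩ := h1
  have hk : S.κ g' = 1 := hle hg'1
  have h4 : g * g'⁻¹ = 1 := by
    apply S.inj
    · rw [map_mul, map_inv, hg', hk, inv_one, mul_one]
    · rw [map_mul, map_inv, hg'2, mul_inv_cancel]
  rw [mul_inv_eq_one.1 h4]
  exact hg'1
-- END Q2

-- BEGIN Q3
/-- lifting elements of the kernel of `ℤF → ℤQ` -/
theorem Square.lift_zmap (S : Square G Γ F Q) (y : ZG F) (hy : zmap S.q y = 0) :
    ∃ z ∈ IR S.κ.ker (ZG G), zmap S.π z = y := by
  have h1 : y ∈ IR S.q.ker (ZG F) := (zmap_eq_zero_iff S.q y).1 hy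
  induction h1 using Submodule.span_induction with
  | mem x hx =>
    obtain ⟨ρ, hρ, m, rfl⟩ := hx
    obtain ⟨g, hg1, hg2⟩ := S.lift ρ hρ
    obtain ⟨m', rfl⟩ := zmap_surjective S.π S.hπ m
    refine ⟨el g • m' - m', Submodule.subset_span ⟨g, hg1, m', rfl⟩, ?_⟩
    rw [smul_eq_mul, smul_eq_mul, map_sub, map_mul, zmap_el, hg2]
  | zero => exact ⟨0, Submodule.zero_mem _, map_zero _⟩
  | add a b ha hb iha ihb =>
    obtain ⟨z, hz, h2⟩ := iha ((zmap_eq_zero_iff S.q a).2 ha)
    obtain ⟨z', hz', h2'⟩ := ihb ((zmap_eq_zero_iff S.q b).2 hb)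
    exact ⟨z + z', Submodule.add_mem _ hz hz', by rw [map_add, h2, h2']⟩
  | smul c a ha iha =>
    obtain ⟨z, hz, h2⟩ := iha ((zmap_eq_zero_iff S.q a).2 ha)
    obtain ⟨c', rfl⟩ := zmap_surjective S.π S.hπ c
    exact ⟨c' • z, Submodule.smul_mem _ _ hz, by
      rw [smul_eq_mul, smul_eq_mul, map_mul, h2]⟩
-- END Q3

end

section

variable {r : ℕ} {Q : Type} [Group Q]

/-- the boundary map `ℤQ^r → ℤQ`, `e_x ↦ x - 1` -/
noncomputable def bd (q : FreeGroup (Fin r) →* Q) : (Fin r → ZG Q) →ₗ[ZG Q] ZG Q :=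
  Fintype.linearCombination (ZG Q) (fun x => el (q (FreeGroup.of x)) - 1)

-- BEGIN Q4
theorem q4_bd_apply (q : FreeGroup (Fin r) →* Q) (c : Fin r → ZG Q) :
    bd q c = ∑ x, c x * (el (q (FreeGroup.of x)) - 1) := by
  rw [bd, Fintype.linearCombination_apply]
  rfl

theorem bd_range (q : FreeGroup (Fin r) →* Q) (hq : Function.Surjective q) :
    LinearMap.range (bd q) = IG Q := by
  apply le_antisymm
  · rintro _ ⟨c, rfl⟩
    rw [q4_bd_apply, mem_IG, map_sum]
    refine Finset.sum_eq_zero fun x _ => ?_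
    rw [map_mul, map_sub, aug_el, map_one, sub_self, mul_zero]
  · intro y hy
    have h1 := IG_le_closure hy
    clear hy
    have h2 : ∀ w : FreeGroup (Fin r), el (q w) - 1 ∈ LinearMap.range (bd q) := by
      have hof : ∀ x, el (q (FreeGroup.of x)) - 1 ∈ LinearMap.range (bd q) := by
        intro x
        refine ⟨Pi.single x 1, ?_⟩
        rw [bd, Fintype.linearCombination_apply_single, one_smul]
      have hinv : ∀ w, el (q w) - 1 ∈ LinearMap.range (bd q) →
          el (q w⁻¹) - 1 ∈ LinearMap.range (bd q) := by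
        intro w hw
        have h3 : el (q w⁻¹) - 1 = -(el (q w⁻¹) • (el (q w) - 1)) := by
          rw [smul_eq_mul, mul_sub, mul_one, map_inv, el_inv_mul, neg_sub]
        rw [h3]
        exact Submodule.neg_mem _ (Submodule.smul_mem _ _ hw)
      intro w
      induction w using FreeGroup.induction_on with
      | C1 =>
        rw [map_one, el_one, sub_self]
        exact Submodule.zero_mem _
      | of x => exact hof x
      | inv_of x ih => exact hinv _ ih
      | mul f g hf hg =>
        have h3 : el (q (f * g)) - 1 = el (q f) • (el (q g) - 1) + (el (q f) - 1) := by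
          rw [smul_eq_mul, mul_sub, mul_one, map_mul, el_mul]
          abel
        rw [h3]
        exact Submodule.add_mem _ (Submodule.smul_mem _ _ hg) hf
    induction h1 using AddSubgroup.closure_induction with
    | mem x hx =>
      obtain ⟨g, rfl⟩ := hx
      obtain ⟨w, rfl⟩ := hq g
      exact h2 w
    | zero => exact Submodule.zero_mem _
    | add a b _ _ ha hb =>
      exact Submodule.add_mem _ ha hb
    | neg a _ ha => exact Submodule.neg_mem _ ha

theorem FP_ker_bd (q : FreeGroup (Fin r) →* Q) (hq : Function.Surjective q) (m : ℕ)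
    (h : GFP (m + 2) Q) : FP (ZG Q) m (LinearMap.ker (bd q)) := by
  have h1 : FP (ZG Q) (m + 1) (IG Q) := (GFP_succ_iff (m + 1)).1 h
  have h2 : ∀ c, bd q c ∈ IG Q := by
    intro c
    rw [← bd_range q hq]
    exact ⟨c, rfl⟩
  have h3 : FP (ZG Q) m (LinearMap.ker (LinearMap.codRestrict (IG Q) (bd q) h2)) := by
    refine FP.ker m _ ?_ (FP.free m r) h1
    rintro ⟨y, hy⟩
    have hy' : y ∈ LinearMap.range (bd q) := by
      rw [bd_range q hq]
      exact hy
    obtain ⟨c, hc⟩ := hy'
    exact ⟨c, Subtype.ext hc⟩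
  rw [LinearMap.ker_codRestrict] at h3
  exact h3
-- END Q4

-- BEGIN Q5
/-- the Fox derivatives -/
theorem foxD (r : ℕ) : ∃ φ : ZG (FreeGroup (Fin r)) →+ (Fin r → ZG (FreeGroup (Fin r))),
    (∀ a b, φ (a * b) = (aug _ b) • φ a + a • φ b) ∧
    (∀ x, φ (el (FreeGroup.of x)) = Pi.single x 1) ∧
    (∀ a, ∑ x, φ a x * (el (FreeGroup.of x) - 1) = a - (aug _ a) • 1) ∧
    (∀ c : Fin r → ZG (FreeGroup (Fin r)), φ (∑ x, c x * (el (FreeGroup.of x) - 1)) = c) := by
  classical
  obtain ⟨d, hd, hx⟩ := fox_exists (X := Fin r) (M := Fin r → ZG (FreeGroup (Fin r)))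
    (fun x => Pi.single x 1)
  obtain ⟨φ, hφ⟩ := exists_zg_hom (G := FreeGroup (Fin r)) d
  have h1 : ∀ a b, φ (a * b) = (aug _ b) • φ a + a • φ b := by
    intro a b
    induction b using zg_induction with
    | h1 g =>
      induction a using zg_induction with
      | h1 f => rw [← el_mul, hφ, hφ, hφ, hd, aug_el, one_smul]
      | h0 => rw [zero_mul, map_zero, smul_zero, zero_smul, add_zero]
      | hadd x y hx hy =>
        rw [add_mul, map_add, hx, hy, map_add, smul_add, add_smul]
        abel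
      | hneg x hx =>
        rw [neg_mul, map_neg, hx, map_neg, smul_neg, neg_smul]
        abel
    | h0 => rw [mul_zero, map_zero, map_zero, smul_zero, zero_smul, add_zero]
    | hadd x y hx hy =>
      rw [mul_add, map_add, hx, hy, map_add, map_add, smul_add, add_smul]
      abel
    | hneg x hx =>
      rw [mul_neg, map_neg, hx, map_neg, map_neg, smul_neg, neg_smul]
      abel
  have h0 : φ 1 = 0 := by
    have h2 := h1 1 1
    rw [mul_one, map_one (aug (FreeGroup (Fin r))), one_smul, one_smul] at h2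
    exact left_eq_add.1 h2
  have h2 : ∀ x, φ (el (FreeGroup.of x)) = Pi.single x 1 := by
    intro x
    rw [hφ, hx]
  refine ⟨φ, h1, h2, ?_, ?_⟩
  · have h3 : (fun f : FreeGroup (Fin r) => ∑ x, d f x * (el (FreeGroup.of x) - 1)) =
        fun f => el f - 1 := by
      refine fox_unique _ _ ?_ ?_ ?_
      · intro f g
        change ∑ x, d (f * g) x * (el (FreeGroup.of x) - 1) =
          ∑ x, d f x * (el (FreeGroup.of x) - 1) +
            el f • ∑ x, d g x * (el (FreeGroup.of x) - 1)
        rw [smul_eq_mul, Finset.mul_sum, ← Finset.sum_add_distrib]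
        refine Finset.sum_congr rfl fun x _ => ?_
        rw [hd, Pi.add_apply, Pi.smul_apply, smul_eq_mul, add_mul, mul_assoc]
      · intro f g
        change el (f * g) - 1 = (el f - 1) + el f • (el g - 1)
        rw [smul_eq_mul, el_mul, mul_sub, mul_one]
        abel
      · intro x
        change ∑ y, d (FreeGroup.of x) y * (el (FreeGroup.of y) - 1) = el (FreeGroup.of x) - 1
        rw [hx, Finset.sum_eq_single x]
        · rw [Pi.single_eq_same, one_mul]
        · intro y _ hy
          rw [Pi.single_eq_of_ne hy, zero_mul]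
        · intro h
          exact absurd (Finset.mem_univ x) h
    intro a
    induction a using zg_induction with
    | h1 f =>
      rw [hφ, aug_el, one_smul]
      exact congrFun h3 f
    | h0 =>
      rw [map_zero, map_zero, zero_smul, sub_zero]
      refine Finset.sum_eq_zero fun x _ => ?_
      rw [Pi.zero_apply, zero_mul]
    | hadd x y hx hy =>
      have h4 : ∑ i, φ (x + y) i * (el (FreeGroup.of i) - 1) =
          ∑ i, φ x i * (el (FreeGroup.of i) - 1) + ∑ i, φ y i * (el (FreeGroup.of i) - 1) := by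
        rw [← Finset.sum_add_distrib]
        refine Finset.sum_congr rfl fun i _ => ?_
        rw [map_add, Pi.add_apply, add_mul]
      rw [h4, hx, hy, map_add, add_smul]
      abel
    | hneg x hx =>
      have h4 : ∑ i, φ (-x) i * (el (FreeGroup.of i) - 1) =
          -∑ i, φ x i * (el (FreeGroup.of i) - 1) := by
        rw [← Finset.sum_neg_distrib]
        refine Finset.sum_congr rfl fun i _ => ?_
        rw [map_neg, Pi.neg_apply, neg_mul]
      rw [h4, hx, map_neg, neg_smul]
      abel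
  · intro c
    rw [map_sum]
    conv_rhs => rw [← Finset.univ_sum_single c]
    refine Finset.sum_congr rfl fun x _ => ?_
    rw [h1, map_sub, map_sub, aug_el, map_one, sub_self, zero_smul, zero_add, h2, h0, sub_zero]
    funext y
    rw [Pi.smul_apply, smul_eq_mul]
    by_cases h : y = x
    · subst h
      rw [Pi.single_eq_same, Pi.single_eq_same, mul_one]
    · rw [Pi.single_eq_of_ne h, Pi.single_eq_of_ne h, mul_zero]
-- END Q5

variable {G Γ : Type} [Group G] [Group Γ]

-- BEGIN Q6
/-- the sum map as an additive homomorphism -/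
noncomputable def q6_bs {H ι M : Type} [Group H] [AddCommGroup M] [Module (ZG H) M] (b : ι → H) :
    (ι →₀ M) →+ M :=
  Finsupp.liftAddHom (fun i => AddMonoidHom.mk' (fun m : M => el (b i) • m - m)
    (fun m m' => by rw [smul_add]; abel))

theorem q6_bs_eq {H ι M : Type} [Group H] [AddCommGroup M] [Module (ZG H) M] (b : ι → H)
    (v : ι →₀ M) : bsum b v = q6_bs b v := rfl

theorem q6_bs_single {H ι M : Type} [Group H] [AddCommGroup M] [Module (ZG H) M] (b : ι → H)
    (i : ι) (m : M) : bsum b (Finsupp.single i m) = el (b i) • m - m := by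
  rw [bsum, Finsupp.sum_single_index]
  rw [smul_zero, sub_zero]

theorem q6_add {H ι M : Type} [Group H] [AddCommGroup M] [Module (ZG H) M] (b : ι → H)
    (v w : ι →₀ M) : bsum b (v + w) = bsum b v + bsum b w := by
  rw [q6_bs_eq, q6_bs_eq, q6_bs_eq, map_add]

theorem q6_sub {H ι M : Type} [Group H] [AddCommGroup M] [Module (ZG H) M] (b : ι → H)
    (v w : ι →₀ M) : bsum b (v - w) = bsum b v - bsum b w := by
  rw [q6_bs_eq, q6_bs_eq, q6_bs_eq, map_sub]

theorem q6_zero {H ι M : Type} [Group H] [AddCommGroup M] [Module (ZG H) M] (b : ι → H) :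
    bsum b (0 : ι →₀ M) = 0 := Finsupp.sum_zero_index

theorem q6_map {H H' ι M N : Type} [Group H] [Group H'] [AddCommGroup M] [Module (ZG H) M]
    [AddCommGroup N] [Module (ZG H') N] (b : ι → H) (c : ι → H') (f : M →+ N)
    (hf : ∀ i m, f (el (b i) • m) = el (c i) • f m) (v : ι →₀ M) :
    f (bsum b v) = bsum c (v.mapRange f (map_zero f)) := by
  induction v using Finsupp.induction_linear with
  | zero => rw [q6_zero, map_zero, Finsupp.mapRange_zero, q6_zero]
  | add v w hv hw =>
    rw [q6_add, map_add, hv, hw, Finsupp.mapRange_add (fun x y => map_add f x y), q6_add]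
  | single i m =>
    rw [q6_bs_single, map_sub, hf, Finsupp.mapRange_single, q6_bs_single]

theorem q6_basis (S : Square G Γ (FreeGroup (Fin r)) Q) {ι : Type} (b : ι → G)
    (hb : IsBasis b S.κ.ker) : IsBasis (fun i => S.π (b i)) S.q.ker := by
  have h0 : FreeGroup.lift (fun i => S.π (b i)) = S.π.comp (FreeGroup.lift b) := by
    ext i
    simp
  constructor
  · rw [h0]
    intro x y hxy
    apply hb.1
    have h1 : S.π (FreeGroup.lift b x) = S.π (FreeGroup.lift b y) := hxy
    have hx : FreeGroup.lift b x ∈ S.κ.ker := by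
      rw [← hb.2]
      exact ⟨x, rfl⟩
    have hy : FreeGroup.lift b y ∈ S.κ.ker := by
      rw [← hb.2]
      exact ⟨y, rfl⟩
    have h2 : FreeGroup.lift b x * (FreeGroup.lift b y)⁻¹ = 1 := by
      apply S.inj
      · exact S.κ.ker.mul_mem hx (S.κ.ker.inv_mem hy)
      · rw [map_mul, map_inv, h1, mul_inv_cancel]
    exact mul_inv_eq_one.1 h2
  · rw [h0]
    apply le_antisymm
    · rintro _ ⟨x, rfl⟩
      have hx : FreeGroup.lift b x ∈ S.κ.ker := by
        rw [← hb.2]
        exact ⟨x, rfl⟩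
      have hx' : S.κ (FreeGroup.lift b x) = 1 := hx
      change S.q (S.π (FreeGroup.lift b x)) = 1
      rw [← S.comm, hx', map_one]
    · intro f hf
      obtain ⟨g, hg1, hg2⟩ := S.lift f hf
      have hg : g ∈ (FreeGroup.lift b).range := by
        rw [hb.2]
        exact hg1
      obtain ⟨x, hx⟩ := hg
      exact ⟨x, by rw [← hg2, ← hx]; rfl⟩

/-- the kernel of the map from the augmentation ideal of `G` to the relation module -/
theorem Square.mem_IR_of (S : Square G Γ (FreeGroup (Fin r)) Q)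
    (φ : ZG (FreeGroup (Fin r)) →+ (Fin r → ZG (FreeGroup (Fin r))))
    (hφ1 : ∀ a b, φ (a * b) = (aug _ b) • φ a + a • φ b)
    (hφ2 : ∀ a, ∑ x, φ a x * (el (FreeGroup.of x) - 1) = a - (aug _ a) • 1)
    (y : IG G) (h1 : zmap S.κ (y : ZG G) = 0)
    (h2 : ∀ x, zmap S.q (φ (zmap S.π (y : ZG G)) x) = 0) : y ∈ IR S.κ.ker (IG G) := by
  classical
  obtain ⟨ι, b, hb⟩ := exists_isBasis S.π S.κ.ker (fun g hg h => S.inj g hg h)
  have hb' := q6_basis S b hb
  obtain ⟨v, hv⟩ := (mem_IR_iff b S.κ.ker hb (y : ZG G)).1 ((zmap_eq_zero_iff S.κ _).1 h1)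
  -- the augmentations
  let n : ι →₀ ℤ := v.mapRange (aug G) (map_zero _)
  let v' : ι →₀ IG G := v.mapRange (fun a => (⟨a - (aug G a) • (1 : ZG G), by
      rw [mem_IG, map_sub, map_zsmul, map_one, smul_eq_mul, mul_one, sub_self]⟩ : IG G))
    (by
      apply Subtype.ext
      change (0 : ZG G) - (aug G 0) • (1 : ZG G) = 0
      rw [map_zero, zero_smul, sub_zero])
  -- images in the free group ring
  have hsplit : (y : ZG G) = ((bsum b v' : IG G) : ZG G) +
      bsum b (n.mapRange (fun k : ℤ => k • (1 : ZG G)) (zero_smul _ _)) := by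
    have e1 : ((bsum b v' : IG G) : ZG G) =
        bsum b (v'.mapRange (IG G).subtype.toAddMonoidHom (map_zero _)) :=
      q6_map b b (IG G).subtype.toAddMonoidHom (fun _ _ => rfl) v'
    rw [e1, ← q6_add, hv]
    congr 1
    ext1 i
    rw [Finsupp.add_apply]
    change v i = (v i - (aug G (v i)) • (1 : ZG G)) + (aug G (v i)) • (1 : ZG G)
    rw [sub_add_cancel]
  have hker : ∀ (i : ι), zmap S.q (el (S.π (b i))) = 1 := by
    intro i
    have h3 : b i ∈ S.κ.ker := by
      rw [← hb.2]
      exact ⟨FreeGroup.of i, by simp⟩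
    have h4 : S.κ (b i) = 1 := h3
    rw [zmap_el, ← S.comm, h4, map_one, el_one]
  have hzero : ∀ w : ι →₀ IG G, ∀ x, zmap S.q (φ (zmap S.π ((bsum b w : IG G) : ZG G)) x) = 0 := by
    intro w x
    induction w using Finsupp.induction_linear with
    | zero =>
      rw [q6_zero, Submodule.coe_zero, map_zero, map_zero, Pi.zero_apply, map_zero]
    | add a c ha hc =>
      rw [q6_add, Submodule.coe_add, map_add, map_add, Pi.add_apply, map_add, ha, hc, add_zero]
    | single i m =>
      rw [q6_bs_single]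
      have e0 : ((el (b i) • m - m : IG G) : ZG G) = (el (b i) - 1) * (m : ZG G) := by
        rw [sub_mul, one_mul]
        rfl
      have hm : aug _ (zmap S.π (m : ZG G)) = 0 := by
        rw [aug_zmap]
        exact m.2
      rw [e0, map_mul, hφ1, hm, zero_smul, zero_add, Pi.smul_apply, smul_eq_mul, map_mul,
        map_sub, map_sub, map_one, map_one, zmap_el, hker, sub_self, zero_mul]
  -- the element `u`
  let N : ι →₀ ZG (FreeGroup (Fin r)) :=
    n.mapRange (fun k : ℤ => k • (1 : ZG (FreeGroup (Fin r)))) (zero_smul _ _)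
  let u : ZG (FreeGroup (Fin r)) := bsum (fun i => S.π (b i)) N
  have hu : u = zmap S.π (bsum b (n.mapRange (fun k : ℤ => k • (1 : ZG G)) (zero_smul _ _))) := by
    have e2 := q6_map b (fun i => S.π (b i)) (zmap S.π).toAddMonoidHom (fun i m => by
      change zmap S.π (el (b i) * m) = el (S.π (b i)) * zmap S.π m
      rw [map_mul, zmap_el]) (n.mapRange (fun k : ℤ => k • (1 : ZG G)) (zero_smul _ _))
    refine Eq.trans ?_ e2.symm
    change (bsum (fun i => S.π (b i)) N) = _
    congr 1
    ext1 i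
    rw [Finsupp.mapRange_apply, Finsupp.mapRange_apply]
    change (n i) • (1 : ZG (FreeGroup (Fin r))) = zmap S.π ((n i) • (1 : ZG G))
    rw [map_zsmul, map_one]
  have hqu : ∀ x, zmap S.q (φ u x) = 0 := by
    intro x
    have h3 := h2 x
    rw [hsplit, map_add, map_add, Pi.add_apply, map_add, hzero, zero_add, ← hu] at h3
    exact h3
  have haug : aug _ u = 0 := by
    change aug _ (bsum (fun i => S.π (b i)) N) = 0
    rw [bsum, Finsupp.sum, map_sum]
    refine Finset.sum_eq_zero fun i _ => ?_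
    rw [map_sub, smul_eq_mul, map_mul, aug_el, one_mul, sub_self]
  choose w hw using fun x => (mem_IR_iff (fun i => S.π (b i)) S.q.ker hb' (φ u x)).1
    ((zmap_eq_zero_iff S.q _).1 (hqu x))
  -- comparison of the two expressions for `u`
  let W : ι →₀ ZG (FreeGroup (Fin r)) :=
    ∑ x, (w x).mapRange (fun a => a * (el (FreeGroup.of x) - 1)) (zero_mul _)
  have hmulr : ∀ (z : ι →₀ ZG (FreeGroup (Fin r))) (a : ZG (FreeGroup (Fin r))),
      bsum (fun i => S.π (b i)) (z.mapRange (fun c => c * a) (zero_mul _)) =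
        bsum (fun i => S.π (b i)) z * a := by
    intro z a
    rw [bsum, bsum, Finsupp.sum_mapRange_index, Finsupp.sum, Finsupp.sum, Finset.sum_mul]
    · refine Finset.sum_congr rfl fun i _ => ?_
      rw [smul_eq_mul, smul_eq_mul, sub_mul, mul_assoc]
    · intro i
      rw [smul_zero, sub_zero]
  have hW : bsum (fun i => S.π (b i)) W = u := by
    have h3 := hφ2 u
    rw [haug, zero_smul, sub_zero] at h3
    rw [← h3, q6_bs_eq, map_sum]
    refine Finset.sum_congr rfl fun x _ => ?_
    rw [← q6_bs_eq, hmulr, ← hw x]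
  have hNW : N - W = 0 := by
    apply InjB.ring (fun i => S.π (b i)) hb'.1
    rw [q6_sub, hW]
    exact sub_self u
  have hn : n = 0 := by
    ext i
    have h3 : N i = W i := by
      rw [sub_eq_zero.1 hNW]
    have h4 : aug _ (N i) = n i := by
      change aug _ ((n i) • (1 : ZG (FreeGroup (Fin r)))) = n i
      rw [map_zsmul, map_one, smul_eq_mul, mul_one]
    have h5 : aug _ (W i) = 0 := by
      change aug _ ((∑ x, (w x).mapRange (fun a => a * (el (FreeGroup.of x) - 1)) (zero_mul _) :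
        ι →₀ ZG (FreeGroup (Fin r))) i) = 0
      rw [Finsupp.finsetSum_apply, map_sum]
      refine Finset.sum_eq_zero fun x _ => ?_
      rw [Finsupp.mapRange_apply, map_mul, map_sub, aug_el, map_one, sub_self, mul_zero]
    rw [← h4, h3, h5]
    rfl
  refine (mem_IR_iff b S.κ.ker hb y).2 ⟨v', ?_⟩
  apply Subtype.ext
  rw [hsplit, hn, Finsupp.mapRange_zero, q6_zero, add_zero]
-- END Q6

-- BEGIN Q7
theorem q7_bd_apply (q : FreeGroup (Fin r) →* Q) (c : Fin r → ZG Q) :
    bd q c = ∑ x, c x * (el (q (FreeGroup.of x)) - 1) := by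
  rw [bd, Fintype.linearCombination_apply]
  rfl

/-- the module `W` -/
noncomputable def q7_W (S : Square G Γ (FreeGroup (Fin r)) Q) :
    Submodule (ZG Γ) (IG Γ × Res (zmap S.θ) (Fin r → ZG Q)) where
  carrier := {z | zmap S.θ (z.1 : ZG Γ) = bd S.q (show Fin r → ZG Q from z.2)}
  zero_mem' := by
    change zmap S.θ ((0 : IG Γ) : ZG Γ) = bd S.q (0 : Fin r → ZG Q)
    rw [Submodule.coe_zero, map_zero, map_zero]
  add_mem' := by
    intro a b ha hb
    have ha' : zmap S.θ (a.1 : ZG Γ) = bd S.q (show Fin r → ZG Q from a.2) := ha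
    have hb' : zmap S.θ (b.1 : ZG Γ) = bd S.q (show Fin r → ZG Q from b.2) := hb
    change zmap S.θ ((a.1 + b.1 : IG Γ) : ZG Γ) =
      bd S.q ((show Fin r → ZG Q from a.2) + (show Fin r → ZG Q from b.2))
    rw [Submodule.coe_add, map_add, map_add, ha', hb']
  smul_mem' := by
    intro c a ha
    have ha' : zmap S.θ (a.1 : ZG Γ) = bd S.q (show Fin r → ZG Q from a.2) := ha
    change zmap S.θ ((c • a.1 : IG Γ) : ZG Γ) =
      bd S.q (zmap S.θ c • (show Fin r → ZG Q from a.2))
    rw [Submodule.coe_smul, smul_eq_mul, map_mul, map_smul, ha', smul_eq_mul]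

theorem q7_mem (S : Square G Γ (FreeGroup (Fin r)) Q) (a : IG Γ) (c : Fin r → ZG Q) :
    ((a, c) : IG Γ × Res (zmap S.θ) (Fin r → ZG Q)) ∈ q7_W S ↔
      zmap S.θ (a : ZG Γ) = bd S.q c := Iff.rfl

theorem q7_comm (S : Square G Γ (FreeGroup (Fin r)) Q) (y : ZG G) :
    zmap S.θ (zmap S.κ y) = zmap S.q (zmap S.π y) := by
  rw [zmap_comp, zmap_comp]
  congr 2
  ext g
  exact S.comm g

theorem q7_bd_map (q : FreeGroup (Fin r) →* Q) (c : Fin r → ZG (FreeGroup (Fin r))) :
    bd q (fun x => zmap q (c x)) = zmap q (∑ x, c x * (el (FreeGroup.of x) - 1)) := by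
  rw [q7_bd_apply, map_sum]
  refine Finset.sum_congr rfl fun x _ => ?_
  rw [map_mul, map_sub, zmap_el, map_one]

theorem q7_IG (S : Square G Γ (FreeGroup (Fin r)) Q) (y : IG G) : zmap S.κ (y : ZG G) ∈ IG Γ := by
  have h1 : aug G (y : ZG G) = 0 := y.2
  rw [mem_IG, aug_zmap, h1]

theorem q7_W_mem (S : Square G Γ (FreeGroup (Fin r)) Q)
    (φ : ZG (FreeGroup (Fin r)) →+ (Fin r → ZG (FreeGroup (Fin r))))
    (hφ2 : ∀ a, ∑ x, φ a x * (el (FreeGroup.of x) - 1) = a - (aug _ a) • 1) (y : IG G) :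
    zmap S.θ (zmap S.κ (y : ZG G)) =
      bd S.q (fun x => zmap S.q (φ (zmap S.π (y : ZG G)) x)) := by
  have h1 : aug G (y : ZG G) = 0 := y.2
  have h2 : aug _ (zmap S.π (y : ZG G)) = 0 := by rw [aug_zmap, h1]
  rw [q7_bd_map, hφ2, h2, zero_smul, sub_zero, q7_comm]

/-- the map to `W` -/
noncomputable def q7_p (S : Square G Γ (FreeGroup (Fin r)) Q)
    (φ : ZG (FreeGroup (Fin r)) →+ (Fin r → ZG (FreeGroup (Fin r))))
    (hφ1 : ∀ a b, φ (a * b) = (aug _ b) • φ a + a • φ b)
    (hφ2 : ∀ a, ∑ x, φ a x * (el (FreeGroup.of x) - 1) = a - (aug _ a) • 1) :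
    IG G →ₗ[ZG G] Res (zmap S.κ) (q7_W S) where
  toFun y := (show Res (zmap S.κ) (q7_W S) from
    (⟨((⟨zmap S.κ (y : ZG G), q7_IG S y⟩ : IG Γ),
      (fun x => zmap S.q (φ (zmap S.π (y : ZG G)) x))), q7_W_mem S φ hφ2 y⟩ : q7_W S))
  map_add' y z := by
    apply Subtype.ext
    refine Prod.ext (Subtype.ext ?_) ?_
    · change zmap S.κ ((y + z : IG G) : ZG G) = zmap S.κ (y : ZG G) + zmap S.κ (z : ZG G)
      rw [Submodule.coe_add, map_add]
    · funext x
      change zmap S.q (φ (zmap S.π ((y + z : IG G) : ZG G)) x) =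
        zmap S.q (φ (zmap S.π (y : ZG G)) x) + zmap S.q (φ (zmap S.π (z : ZG G)) x)
      rw [Submodule.coe_add, map_add, map_add, Pi.add_apply, map_add]
  map_smul' a y := by
    apply Subtype.ext
    refine Prod.ext (Subtype.ext ?_) ?_
    · change zmap S.κ ((a • y : IG G) : ZG G) = zmap S.κ a * zmap S.κ (y : ZG G)
      rw [Submodule.coe_smul, smul_eq_mul, map_mul]
    · funext x
      change zmap S.q (φ (zmap S.π ((a • y : IG G) : ZG G)) x) =
        zmap S.θ (zmap S.κ a) * zmap S.q (φ (zmap S.π (y : ZG G)) x)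
      have hy : aug _ (zmap S.π (y : ZG G)) = 0 := by
        rw [aug_zmap]
        exact y.2
      rw [Submodule.coe_smul, smul_eq_mul, map_mul, hφ1, hy, zero_smul, zero_add,
        Pi.smul_apply, smul_eq_mul, map_mul, q7_comm]

theorem q7_isCo (S : Square G Γ (FreeGroup (Fin r)) Q)
    (φ : ZG (FreeGroup (Fin r)) →+ (Fin r → ZG (FreeGroup (Fin r))))
    (hφ1 : ∀ a b, φ (a * b) = (aug _ b) • φ a + a • φ b)
    (hφ2 : ∀ a, ∑ x, φ a x * (el (FreeGroup.of x) - 1) = a - (aug _ a) • 1)
    (hφ3 : ∀ c : Fin r → ZG (FreeGroup (Fin r)), φ (∑ x, c x * (el (FreeGroup.of x) - 1)) = c) :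
    IsCo S.κ (q7_p S φ hφ1 hφ2) := by
  constructor
  · intro w
    obtain ⟨⟨a, c₀⟩, hac⟩ := (show q7_W S from w)
    let c : Fin r → ZG Q := c₀
    have hac' : zmap S.θ (a : ZG Γ) = bd S.q c := hac
    -- lift the first component
    obtain ⟨a', ha'⟩ := zmap_surjective S.κ S.hκ (a : ZG Γ)
    have hauga : aug G a' = 0 := by
      rw [← aug_zmap S.κ, ha']
      exact a.2
    let y₁ : IG G := ⟨a', hauga⟩
    let c' : Fin r → ZG Q := fun x => zmap S.q (φ (zmap S.π a') x)
    have hc' : bd S.q c' = zmap S.θ (a : ZG Γ) := by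
      change bd S.q (fun x => zmap S.q (φ (zmap S.π a') x)) = _
      rw [q7_bd_map, hφ2, aug_zmap, hauga, zero_smul, sub_zero, ← ha', q7_comm]
    -- lift the difference
    choose d hd using fun x => zmap_surjective S.q S.hq (c x - c' x)
    have hq0 : zmap S.q (∑ x, d x * (el (FreeGroup.of x) - 1)) = 0 := by
      rw [← q7_bd_map]
      have : (fun x => zmap S.q (d x)) = c - c' := by
        funext x
        exact hd x
      rw [this, map_sub, hc', ← hac', sub_self]
    obtain ⟨z, hz, hzπ⟩ := S.lift_zmap _ hq0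
    have haugz : aug G z = 0 := by
      rw [← aug_zmap S.π, hzπ, map_sum]
      refine Finset.sum_eq_zero fun x _ => ?_
      rw [map_mul, map_sub, aug_el, map_one, sub_self, mul_zero]
    have hκz : zmap S.κ z = 0 := (zmap_eq_zero_iff S.κ z).2 hz
    let y₂ : IG G := ⟨z, haugz⟩
    refine ⟨y₁ + y₂, ?_⟩
    apply Subtype.ext
    refine Prod.ext (Subtype.ext ?_) ?_
    · change zmap S.κ (a' + z) = (a : ZG Γ)
      rw [map_add, ha', hκz, add_zero]
    · funext x
      change zmap S.q (φ (zmap S.π (a' + z)) x) = c x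
      rw [map_add, hzπ, map_add, hφ3, Pi.add_apply, map_add, hd]
      change c' x + (c x - c' x) = c x
      rw [add_sub_cancel]
  · apply le_antisymm
    · intro y hy
      have hy' : q7_p S φ hφ1 hφ2 y = 0 := hy
      have h1 : zmap S.κ (y : ZG G) = 0 :=
        congrArg (fun w : Res (zmap S.κ) (q7_W S) => (((show q7_W S from w).1.1 : IG Γ) : ZG Γ)) hy'
      have h2 : ∀ x, zmap S.q (φ (zmap S.π (y : ZG G)) x) = 0 := fun x =>
        congrArg (fun w : Res (zmap S.κ) (q7_W S) =>
          (show Fin r → ZG Q from (show q7_W S from w).1.2) x) hy'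
      exact S.mem_IR_of φ hφ1 hφ2 y h1 h2
    · apply Submodule.span_le.2
      rintro _ ⟨ρ, hρ, m, rfl⟩
      change q7_p S φ hφ1 hφ2 (el ρ • m - m) = 0
      have h1 : S.κ ρ = 1 := hρ
      rw [map_sub, map_smul]
      have h2 : (el ρ • (q7_p S φ hφ1 hφ2 m) : Res (zmap S.κ) (q7_W S)) =
          (show Res (zmap S.κ) (q7_W S) from
            (zmap S.κ (el ρ) • (show q7_W S from q7_p S φ hφ1 hφ2 m) : q7_W S)) := rfl
      have h3 : (zmap S.κ (el ρ) • (show q7_W S from q7_p S φ hφ1 hφ2 m) : q7_W S) =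
          (show q7_W S from q7_p S φ hφ1 hφ2 m) := by
        rw [zmap_el, h1, el_one, one_smul]
      rw [h2, h3]
      exact sub_self _

/-- the coinvariants of the augmentation ideal -/
theorem Square.star (S : Square G Γ (FreeGroup (Fin r)) Q) :
    ∃ (W : Type) (_ : AddCommGroup W) (_ : Module (ZG Γ) W)
      (p : IG G →ₗ[ZG G] Res (zmap S.κ) W), IsCo S.κ p ∧
      ∃ g : W →ₗ[ZG Γ] IG Γ, Function.Surjective g ∧
        Nonempty (LinearMap.ker g ≃ₗ[ZG Γ] Res (zmap S.θ) (LinearMap.ker (bd S.q))) := by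
  obtain ⟨φ, hφ1, _, hφ2, hφ3⟩ := foxD r
  refine ⟨q7_W S, inferInstance, inferInstance, q7_p S φ hφ1 hφ2, q7_isCo S φ hφ1 hφ2 hφ3,
    (LinearMap.fst (ZG Γ) (IG Γ) (Res (zmap S.θ) (Fin r → ZG Q))).comp (q7_W S).subtype, ?_, ?_⟩
  · intro a
    have h1 : zmap S.θ (a : ZG Γ) ∈ LinearMap.range (bd S.q) := by
      rw [bd_range S.q S.hq, mem_IG, aug_zmap]
      exact a.2
    obtain ⟨c, hc⟩ := h1
    exact ⟨⟨(a, c), hc.symm⟩, rfl⟩
  · refine ⟨?_⟩
    refine LinearEquiv.symm (LinearEquiv.ofBijective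
      { toFun := fun c => ⟨⟨(0, (show LinearMap.ker (bd S.q) from c).1), by
          rw [q7_mem, Submodule.coe_zero, map_zero]
          exact (show LinearMap.ker (bd S.q) from c).2.symm⟩, rfl⟩
        map_add' := ?_
        map_smul' := ?_ } ⟨?_, ?_⟩)
    · intro c d
      apply Subtype.ext
      apply Subtype.ext
      refine Prod.ext ?_ rfl
      exact (add_zero (0 : IG Γ)).symm
    · intro a c
      apply Subtype.ext
      apply Subtype.ext
      refine Prod.ext ?_ rfl
      exact (smul_zero a : a • (0 : IG Γ) = 0).symm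
    · intro c d hcd
      apply Subtype.ext
      exact congrArg (fun w : LinearMap.ker ((LinearMap.fst (ZG Γ) (IG Γ)
        (Res (zmap S.θ) (Fin r → ZG Q))).comp (q7_W S).subtype) =>
          (show Fin r → ZG Q from w.1.1.2)) hcd
    · rintro ⟨⟨⟨a, c⟩, hac⟩, ha⟩
      have ha' : a = 0 := ha
      subst ha'
      have hc : bd S.q c = 0 := by
        have h1 := (q7_mem S 0 c).1 hac
        rw [Submodule.coe_zero, map_zero] at h1
        exact h1.symm
      exact ⟨(⟨c, hc⟩ : LinearMap.ker (bd S.q)), rfl⟩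
-- END Q7

end

end Pool.Agent.Lib.MP_d943a5_al
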