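import Pool.Agent.Lib.MP_d943a5_al.Star
import Pool.Agent.Lib.MP_d943a5_al.Cmod

/-!
# The fibre product theorem, free case
-/

set_option autoImplicit false

namespace Pool.Agent.Lib.MP_d943a5_al

section

variable {G Γ Q : Type} [Group G] [Group Γ] [Group Q] {r : ℕ} {ι : Type}

-- BEGIN A1
/-- one step of the induction -/
theorem main_step (π : G →* FreeGroup (Fin r)) (s : FreeGroup (Fin r) →* G)
    (hs : ∀ f, π (s f) = f) (κ : G →* Γ) (hκ : Function.Surjective κ) (b : ι → G)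
    (hb : IsBasis b κ.ker) (T : Set G) (hT : ∀ ρ ∈ T, ∀ a ∈ π.ker, ρ * a = a * ρ) (j : ℕ)
    {L K : Type} [AddCommGroup L] [Module (ZG G) L] [AddCommGroup K] [Module (ZG G) K]
    (f : L →ₗ[ZG G] K) (hf : Function.Surjective f) (hfk : ∀ n, FP (ZG G) n (LinearMap.ker f))
    (hK : ∀ i < j + 1, FP (ZG π.ker) i (Res (zmap π.ker.subtype) K))
    (hsm : ∀ ρ ∈ T, Small π.ker ρ K) (hL : RF κ b (j + 1) L) :
    ∃ (t : ℕ) (h : (Fin t → ZG G) →ₗ[ZG G] L) (K' : Type) (_ : AddCommGroup K')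
      (_ : Module (ZG G) K') (f' : LinearMap.ker h →ₗ[ZG G] K'), Function.Surjective h ∧
      Function.Surjective f' ∧ (∀ n, FP (ZG G) n (LinearMap.ker f')) ∧
      (∀ i < j, FP (ZG π.ker) i (Res (zmap π.ker.subtype) K')) ∧
      (∀ ρ ∈ T, Small π.ker ρ K') ∧ RF κ b j (LinearMap.ker h) := by
  have hK0 : Module.Finite (ZG π.ker) (Res (zmap π.ker.subtype) K) := hK 0 (Nat.succ_pos j)
  obtain ⟨C, _, _, p, hp, k, ⟨e⟩⟩ := lemC π s hs hK0
  have hC : ∀ n, FP (ZG G) n C := fun n => FP_of_free_ker π s hs k e n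
  let X : Submodule (ZG G) (C × L) :=
    LinearMap.ker (p.comp (LinearMap.fst (ZG G) C L) - f.comp (LinearMap.snd (ZG G) C L))
  have hX : ∀ x : C × L, x ∈ X ↔ p x.1 = f x.2 := fun x => by
    change p x.1 - f x.2 = 0 ↔ _
    exact sub_eq_zero
  let q₁ : X →ₗ[ZG G] C := (LinearMap.fst (ZG G) C L).comp X.subtype
  have hq₁ : Function.Surjective q₁ := fun c => by
    obtain ⟨l, hl⟩ := hf (p c)
    exact ⟨⟨(c, l), (hX _).2 hl.symm⟩, rfl⟩
  have e₁ : LinearMap.ker f ≃ₗ[ZG G] LinearMap.ker q₁ :=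
    { toFun := fun y => ⟨⟨(0, y.1), (hX _).2 (by rw [map_zero]; exact y.2.symm)⟩, rfl⟩
      invFun := fun x => ⟨x.1.1.2, by
        have h1 : p x.1.1.1 = f x.1.1.2 := (hX _).1 x.1.2
        have h2 : x.1.1.1 = 0 := x.2
        rw [LinearMap.mem_ker, ← h1, h2, map_zero]⟩
      left_inv := fun y => rfl
      right_inv := fun x => by
        have h2 : x.1.1.1 = 0 := x.2
        apply Subtype.ext
        apply Subtype.ext
        exact Prod.ext h2.symm rfl
      map_add' := fun y y' => by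
        apply Subtype.ext
        apply Subtype.ext
        exact Prod.ext (add_zero (0 : C)).symm rfl
      map_smul' := fun a y => by
        apply Subtype.ext
        apply Subtype.ext
        exact Prod.ext (smul_zero a).symm rfl }
  have hXF : ∀ n, FP (ZG G) n X := fun n => FP.ext n q₁ hq₁ (FP.equiv e₁ (hfk n)) (hC n)
  have hX0 : Module.Finite (ZG G) X := hXF 0
  obtain ⟨t, g, hg⟩ := Module.Finite.exists_fin' (ZG G) X
  have hgk : ∀ n, FP (ZG G) n (LinearMap.ker g) := fun n =>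
    FP.ker n g hg (FP.free n t) (hXF (n + 1))
  let h : (Fin t → ZG G) →ₗ[ZG G] L := ((LinearMap.snd (ZG G) C L).comp X.subtype).comp g
  have hh : Function.Surjective h := fun l => by
    obtain ⟨c, hc⟩ := hp (f l)
    obtain ⟨y, hy⟩ := hg ⟨(c, l), (hX _).2 hc⟩
    exact ⟨y, by change (g y).1.2 = l; rw [hy]⟩
  let f' : LinearMap.ker h →ₗ[ZG G] LinearMap.ker p :=
    LinearMap.codRestrict (LinearMap.ker p) (q₁.comp (g.comp (LinearMap.ker h).subtype))
      (fun y => by
        have h1 : p (g y.1).1.1 = f (g y.1).1.2 := (hX _).1 (g y.1).2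
        have h2 : (g y.1).1.2 = 0 := y.2
        rw [LinearMap.mem_ker]
        change p (g y.1).1.1 = 0
        rw [h1, h2, map_zero])
  have hf'1 : ∀ y, (f' y).1 = (g y.1).1.1 := fun y => rfl
  have hf' : Function.Surjective f' := fun c => by
    obtain ⟨y, hy⟩ := hg ⟨(c.1, 0), (hX _).2 (by rw [map_zero]; exact c.2)⟩
    have hy' : h y = 0 := by change (g y).1.2 = 0; rw [hy]
    refine ⟨⟨y, hy'⟩, ?_⟩
    apply Subtype.ext
    rw [hf'1]
    change (g y).1.1 = c.1
    rw [hy]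
  have e₂ : LinearMap.ker g ≃ₗ[ZG G] LinearMap.ker f' :=
    { toFun := fun y => ⟨⟨y.1, by
        have h1 : g y.1 = 0 := y.2
        rw [LinearMap.mem_ker]
        change (g y.1).1.2 = 0
        rw [h1]; rfl⟩, by
        have h1 : g y.1 = 0 := y.2
        rw [LinearMap.mem_ker]
        apply Subtype.ext
        rw [hf'1]
        change (g y.1).1.1 = 0
        rw [h1]; rfl⟩
      invFun := fun x => ⟨x.1.1, by
        have h1 : (g x.1.1).1.2 = 0 := x.1.2
        have h2 : (g x.1.1).1.1 = 0 := congrArg Subtype.val x.2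
        rw [LinearMap.mem_ker]
        apply Subtype.ext
        exact Prod.ext h2 h1⟩
      left_inv := fun y => rfl
      right_inv := fun x => rfl
      map_add' := fun y y' => rfl
      map_smul' := fun a y => rfl }
  refine ⟨t, h, LinearMap.ker p, inferInstance, inferInstance, f', hh, hf',
    fun n => FP.equiv e₂ (hgk n), ?_, ?_, RF.step κ hκ b hb j hL t h hh⟩
  · intro i hi
    refine FP.equiv (Res.kerEquiv (zmap π.ker.subtype) p).symm ?_
    exact FP.ker i (Res.map (zmap π.ker.subtype) p) hp (FP.equiv e.symm (FP.free i k))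
      (hK (i + 1) (Nat.succ_lt_succ hi))
  · intro ρ hρ
    exact Small.ker π.ker ρ (hT ρ hρ) p hp k e (hsm ρ hρ)
-- END A1

-- BEGIN A2
theorem main_ind (π : G →* FreeGroup (Fin r)) (s : FreeGroup (Fin r) →* G)
    (hs : ∀ f, π (s f) = f) (κ : G →* Γ) (hκ : Function.Surjective κ) (b : ι → G)
    (hb : IsBasis b κ.ker) (T : Set G) (hT : ∀ ρ ∈ T, ∀ a ∈ π.ker, ρ * a = a * ρ)
    (hTf : T.Finite) (hTn : Subgroup.normalClosure T = κ.ker) :
    ∀ (j : ℕ) {L K : Type} [AddCommGroup L] [Module (ZG G) L] [AddCommGroup K]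
      [Module (ZG G) K] (f : L →ₗ[ZG G] K), Function.Surjective f →
      (∀ n, FP (ZG G) n (LinearMap.ker f)) →
      (∀ i < j, FP (ZG π.ker) i (Res (zmap π.ker.subtype) K)) →
      (∀ ρ ∈ T, Small π.ker ρ K) → RF κ b j L → FP (ZG G) j L := by
  intro j
  induction j with
  | zero =>
    intro L K _ _ _ _ f hf hfk _ hsm hL
    obtain ⟨T₀, hT₀, h₀⟩ := RF.fin κ hκ b hL
    have h1 : Submodule.span (ZG G) (f '' T₀) ⊔ IR κ.ker K = ⊤ := by
      rw [← IR_map κ.ker f hf, ← Submodule.map_span, ← Submodule.map_sup, h₀, Submodule.map_top,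
        LinearMap.range_eq_top.2 hf]
    have h2 : Module.Finite (ZG G) K := keyFG π.ker κ.ker T hTf hTn hsm (f '' T₀) (hT₀.image f) h1
    exact FP.ext 0 f hf (hfk 0) h2
  | succ j ih =>
    intro L K _ _ _ _ f hf hfk hK hsm hL
    obtain ⟨t, h, K', _, _, f', hh, hf', hfk', hK', hsm', hL'⟩ :=
      main_step π s hs κ hκ b hb T hT j f hf hfk hK hsm hL
    exact ⟨t, h, hh, ih f' hf' hfk' hK' hsm' hL'⟩
-- END A2

-- BEGIN A3
/-- the beginning of the induction -/
theorem main_start (π : G →* FreeGroup (Fin r)) (s : FreeGroup (Fin r) →* G)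
    (hs : ∀ f, π (s f) = f) (T : Set G) (hT : ∀ ρ ∈ T, ∀ a ∈ π.ker, ρ * a = a * ρ) (m : ℕ)
    (hA : GFP m π.ker) :
    ∃ (t : ℕ) (K : Type) (_ : AddCommGroup K) (_ : Module (ZG G) K)
      (f : ((IG G) × (Fin t → ZG G)) →ₗ[ZG G] K), Function.Surjective f ∧
      (∀ n, FP (ZG G) n (LinearMap.ker f)) ∧
      (∀ i < m, FP (ZG π.ker) i (Res (zmap π.ker.subtype) K)) ∧
      (∀ ρ ∈ T, Small π.ker ρ K) := by
  have h0 : FP (ZG π.ker) 0 (Res (zmap π.ker.subtype) (Triv G)) :=
    FP.equiv (trivEquiv π.ker.subtype) (GFP_zero (G := π.ker))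
  obtain ⟨C, _, _, p, hp, k, ⟨e⟩⟩ := lemC π s hs (K := Triv G) h0
  have hC : ∀ n, FP (ZG G) n C := fun n => FP_of_free_ker π s hs k e n
  have hC0 : Module.Finite (ZG G) C := hC 0
  obtain ⟨t, g₀, hg₀⟩ := Module.Finite.exists_fin' (ZG G) C
  obtain ⟨c₀, hc₀⟩ := hp (show Triv G from (1 : ℤ))
  let n : Fin t → ℤ := fun i => (show ℤ from p (g₀ (Pi.single i 1)))
  let c : Fin t → C := fun i => g₀ (Pi.single i 1) - n i • c₀
  have hzs : ∀ z : ℤ, p (z • c₀) = (show Triv G from z) := fun z => by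
    rw [map_zsmul, hc₀]
    change (z • (1 : ℤ) : ℤ) = z
    simp
  have hc : ∀ i, p (c i) = 0 := fun i => by
    change p (g₀ (Pi.single i 1) - n i • c₀) = 0
    rw [map_sub, hzs]
    exact sub_self _
  let F : (ZG G × (Fin t → ZG G)) →ₗ[ZG G] C :=
    (LinearMap.toSpanSingleton (ZG G) C c₀).coprod (Fintype.linearCombination (ZG G) c)
  have hF : ∀ y v, F (y, v) = y • c₀ + ∑ i, v i • c i := fun y v => by
    simp only [F, LinearMap.coprod_apply, LinearMap.toSpanSingleton_apply,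
      Fintype.linearCombination_apply]
  have hpF : ∀ y v, p (F (y, v)) = (show Triv G from aug G y) := fun y v => by
    rw [hF, map_add, map_sum, map_smul, hc₀]
    have h1 : ∑ i, p (v i • c i) = 0 := Finset.sum_eq_zero fun i _ => by
      rw [map_smul, hc, smul_zero]
    rw [h1, add_zero]
    change (aug G y * (1 : ℤ) : ℤ) = aug G y
    rw [mul_one]
  have hFs : Function.Surjective F := fun x => by
    obtain ⟨w, rfl⟩ := hg₀ x
    refine ⟨(∑ i, n i • w i, w), ?_⟩
    rw [hF, Finset.sum_smul, ← Finset.sum_add_distrib]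
    conv_rhs => rw [pi_eq_sum_univ' w, map_sum]
    refine Finset.sum_congr rfl fun i _ => ?_
    rw [map_smul]
    change (n i • w i) • c₀ + w i • (g₀ (Pi.single i 1) - n i • c₀) = _
    rw [smul_sub, smul_assoc, smul_comm (w i) (n i) c₀]
    abel
  let f : ((IG G) × (Fin t → ZG G)) →ₗ[ZG G] LinearMap.ker p :=
    LinearMap.codRestrict (LinearMap.ker p) (F.comp ((IG G).subtype.prodMap LinearMap.id))
      (fun z => by
        rw [LinearMap.mem_ker]
        change p (F (z.1.1, z.2)) = 0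
        rw [hpF]
        exact mem_IG.1 z.1.2)
  have hf1 : ∀ z, (f z).1 = F (z.1.1, z.2) := fun z => rfl
  have hf : Function.Surjective f := fun x => by
    obtain ⟨⟨y, v⟩, hyv⟩ := hFs x.1
    have h1 : aug G y = 0 := by
      have := hpF y v
      rw [hyv, LinearMap.mem_ker.1 x.2] at this
      exact this.symm
    exact ⟨(⟨y, mem_IG.2 h1⟩, v), Subtype.ext hyv⟩
  have e₁ : LinearMap.ker F ≃ₗ[ZG G] LinearMap.ker f :=
    { toFun := fun y => ⟨(⟨y.1.1, mem_IG.2 (by
          have h1 := hpF y.1.1 y.1.2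
          have h2 : F (y.1.1, y.1.2) = 0 := y.2
          rw [h2, map_zero] at h1
          exact h1.symm)⟩, y.1.2), by
        rw [LinearMap.mem_ker]
        exact Subtype.ext y.2⟩
      invFun := fun x => ⟨(x.1.1.1, x.1.2), congrArg Subtype.val x.2⟩
      left_inv := fun y => rfl
      right_inv := fun x => rfl
      map_add' := fun y y' => rfl
      map_smul' := fun a y => rfl }
  refine ⟨t, LinearMap.ker p, inferInstance, inferInstance, f, hf, ?_, ?_, ?_⟩
  · intro i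
    exact FP.equiv e₁ (FP.ker i F hFs (FP.prod i (FP.ring _ i) (FP.free i t)) (hC (i + 1)))
  · intro i hi
    refine FP.equiv (Res.kerEquiv (zmap π.ker.subtype) p).symm ?_
    refine FP.ker i (Res.map (zmap π.ker.subtype) p) hp (FP.equiv e.symm (FP.free i k)) ?_
    exact FP.equiv (trivEquiv π.ker.subtype) (GFP.mono hi hA)
  · intro ρ hρ
    exact Small.ker π.ker ρ (hT ρ hρ) p hp k e (Small.triv π.ker ρ)
-- END A3

-- BEGIN A4
/-- the coinvariants of the augmentation ideal are of type `FP m` -/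
theorem RF_IG (S : Square G Γ (FreeGroup (Fin r)) Q) (b : ι → G) (hb : IsBasis b S.κ.ker)
    (m : ℕ) (hA : GFP m S.π.ker) (hΓ : GFP (m + 1) Γ) (hQ : GFP (m + 2) Q) :
    RF S.κ b m (IG G) := by
  obtain ⟨W, _, _, p, hp, g, hg, ⟨e⟩⟩ := S.star
  obtain ⟨ek⟩ := S.ker_equiv
  refine ⟨InjB.submodule b (IG G) (InjB.ring b hb.1), W, _, _, p, hp, ?_⟩
  refine FP.ext m g hg ?_ ((GFP_succ_iff m).1 hΓ)
  exact FP.equiv e.symm (FP.res_quot S.θ S.hθ m (GFP.congr ek.symm hA) (FP_ker_bd S.q S.hq m hQ))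
-- END A4

-- BEGIN A5
/-- (Theorem A) the fibre product theorem over a free group -/
theorem thmA (S : Square G Γ (FreeGroup (Fin r)) Q) (m : ℕ) (hA : GFP m S.π.ker)
    (hΓ : GFP (m + 1) Γ) (hQ : GFP (m + 2) Q) (hn : S.κ.ker.IsFinitelyNormallyGenerated) :
    GFP (m + 1) G := by
  choose s₀ hs₀ using S.hπ
  let s : FreeGroup (Fin r) →* G := FreeGroup.lift (fun x => s₀ (FreeGroup.of x))
  have hs : ∀ f, S.π (s f) = f := by
    intro f
    have h : S.π.comp s = MonoidHom.id _ := by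
      ext x
      simp [s, hs₀]
    exact DFunLike.congr_fun h f
  obtain ⟨ι, b, hb⟩ := exists_isBasis S.π S.κ.ker (fun g hg h => S.inj g hg h)
  obtain ⟨T, hTf, hTn⟩ := hn
  have hTk : ∀ ρ ∈ T, ρ ∈ S.κ.ker := fun ρ hρ => by
    rw [← hTn]
    exact Subgroup.subset_normalClosure hρ
  have hT : ∀ ρ ∈ T, ∀ a ∈ S.π.ker, ρ * a = a * ρ := fun ρ hρ a ha =>
    S.commute (hTk ρ hρ) ha
  obtain ⟨t, K, _, _, f, hf, hfk, hK, hsm⟩ := main_start S.π s hs T hT m hA
  have h1 : RF S.κ b m (IG G × (Fin t → ZG G)) :=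
    RF.prod S.κ b m (RF_IG S b hb m hA hΓ hQ) (RF.free S.κ S.hκ b hb m t)
  have h2 := main_ind S.π s hs S.κ S.hκ b hb T hT hTf hTn m f hf hfk hK hsm h1
  exact (GFP_succ_iff m).2 (FP.of_prod_free m t h2)
-- END A5

-- BEGIN A6
/-- (Theorem L) passing from the fibre product over a free group to the fibre product over a
quotient of it -/
theorem thmL (S : Square G Γ (FreeGroup (Fin r)) Q) (m : ℕ) (hA : GFP m S.π.ker)
    (hG : GFP (m + 1) G) (hQ : GFP (m + 1) Q) : GFP (m + 1) Γ := by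
  obtain ⟨ι, b, hb⟩ := exists_isBasis S.π S.κ.ker (fun g hg h => S.inj g hg h)
  have h1 : FP (ZG G) m (IG G) := (GFP_succ_iff m).1 hG
  obtain ⟨W, _, _, p, hp, g, hg, ⟨e⟩⟩ := S.star
  have h2 : InjB b (IG G) := InjB.submodule b (IG G) (InjB.ring b hb.1)
  have h3 : FP (ZG Γ) m W := RF.base S.κ S.hκ b hb m h1 h2 p hp
  rw [GFP_succ_iff]
  cases m with
  | zero => exact FP.quot_zero g hg h3
  | succ m =>
    refine FP.quot m g hg h3 (FP.equiv e.symm ?_)
    obtain ⟨e'⟩ := S.ker_equiv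
    have hA' : GFP m S.θ.ker := GFP.congr e'.symm (GFP.mono (Nat.le_succ m) hA)
    exact FP.res_quot S.θ S.hθ m hA' (FP_ker_bd S.q S.hq m hQ)
-- END A6

end

end Pool.Agent.Lib.MP_d943a5_al
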