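import Pool.Agent.Lib.MP_d943a5_al.ThmA
import Pool.Agent.Lib.MP_d943a5_al.FPr

/-!
# The fibre product theorem
-/

set_option autoImplicit false

namespace Pool.Agent.Lib.MP_d943a5_al

section

variable {P Γ₁ Γ₂ Q : Type} [Group P] [Group Γ₁] [Group Γ₂] [Group Q]

-- BEGIN B1
/-- a finitely generated group is a quotient of a free group of finite rank -/
theorem exists_free_cover (h : Group.FG Γ₂) : ∃ (r : ℕ) (φ : FreeGroup (Fin r) →* Γ₂),
    Function.Surjective φ := by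
  obtain ⟨S, hS⟩ := h.out
  refine ⟨S.card, FreeGroup.lift (fun i => ((S.equivFin.symm i : S) : Γ₂)), ?_⟩
  rw [← MonoidHom.range_eq_top, FreeGroup.range_lift_eq_closure, ← hS]
  congr 1
  ext x
  constructor
  · rintro ⟨i, rfl⟩
    exact (S.equivFin.symm i).2
  · intro hx
    exact ⟨S.equivFin ⟨x, hx⟩, by simp⟩

theorem b1_factor {P Γ Q : Type} [Group P] [Group Γ] [Group Q] (p : P →* Γ) (q : P →* Q)
    (hp : Function.Surjective p) (hk : p.ker ≤ q.ker) : ∃ θ : Γ →* Q, ∀ x, θ (p x) = q x :=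
  ⟨p.liftOfSurjective hp ⟨q, hk⟩, fun x => MonoidHom.liftOfRightInverse_comp_apply p _ _ _ x⟩

/-- the two squares attached to a cover of the second factor by a free group -/
theorem exists_squares (p₁ : P →* Γ₁) (p₂ : P →* Γ₂) (q : P →* Q)
    (h₁ : Function.Surjective p₁) (h₂ : Function.Surjective p₂) (hq : Function.Surjective q)
    (hinj : p₁.ker ⊓ p₂.ker = ⊥) (hqk : q.ker = p₁.ker ⊔ p₂.ker) (r : ℕ)
    (φ : FreeGroup (Fin r) →* Γ₂) (hφ : Function.Surjective φ) :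
    ∃ (G : Type) (_ : Group G) (S₁ : Square G Γ₁ (FreeGroup (Fin r)) Q)
      (S₂ : Square G P (FreeGroup (Fin r)) Γ₂), S₁.π = S₂.π ∧ S₂.θ = p₂ ∧ S₂.q = φ := by
  obtain ⟨θ₁, hθ₁⟩ := b1_factor p₁ q h₁ (by rw [hqk]; exact le_sup_left)
  obtain ⟨θ₂, hθ₂⟩ := b1_factor p₂ q h₂ (by rw [hqk]; exact le_sup_right)
  let G : Subgroup (P × FreeGroup (Fin r)) :=
    { carrier := {z | p₂ z.1 = φ z.2}
      one_mem' := by simp
      mul_mem' := by
        intro a b ha hb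
        change p₂ (a.1 * b.1) = φ (a.2 * b.2)
        rw [map_mul, map_mul, show p₂ a.1 = φ a.2 from ha, show p₂ b.1 = φ b.2 from hb]
      inv_mem' := by
        intro a ha
        change p₂ (a.1⁻¹) = φ (a.2⁻¹)
        rw [map_inv, map_inv, show p₂ a.1 = φ a.2 from ha] }
  refine ⟨G, inferInstance,
    { π := (MonoidHom.snd P (FreeGroup (Fin r))).comp G.subtype
      κ := p₁.comp ((MonoidHom.fst P (FreeGroup (Fin r))).comp G.subtype)
      q := θ₂.comp φ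
      θ := θ₁
      comm := ?_
      hπ := ?_
      hκ := ?_
      hq := ?_
      inj := ?_
      lift := ?_ },
    { π := (MonoidHom.snd P (FreeGroup (Fin r))).comp G.subtype
      κ := (MonoidHom.fst P (FreeGroup (Fin r))).comp G.subtype
      q := φ
      θ := p₂
      comm := fun g => g.2
      hπ := ?_
      hκ := ?_
      hq := hφ
      inj := ?_
      lift := ?_ }, rfl, rfl, rfl⟩
  · rintro ⟨⟨x, f⟩, hz⟩
    change θ₁ (p₁ x) = θ₂ (φ f)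
    rw [hθ₁, ← show p₂ x = φ f from hz, hθ₂]
  · intro f
    obtain ⟨x, hx⟩ := h₂ (φ f)
    exact ⟨⟨(x, f), hx⟩, rfl⟩
  · intro γ
    obtain ⟨x, rfl⟩ := h₁ γ
    obtain ⟨f, hf⟩ := hφ (p₂ x)
    exact ⟨⟨(x, f), hf.symm⟩, rfl⟩
  · intro y
    obtain ⟨x, rfl⟩ := hq y
    obtain ⟨f, hf⟩ := hφ (p₂ x)
    refine ⟨f, ?_⟩
    change θ₂ (φ f) = q x
    rw [hf, hθ₂]
  · rintro ⟨⟨x, f⟩, hz⟩ h3 h4
    have h3' : p₁ x = 1 := h3
    have h4' : f = 1 := h4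
    subst h4'
    have h5 : p₂ x = 1 := by
      rw [show p₂ x = φ 1 from hz, map_one]
    have h6 : x ∈ p₁.ker ⊓ p₂.ker := ⟨h3', h5⟩
    rw [hinj, Subgroup.mem_bot] at h6
    subst h6
    rfl
  · intro f hf
    have hf' : θ₂ (φ f) = 1 := hf
    obtain ⟨x, hx⟩ := h₂ (φ f)
    have h3 : x ∈ q.ker := by
      rw [MonoidHom.mem_ker, ← hθ₂, hx, hf']
    rw [hqk, Subgroup.mem_sup_of_normal_left] at h3
    obtain ⟨a, ha, b, hb, hab⟩ := h3
    refine ⟨⟨(a, f), ?_⟩, ha, rfl⟩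
    change p₂ a = φ f
    rw [← hx, ← hab, map_mul, show p₂ b = 1 from hb, mul_one]
  · intro f
    obtain ⟨x, hx⟩ := h₂ (φ f)
    exact ⟨⟨(x, f), hx⟩, rfl⟩
  · intro x
    obtain ⟨f, hf⟩ := hφ (p₂ x)
    exact ⟨⟨(x, f), hf.symm⟩, rfl⟩
  · rintro ⟨⟨x, f⟩, hz⟩ h3 h4
    have h3' : x = 1 := h3
    have h4' : f = 1 := h4
    subst h3'
    subst h4'
    rfl
  · intro f hf
    exact ⟨⟨(1, f), by
      change p₂ 1 = φ f
      rw [map_one, hf]⟩, rfl, rfl⟩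
-- END B1

-- BEGIN B2
/-- (Theorem B) the homological `m`-`(m+1)`-`(m+2)` theorem -/
theorem thmB (p₁ : P →* Γ₁) (p₂ : P →* Γ₂) (q : P →* Q)
    (h₁ : Function.Surjective p₁) (h₂ : Function.Surjective p₂) (hq : Function.Surjective q)
    (hinj : p₁.ker ⊓ p₂.ker = ⊥) (hqk : q.ker = p₁.ker ⊔ p₂.ker) (m : ℕ)
    (hA : GFP m p₂.ker) (hΓ₁ : GFP (m + 1) Γ₁) (hΓ₂ : GFP (m + 1) Γ₂) (hQ : GFP (m + 2) Q)
    (hQp : Group.IsFinitelyPresented Q) : GFP (m + 1) P := by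
  obtain ⟨r, φ, hφ⟩ := exists_free_cover (GFP.fg (GFP.mono (by omega) hΓ₂))
  obtain ⟨G, _, S₁, S₂, h12, hθ, _⟩ := exists_squares p₁ p₂ q h₁ h₂ hq hinj hqk r φ hφ
  obtain ⟨e⟩ := S₂.ker_equiv
  have hA1 : GFP m S₂.θ.ker := by
    rw [hθ]
    exact hA
  have hA2 : GFP m S₂.π.ker := GFP.congr e hA1
  have hA3 : GFP m S₁.π.ker := by
    rw [h12]
    exact hA2
  have hfg : Group.FG (FreeGroup (Fin r)) := inferInstance
  have hn : S₁.κ.ker.IsFinitelyNormallyGenerated :=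
    S₁.ker_fng (ker_fng S₁.q S₁.hq hfg hQp)
  exact thmL S₂ m hA2 (thmA S₁ m hA3 hΓ₁ hQ hn) hΓ₂
-- END B2

end

end Pool.Agent.Lib.MP_d943a5_al
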