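import Pool.Agent.Lib.MP_d943a5_al.FinIdx
import Pool.Agent.Lib.MP_d943a5_al.ThmB
import Pool.Agent.Lib.MP_d943a5_al.Nil

/-!
# Virtual surjection to `k`-tuples
-/

set_option autoImplicit false

namespace Pool.Agent.Lib.MP_d943a5_al

/-- the kernels of the projections of a subdirect product which virtually surjects to
`k`-tuples; the last condition is automatic for `k ≥ 2` -/
structure IsFam (k : ℕ) {P : Type} [Group P] {n : ℕ} (K : Fin n → Subgroup P) : Prop where
  normal : ∀ i, (K i).Normal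
  inf : ⨅ i, K i = ⊥
  fp : ∀ i, ∃ (Γ : Type) (_ : Group Γ) (φ : P →* Γ), Function.Surjective φ ∧ φ.ker = K i ∧
    GFP k Γ
  fin : ∀ (i : Fin n) (J : Finset (Fin n)), i ∉ J → J.card < k →
    (K i ⊔ ⨅ j ∈ J, K j).FiniteIndex
  nil : ∀ i, ∃ (Q : Type) (_ : Group Q) (φ : P →* Q), Function.Surjective φ ∧
    φ.ker = K i ⊔ (⨅ (j : Fin n) (_ : j ≠ i), K j) ∧ VN Q

/-- all factors are finitely presented -/
def FamFp {P : Type} [Group P] {n : ℕ} (K : Fin n → Subgroup P) : Prop :=
  ∀ i, ∃ (Γ : Type) (_ : Group Γ) (φ : P →* Γ), Function.Surjective φ ∧ φ.ker = K i ∧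
    Group.IsFinitelyPresented Γ

section

variable {P : Type} [Group P] {n : ℕ}

-- BEGIN V1
/-- a surjection factors over a quotient by a smaller subgroup -/
theorem v1_lift {P P' Γ : Type} [Group P] [Group P'] [Group Γ] (β : P →* P')
    (hβ : Function.Surjective β) (φ : P →* Γ) (hφ : Function.Surjective φ)
    (hle : β.ker ≤ φ.ker) :
    ∃ ψ : P' →* Γ, Function.Surjective ψ ∧ (∀ x, ψ (β x) = φ x) ∧ ψ.ker = φ.ker.map β := by
  refine ⟨β.liftOfSurjective hβ ⟨φ, hle⟩, ?_, ?_, ?_⟩
  · intro y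
    obtain ⟨x, rfl⟩ := hφ y
    exact ⟨β x, β.liftOfRightInverse_comp_apply _ _ ⟨φ, hle⟩ x⟩
  · intro x
    exact β.liftOfRightInverse_comp_apply _ _ ⟨φ, hle⟩ x
  · ext y
    constructor
    · intro hy
      obtain ⟨x, rfl⟩ := hβ y
      refine ⟨x, ?_, rfl⟩
      have h1 : β.liftOfSurjective hβ ⟨φ, hle⟩ (β x) = φ x :=
        β.liftOfRightInverse_comp_apply _ _ ⟨φ, hle⟩ x
      exact h1.symm.trans hy
    · rintro ⟨x, hx, rfl⟩
      have h1 : β.liftOfSurjective hβ ⟨φ, hle⟩ (β x) = φ x :=
        β.liftOfRightInverse_comp_apply _ _ ⟨φ, hle⟩ x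
      exact h1.trans hx

/-- quotient by the intersection of all but the last subgroup -/
theorem IsFam.quotient {k : ℕ} {K : Fin (n + 1) → Subgroup P} (h : IsFam k K) :
    ∃ (P' : Type) (_ : Group P') (β : P →* P'), Function.Surjective β ∧
      β.ker = (⨅ i : Fin n, K i.castSucc) ∧
      IsFam k (fun i : Fin n => (K i.castSucc).map β) ∧
      (FamFp K → FamFp (fun i : Fin n => (K i.castSucc).map β)) := by
  classical
  have hNn : (⨅ i : Fin n, K i.castSucc).Normal :=
    Subgroup.normal_iInf_normal fun i => h.normal i.castSucc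
  set N : Subgroup P := ⨅ i : Fin n, K i.castSucc with hN
  set β : P →* P ⧸ N := QuotientGroup.mk' N with hβ
  have hβs : Function.Surjective β := QuotientGroup.mk'_surjective N
  have hβk : β.ker = N := QuotientGroup.ker_mk' N
  have hNK : ∀ i : Fin n, N ≤ K i.castSucc := fun i => iInf_le _ i
  -- membership in the image
  have hmem : ∀ (H : Subgroup P), N ≤ H → ∀ x, β x ∈ H.map β ↔ x ∈ H := by
    intro H hH x
    constructor
    · rintro ⟨y, hy, hxy⟩
      have h1 : y⁻¹ * x ∈ β.ker := by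
        rw [MonoidHom.mem_ker, map_mul, map_inv, hxy, inv_mul_cancel]
      rw [hβk] at h1
      have h2 := H.mul_mem hy (hH h1)
      simpa using h2
    · intro hx
      exact ⟨x, hx, rfl⟩
  -- the infimum of images
  have hinfJ : ∀ J : Finset (Fin n),
      (⨅ j ∈ J.map Fin.castSuccEmb, K j) ≤ (⨅ j ∈ J, (K j.castSucc).map β).comap β := by
    intro J x hx
    rw [Subgroup.mem_comap, Subgroup.mem_iInf]
    intro j
    rw [Subgroup.mem_iInf]
    intro hj
    rw [hmem _ (hNK j)]
    rw [Subgroup.mem_iInf] at hx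
    have h1 := hx j.castSucc
    rw [Subgroup.mem_iInf] at h1
    exact h1 (Finset.mem_map.2 ⟨j, hj, rfl⟩)
  refine ⟨P ⧸ N, inferInstance, β, hβs, hβk, ⟨?_, ?_, ?_, ?_, ?_⟩, ?_⟩
  · intro i
    exact (h.normal i.castSucc).map β hβs
  · rw [eq_bot_iff]
    intro y hy
    obtain ⟨x, rfl⟩ := hβs y
    rw [Subgroup.mem_iInf] at hy
    rw [Subgroup.mem_bot, ← MonoidHom.mem_ker, hβk, hN, Subgroup.mem_iInf]
    intro i
    exact (hmem _ (hNK i) x).1 (hy i)
  · intro i
    obtain ⟨Γ, hΓ, φ, hφs, hφk, hfp⟩ := h.fp i.castSucc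
    obtain ⟨ψ, hψs, -, hψk⟩ := v1_lift β hβs φ hφs (by rw [hβk, hφk]; exact hNK i)
    exact ⟨Γ, hΓ, ψ, hψs, by rw [hψk, hφk], hfp⟩
  · intro i J hi hJ
    have h1 := h.fin i.castSucc (J.map Fin.castSuccEmb) (by
      rw [Finset.mem_map]
      rintro ⟨j, hj, hji⟩
      have : j = i := Fin.castSucc_injective n hji
      exact hi (this ▸ hj)) (by rwa [Finset.card_map])
    have h2 : (K i.castSucc ⊔ ⨅ j ∈ J.map Fin.castSuccEmb, K j) ≤
        (((K i.castSucc).map β) ⊔ ⨅ j ∈ J, (K j.castSucc).map β).comap β := by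
      refine sup_le ?_ ?_
      · intro x hx
        exact (le_sup_left : (K i.castSucc).map β ≤ _) ⟨x, hx, rfl⟩
      · exact (hinfJ J).trans (Subgroup.comap_mono le_sup_right)
    have h3 := Subgroup.finiteIndex_of_le h2
    refine ⟨fun h0 => h3.index_ne_zero ?_⟩
    rw [Subgroup.index_comap_of_surjective _ hβs]
    exact h0
  · intro i
    obtain ⟨Q, hQ, φ, hφs, hφk, hvn⟩ := h.nil i.castSucc
    -- the new quotient
    have hM1 : ((K i.castSucc).map β).Normal := (h.normal i.castSucc).map β hβs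
    have hM2 : (⨅ (j : Fin n) (_ : j ≠ i), (K j.castSucc).map β).Normal :=
      Subgroup.normal_iInf_normal fun j => Subgroup.normal_iInf_normal fun _ =>
        (h.normal j.castSucc).map β hβs
    have hMn : ((K i.castSucc).map β ⊔ ⨅ (j : Fin n) (_ : j ≠ i), (K j.castSucc).map β).Normal :=
      Subgroup.sup_normal _ _
    set M := (K i.castSucc).map β ⊔ ⨅ (j : Fin n) (_ : j ≠ i), (K j.castSucc).map β with hM
    refine ⟨(P ⧸ N) ⧸ M, inferInstance, QuotientGroup.mk' M, QuotientGroup.mk'_surjective M,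
      QuotientGroup.ker_mk' M, ?_⟩
    obtain ⟨ψ, hψs, -, -⟩ := v1_lift φ hφs ((QuotientGroup.mk' M).comp β)
      ((QuotientGroup.mk'_surjective M).comp hβs) (by
        rw [hφk]
        intro x hx
        rw [MonoidHom.mem_ker, MonoidHom.comp_apply, ← MonoidHom.mem_ker,
          QuotientGroup.ker_mk', ← Subgroup.mem_comap]
        refine (sup_le ?_ ?_ : _ ≤ M.comap β) hx
        · intro x hx
          exact (le_sup_left : (K i.castSucc).map β ≤ M) ⟨x, hx, rfl⟩
        · intro x hx
          refine (le_sup_right : (⨅ (j : Fin n) (_ : j ≠ i), (K j.castSucc).map β) ≤ M) ?_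
          rw [Subgroup.mem_iInf]
          intro j
          rw [Subgroup.mem_iInf]
          intro hj
          rw [hmem _ (hNK j)]
          rw [Subgroup.mem_iInf] at hx
          have h1 := hx j.castSucc
          rw [Subgroup.mem_iInf] at h1
          exact h1 (fun hc => hj (Fin.castSucc_injective n hc)))
    exact VN.of_surjective ψ hψs hvn
  · intro hF i
    obtain ⟨Γ, hΓ, φ, hφs, hφk, hfp⟩ := hF i.castSucc
    obtain ⟨ψ, hψs, -, hψk⟩ := v1_lift β hβs φ hφs (by rw [hβk, hφk]; exact hNK i)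
    exact ⟨Γ, hΓ, ψ, hψs, by rw [hψk, hφk], hfp⟩
-- END V1

-- BEGIN V2
theorem v2_mem {k : ℕ} {K : Fin (n + 1) → Subgroup P} (_h : IsFam (k + 1) K)
    (i : Fin n) (M : Subgroup P) (hK : (K i.castSucc).Normal) (a : K (Fin.last n))
    (ha : (a : P) ∈ K i.castSucc ⊔ (M ⊓ K (Fin.last n))) :
    a ∈ (K i.castSucc).comap (K (Fin.last n)).subtype ⊔ M.comap (K (Fin.last n)).subtype := by
  obtain ⟨x, hx, y, hy, hxy⟩ := Subgroup.mem_sup_of_normal_left.1 ha
  have hxA : x ∈ K (Fin.last n) := by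
    have : x = a * y⁻¹ := by rw [← hxy, mul_inv_cancel_right]
    rw [this]
    exact (K (Fin.last n)).mul_mem a.2 ((K (Fin.last n)).inv_mem hy.2)
  have h1 : a = (⟨x, hxA⟩ : K (Fin.last n)) * ⟨y, hy.2⟩ := Subtype.ext hxy.symm
  rw [h1]
  exact Subgroup.mul_mem_sup hx hy.1

/-- restriction to the last subgroup -/
theorem IsFam.restrict {k : ℕ} {K : Fin (n + 1) → Subgroup P} (h : IsFam (k + 1) K) :
    IsFam k (fun i : Fin n => (K i.castSucc).comap (K (Fin.last n)).subtype) := by
  have hN : ∀ i, (K i).Normal := h.normal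
  refine ⟨fun i => (h.normal _).comap _, ?_, ?_, ?_, ?_⟩
  · rw [eq_bot_iff]
    intro a ha
    rw [Subgroup.mem_iInf] at ha
    have h1 : (a : P) ∈ ⨅ i, K i := by
      rw [Subgroup.mem_iInf]
      intro i
      refine Fin.lastCases ?_ (fun i => ?_) i
      · exact a.2
      · exact ha i
    rw [h.inf] at h1
    exact Subtype.ext (Subgroup.mem_bot.1 h1)
  · intro i
    obtain ⟨Γ, _, φ, hφ, hker, hG⟩ := h.fp i.castSucc
    refine ⟨(φ.comp (K (Fin.last n)).subtype).range, inferInstance,
      (φ.comp (K (Fin.last n)).subtype).rangeRestrict, MonoidHom.rangeRestrict_surjective _, ?_, ?_⟩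
    · rw [MonoidHom.ker_rangeRestrict, ← MonoidHom.comap_ker, hker]
    · rcases Nat.eq_zero_or_pos k with hk | hk
      · subst hk
        exact GFP_zero
      · have h1 : (K i.castSucc ⊔ ⨅ j ∈ ({Fin.last n} : Finset (Fin (n + 1))), K j).FiniteIndex := by
          apply h.fin
          · rw [Finset.mem_singleton]
            exact (Fin.castSucc_lt_last i).ne
          · rw [Finset.card_singleton]
            omega
        rw [Finset.iInf_singleton] at h1
        have h2 : (φ.comp (K (Fin.last n)).subtype).range = (K (Fin.last n)).map φ := by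
          rw [MonoidHom.range_comp, Subgroup.range_subtype]
        have h3 : ((K (Fin.last n)).map φ).FiniteIndex := by
          constructor
          rw [Subgroup.index_map, hker, φ.range_eq_top_of_surjective hφ, Subgroup.index_top,
            mul_one, sup_comm]
          exact h1.index_ne_zero
        have h4 : (φ.comp (K (Fin.last n)).subtype).range.FiniteIndex := by
          rw [h2]
          exact h3
        exact GFP.finiteIndex _ k (hG.mono (Nat.le_succ k))
  · intro i J hi hJ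
    classical
    let J' : Finset (Fin (n + 1)) := insert (Fin.last n) (J.image Fin.castSucc)
    have hJ' : (K i.castSucc ⊔ ⨅ j ∈ J', K j).FiniteIndex := by
      apply h.fin
      · intro hm
        rcases Finset.mem_insert.1 hm with h1 | h1
        · exact (Fin.castSucc_lt_last i).ne h1
        · obtain ⟨j, hj, hji⟩ := Finset.mem_image.1 h1
          rw [Fin.castSucc_inj] at hji
          rw [hji] at hj
          exact hi hj
      · refine lt_of_le_of_lt (Finset.card_insert_le _ _) ?_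
        have := Finset.card_image_le (s := J) (f := Fin.castSucc)
        omega
    have h1 : (⨅ j ∈ J', K j) = (⨅ j ∈ J, K j.castSucc) ⊓ K (Fin.last n) := by
      rw [Finset.iInf_insert, Finset.iInf_finset_image, inf_comm]
    rw [h1] at hJ'
    have h2 : (K i.castSucc ⊔ ((⨅ j ∈ J, K j.castSucc) ⊓ K (Fin.last n))).subgroupOf
        (K (Fin.last n)) ≤
        (K i.castSucc).comap (K (Fin.last n)).subtype ⊔
          ⨅ j ∈ J, (K j.castSucc).comap (K (Fin.last n)).subtype := by
      intro a ha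
      have h3 := v2_mem h i (⨅ j ∈ J, K j.castSucc) (hN _) a ha
      rw [Subgroup.comap_iInf] at h3
      simp only [Subgroup.comap_iInf] at h3
      exact h3
    exact Subgroup.finiteIndex_of_le h2
  · intro i
    obtain ⟨Q, _, φ, hφ, hker, hV⟩ := h.nil i.castSucc
    refine ⟨(φ.comp (K (Fin.last n)).subtype).range, inferInstance,
      (φ.comp (K (Fin.last n)).subtype).rangeRestrict, MonoidHom.rangeRestrict_surjective _, ?_, ?_⟩
    · rw [MonoidHom.ker_rangeRestrict, ← MonoidHom.comap_ker, hker]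
      have h1 : (⨅ (j : Fin (n + 1)) (_ : j ≠ i.castSucc), K j) =
          (⨅ (j : Fin n) (_ : j ≠ i), K j.castSucc) ⊓ K (Fin.last n) := by
        apply le_antisymm
        · refine le_inf (le_iInf fun j => le_iInf fun hj => ?_) ?_
          · exact iInf₂_le j.castSucc (fun h => hj (Fin.castSucc_inj.1 h))
          · exact iInf₂_le (Fin.last n) (Fin.castSucc_lt_last i).ne'
        · refine le_iInf fun j => le_iInf fun hj => ?_
          revert hj
          refine Fin.lastCases ?_ (fun j => ?_) j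
          · intro _
            exact inf_le_right
          · intro hj
            exact inf_le_left.trans (iInf₂_le j (fun h => hj (by rw [h])))
      rw [h1]
      apply le_antisymm
      · intro a ha
        have h3 := v2_mem h i (⨅ (j : Fin n) (_ : j ≠ i), K j.castSucc) (hN _) a ha
        simp only [Subgroup.comap_iInf] at h3
        exact h3
      · refine sup_le (Subgroup.comap_mono le_sup_left) ?_
        intro a ha
        have h3 : (a : P) ∈ (⨅ (j : Fin n) (_ : j ≠ i), K j.castSucc) ⊓ K (Fin.last n) := by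
          refine ⟨?_, a.2⟩
          change (a : P) ∈ (⨅ (j : Fin n) (_ : j ≠ i), K j.castSucc)
          rw [Subgroup.mem_iInf]
          intro j
          rw [Subgroup.mem_iInf]
          intro hj
          rw [Subgroup.mem_iInf] at ha
          have h4 := ha j
          rw [Subgroup.mem_iInf] at h4
          exact h4 hj
        exact Subgroup.mem_sup_right h3
    · exact VN.of_injective (Subgroup.subtype _) (Subgroup.subtype_injective _) hV
-- END V2

-- BEGIN V3
/-- the common quotient is finitely presented and of type `FP n` for all `n` -/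
theorem IsFam.good {k : ℕ} {K : Fin (n + 1) → Subgroup P} (h : IsFam (k + 1) K) :
    ∃ (Q : Type) (_ : Group Q) (q : P →* Q), Function.Surjective q ∧
      q.ker = (⨅ i : Fin n, K i.castSucc) ⊔ K (Fin.last n) ∧ Good Q := by
  obtain ⟨Q, _, q, hq, hker, hVN⟩ := h.nil (Fin.last n)
  obtain ⟨Γ, _, φ, hφ, hφk, hG⟩ := h.fp (Fin.last n)
  have hFG : Group.FG Γ := GFP.fg (GFP.mono (by omega : 1 ≤ k + 1) hG)
  have hle : φ.ker ≤ q.ker := by
    rw [hφk, hker]
    exact le_sup_left
  have hQ : Group.FG Q := by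
    refine Group.fg_of_surjective (f := MonoidHom.liftOfSurjective φ hφ ⟨q, hle⟩) ?_
    intro y
    obtain ⟨p, rfl⟩ := hq y
    exact ⟨φ p, MonoidHom.liftOfRightInverse_comp_apply φ _ _ ⟨q, hle⟩ p⟩
  refine ⟨Q, _, q, hq, ?_, Good.virtuallyNilpotent hQ hVN⟩
  rw [hker, sup_comm]
  congr 1
  apply le_antisymm
  · exact le_iInf fun i => iInf₂_le i.castSucc (Fin.castSucc_lt_last i).ne
  · refine le_iInf₂ fun j hj => ?_
    obtain ⟨i, rfl⟩ := Fin.exists_castSucc_eq.2 hj
    exact iInf_le (fun i : Fin n => K i.castSucc) i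
-- END V3

-- BEGIN V4
theorem IsFam.step {k : ℕ} {K : Fin (n + 1) → Subgroup P} (h : IsFam (k + 1) K)
    (h1 : GFP k (K (Fin.last n)))
    (h2 : ∀ (P' : Type) [Group P'] (K' : Fin n → Subgroup P'), IsFam (k + 1) K' →
      GFP (k + 1) P') : GFP (k + 1) P := by
  obtain ⟨P', _, β, hβ, hβk, hfam, _⟩ := h.quotient
  obtain ⟨Γ, _, φ, hφ, hφk, hΓ⟩ := h.fp (Fin.last n)
  obtain ⟨Q, _, q, hq, hqk, hgood⟩ := h.good
  refine thmB β φ q hβ hφ hq ?_ ?_ k ?_ (h2 P' _ hfam) hΓ (hgood.2 (k + 2)) hgood.1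
  · rw [hβk, hφk, eq_bot_iff, ← h.inf]
    refine le_iInf fun i => ?_
    refine Fin.lastCases ?_ (fun i => ?_) i
    · exact inf_le_right
    · exact inf_le_left.trans (iInf_le _ i)
  · rw [hqk, hβk, hφk]
  · rw [hφk]
    exact h1
-- END V4

-- BEGIN V5
theorem v5_triv {P : Type} [Group P] (k : ℕ) (K : Fin 0 → Subgroup P) (h : IsFam k K) :
    Finite P := by
  have h1 : (⊤ : Subgroup P) = ⊥ := by
    rw [← h.inf]
    exact (iInf_of_empty K).symm
  have h2 : Subsingleton P := by
    refine ⟨fun a b => ?_⟩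
    have ha : a ∈ (⊥ : Subgroup P) := by rw [← h1]; exact Subgroup.mem_top a
    have hb : b ∈ (⊥ : Subgroup P) := by rw [← h1]; exact Subgroup.mem_top b
    rw [Subgroup.mem_bot.1 ha, Subgroup.mem_bot.1 hb]
  infer_instance

theorem IsFam.gfp : ∀ (k n : ℕ) (P : Type) [Group P] (K : Fin n → Subgroup P), IsFam k K →
    GFP k P := by
  intro k
  induction k with
  | zero =>
    intro n P _ K _
    exact GFP_zero
  | succ k ihk =>
    intro n
    induction n with
    | zero =>
      intro P _ K h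
      have := v5_triv (k + 1) K h
      exact GFP.of_finite _
    | succ n ihn =>
      intro P _ K h
      exact h.step (ihk n _ _ h.restrict) (fun P' _ K' h' => ihn P' K' h')
-- END V5

-- BEGIN V6
theorem IsFam.fpres : ∀ (n k : ℕ) (P : Type) [Group P] (K : Fin n → Subgroup P),
    IsFam (k + 2) K → FamFp K → Group.IsFinitelyPresented P := by
  intro n
  induction n with
  | zero =>
    intro k P _ K h _
    have h1 : (⊤ : Subgroup P) = ⊥ := by
      rw [← h.inf, iInf_of_isEmpty, sInf_empty]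
    have : Subsingleton P := by
      refine ⟨fun a b => ?_⟩
      have ha : a ∈ (⊥ : Subgroup P) := h1 ▸ Subgroup.mem_top a
      have hb : b ∈ (⊥ : Subgroup P) := h1 ▸ Subgroup.mem_top b
      rw [Subgroup.mem_bot] at ha hb
      rw [ha, hb]
    have : Finite P := inferInstance
    infer_instance
  | succ n ih =>
    intro k P _ K h hfp
    obtain ⟨P', _, β, hβ, hβk, hfam, hff⟩ := h.quotient
    have hP' : Group.IsFinitelyPresented P' := ih k P' _ hfam (hff hfp)
    obtain ⟨Γ, _, φ, hφ, hφk, hΓ⟩ := hfp (Fin.last n)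
    have hA : Group.FG φ.ker := by
      rw [hφk]
      exact GFP.fg (GFP.mono (by omega) (IsFam.gfp (k + 1) n _ _ h.restrict))
    have hinj : β.ker ⊓ φ.ker = ⊥ := by
      rw [hβk, hφk, ← h.inf]
      apply le_antisymm
      · refine le_iInf fun i => ?_
        refine Fin.lastCases ?_ (fun i => ?_) i
        · exact inf_le_right
        · exact inf_le_left.trans (iInf_le _ i)
      · refine le_inf (le_iInf fun i => iInf_le _ _) (iInf_le _ _)
    exact fp_thm β φ hβ hφ hinj hA hP' hΓ (GFP.mono (by omega) (IsFam.gfp (k + 2) (n + 1) P K h))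
-- END V6

end

section

variable {n : ℕ} (Γ : Fin n → Type) [∀ i, Group (Γ i)] (P : Subgroup (∀ i, Γ i))

/-- the kernel of the `i`-th projection -/
def kerProj (i : Fin n) : Subgroup P := ((Pi.evalMonoidHom Γ i).comp P.subtype).ker

-- BEGIN V7
theorem v7_comap {G H : Type} [Group G] [Group H] (f : G →* H) (K : Subgroup H)
    (hK : K.FiniteIndex) : (K.comap f).FiniteIndex := by
  refine ⟨?_⟩
  rw [Subgroup.index_comap]
  have h1 : (K.subgroupOf f.range).FiniteIndex := inferInstance
  exact h1.index_ne_zero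

theorem kerProj_fin (k : ℕ) (hkn : k ≤ n)
    (hJ : ∀ J : Finset (Fin n), J.card = k →
      (P.map (MonoidHom.pi (fun j : ↥J => Pi.evalMonoidHom Γ (j : Fin n)))).index ≠ 0)
    (i : Fin n) (J : Finset (Fin n)) (hi : i ∉ J) (hc : J.card < k) :
    (kerProj Γ P i ⊔ ⨅ j ∈ J, kerProj Γ P j).FiniteIndex := by
  classical
  have hcard : (insert i J).card ≤ k := by
    rw [Finset.card_insert_of_notMem hi]
    exact hc
  obtain ⟨J', hJJ', hJ'⟩ := Finset.exists_superset_card_eq hcard (by simpa using hkn)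
  have hiJ' : i ∈ J' := hJJ' (Finset.mem_insert_self i J)
  have hH := hJ J' hJ'
  set ρ : (∀ i, Γ i) →* (∀ j : ↥J', Γ (j : Fin n)) :=
    MonoidHom.pi (fun j : ↥J' => Pi.evalMonoidHom Γ (j : Fin n)) with hρ
  let ε : Γ i →* (∀ j : ↥J', Γ (j : Fin n)) :=
    MonoidHom.mulSingle (fun j : ↥J' => Γ (j : Fin n)) ⟨i, hiJ'⟩
  let p : P →* Γ i := (Pi.evalMonoidHom Γ i).comp P.subtype
  have hfin : (((P.map ρ).comap ε).comap p).FiniteIndex := by
    exact v7_comap _ _ (v7_comap _ _ ⟨hH⟩)
  refine Subgroup.finiteIndex_of_le (H := ((P.map ρ).comap ε).comap p) ?_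
  intro x hx
  obtain ⟨y, hy, hyx⟩ := hx
  have hyi : y i = (x : ∀ j, Γ j) i := by
    have := congrFun hyx ⟨i, hiJ'⟩
    simpa [ρ, ε, p] using this
  have hyj : ∀ j ∈ J, y j = 1 := by
    intro j hj
    have hjJ' : j ∈ J' := hJJ' (Finset.mem_insert_of_mem hj)
    have hne : (⟨j, hjJ'⟩ : ↥J') ≠ ⟨i, hiJ'⟩ := by
      intro h
      have : j = i := congrArg Subtype.val h
      exact hi (this ▸ hj)
    have := congrFun hyx ⟨j, hjJ'⟩
    simpa [ρ, ε, p, hne] using this
  have e : x = (x * (⟨y, hy⟩ : P)⁻¹) * ⟨y, hy⟩ := by group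
  rw [e]
  refine Subgroup.mul_mem_sup ?_ ?_
  · change ((x : ∀ j, Γ j) * y⁻¹) i = 1
    rw [Pi.mul_apply, Pi.inv_apply, hyi, mul_inv_cancel]
  · simp only [Subgroup.mem_iInf]
    intro j hj
    exact hyj j hj
-- END V7

-- BEGIN V8
open scoped commutatorElement in
/-- commutators of elements of two subgroups containing the same normal subgroup -/
theorem v8_comm {P : Type} [Group P] (N A B : Subgroup P) [N.Normal] [A.Normal] [B.Normal] :
    ⁅N ⊔ A, N ⊔ B⁆ ≤ N ⊔ (A ⊓ B) := by
  rw [Subgroup.commutator_le]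
  intro x hx y hy
  have hx' : x ∈ ((N ⊔ A : Subgroup P) : Set P) := hx
  have hy' : y ∈ ((N ⊔ B : Subgroup P) : Set P) := hy
  rw [Subgroup.normal_mul] at hx' hy'
  obtain ⟨k, hk, a, ha, rfl⟩ := hx'
  obtain ⟨l, hl, b, hb, rfl⟩ := hy'
  have hab : ⁅a, b⁆ ∈ A ⊓ B := by
    refine ⟨?_, ?_⟩
    · exact Subgroup.commutator_le_left A ⊤
        (Subgroup.commutator_mem_commutator ha (Subgroup.mem_top b))
    · exact Subgroup.commutator_le_right ⊤ B
        (Subgroup.commutator_mem_commutator (Subgroup.mem_top a) hb)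
  -- compare in the quotient by `N`
  have h1 : (QuotientGroup.mk ⁅k * a, l * b⁆ : P ⧸ N) = QuotientGroup.mk ⁅a, b⁆ := by
    have hk' : (QuotientGroup.mk k : P ⧸ N) = 1 := (QuotientGroup.eq_one_iff k).2 hk
    have hl' : (QuotientGroup.mk l : P ⧸ N) = 1 := (QuotientGroup.eq_one_iff l).2 hl
    simp only [commutatorElement_def, QuotientGroup.mk_mul, QuotientGroup.mk_inv, hk', hl',
      one_mul]
  have h2 : (⁅a, b⁆)⁻¹ * ⁅k * a, l * b⁆ ∈ N := by
    rw [← QuotientGroup.eq]
    exact h1.symm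
  have h3 : ⁅k * a, l * b⁆ = ⁅a, b⁆ * ((⁅a, b⁆)⁻¹ * ⁅k * a, l * b⁆) := by group
  rw [h3]
  exact Subgroup.mul_mem _ ((le_sup_right : A ⊓ B ≤ N ⊔ (A ⊓ B)) hab)
    ((le_sup_left : N ≤ N ⊔ (A ⊓ B)) h2)

/-- if all pairs of normal subgroups generate subgroups of finite index, then the quotients are
virtually nilpotent -/
theorem vn_of_pairs {P : Type} [Group P] (K : Fin n → Subgroup P) (hK : ∀ i, (K i).Normal)
    (h : ∀ i j, i ≠ j → (K i ⊔ K j).FiniteIndex) (i : Fin n) :
    ∃ (Q : Type) (_ : Group Q) (φ : P →* Q), Function.Surjective φ ∧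
      φ.ker = K i ⊔ (⨅ (j : Fin n) (_ : j ≠ i), K j) ∧ VN Q := by
  classical
  have hnI : ∀ J : Finset (Fin n), (⨅ j ∈ J, K j).Normal := fun J =>
    Subgroup.normal_iInf_normal fun j => Subgroup.normal_iInf_normal fun _ => hK j
  have hinf : (⨅ (j : Fin n) (_ : j ≠ i), K j) = ⨅ j ∈ Finset.univ.erase i, K j := by
    simp
  rw [hinf]
  set N : Subgroup P := K i ⊔ ⨅ j ∈ Finset.univ.erase i, K j with hN
  have hNi := hK i
  have hNn := hnI (Finset.univ.erase i)
  have hNN : N.Normal := Subgroup.sup_normal _ _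
  set P0 : Subgroup P := ⨅ j ∈ Finset.univ.erase i, (K i ⊔ K j) with hP0
  have hP0n : P0.Normal := Subgroup.normal_iInf_normal fun j =>
    Subgroup.normal_iInf_normal fun _ => by
      have := hK j
      exact Subgroup.sup_normal _ _
  have hP0f : P0.FiniteIndex := by
    refine Subgroup.finiteIndex_iInf' (fun j => K i ⊔ K j) fun j hj => ?_
    exact h i j (fun hij => (Finset.mem_erase.1 hj).1 hij.symm)
  have claim : ∀ J : Finset (Fin n), J ⊆ Finset.univ.erase i →
      ∃ t : ℕ, P0.lowerCentralSeries t ≤ K i ⊔ ⨅ j ∈ J, K j := by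
    intro J
    induction J using Finset.induction_on with
    | empty =>
      intro _
      exact ⟨0, by simp⟩
    | insert j J hj ih =>
      intro hJ
      obtain ⟨t, ht⟩ := ih ((Finset.subset_insert j J).trans hJ)
      refine ⟨t + 1, ?_⟩
      have h1 : P0 ≤ K i ⊔ K j := by
        rw [hP0]
        exact iInf₂_le j (hJ (Finset.mem_insert_self j J))
      have hJn := hnI J
      have hjn := hK j
      rw [Subgroup.lowerCentralSeries_succ]
      refine (Subgroup.commutator_mono ht h1).trans ((v8_comm (K i) _ (K j)).trans ?_)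
      rw [Finset.iInf_insert, inf_comm]
  obtain ⟨t, ht⟩ := claim _ (Finset.Subset.refl _)
  refine ⟨P ⧸ N, inferInstance, QuotientGroup.mk' N, QuotientGroup.mk'_surjective N,
    QuotientGroup.ker_mk' N, P0.map (QuotientGroup.mk' N), ?_, ?_, ?_⟩
  · exact hP0n.map _ (QuotientGroup.mk'_surjective N)
  · refine ⟨fun h0 => hP0f.index_ne_zero ?_⟩
    have h1 := Subgroup.index_map_dvd P0 (QuotientGroup.mk'_surjective N)
    rw [h0] at h1
    exact zero_dvd_iff.1 h1
  · rw [Subgroup.isNilpotent_iff_lowerCentralSeries]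
    refine ⟨t, ?_⟩
    rw [← Subgroup.map_lowerCentralSeries, Subgroup.map_eq_bot_iff, QuotientGroup.ker_mk']
    exact ht
-- END V8

-- BEGIN V9
/-- the virtual surjection theorem -/
theorem vsc (k : ℕ) (hk : 2 ≤ k) (hkn : k ≤ n) (hΓ : ∀ i, GFP k (Γ i))
    (hfp : ∀ i, Group.IsFinitelyPresented (Γ i))
    (hJ : ∀ J : Finset (Fin n), J.card = k →
      (P.map (MonoidHom.pi (fun j : ↥J => Pi.evalMonoidHom Γ (j : Fin n)))).index ≠ 0) :
    Group.IsFinitelyPresented P ∧ GFP k P := by
  classical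
  have hfi : ∀ i, ((Pi.evalMonoidHom Γ i).comp P.subtype).range.FiniteIndex := by
    intro i
    obtain ⟨J, hiJ, hJc⟩ := Finset.exists_superset_card_eq (s := ({i} : Finset (Fin n)))
      (n := k) (by rw [Finset.card_singleton]; omega) (by simpa using hkn)
    have hi : i ∈ J := hiJ (Finset.mem_singleton_self i)
    let q : (∀ j : ↥J, Γ (j : Fin n)) →* Γ i :=
      Pi.evalMonoidHom (fun j : ↥J => Γ (j : Fin n)) ⟨i, hi⟩
    have hq : Function.Surjective q := fun y => by
      obtain ⟨x, hx⟩ := Function.surjective_eval (⟨i, hi⟩ : ↥J)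
        (β := fun j : ↥J => Γ (j : Fin n)) y
      exact ⟨x, hx⟩
    have h1 := Subgroup.index_map_dvd
      (P.map (MonoidHom.pi (fun j : ↥J => Pi.evalMonoidHom Γ (j : Fin n)))) hq
    have h2 : (P.map (MonoidHom.pi (fun j : ↥J => Pi.evalMonoidHom Γ (j : Fin n)))).map q =
        ((Pi.evalMonoidHom Γ i).comp P.subtype).range := by
      ext y
      constructor
      · rintro ⟨_, ⟨x, hx, rfl⟩, rfl⟩
        exact ⟨⟨x, hx⟩, rfl⟩
      · rintro ⟨x, rfl⟩
        exact ⟨_, ⟨x.1, x.2, rfl⟩, rfl⟩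
    rw [h2] at h1
    exact ⟨fun h0 => hJ J hJc (zero_dvd_iff.1 (h0 ▸ h1))⟩
  obtain ⟨k, rfl⟩ := Nat.exists_eq_add_of_le' hk
  have hfin := kerProj_fin Γ P (k + 2) hkn hJ
  have hnorm : ∀ i, (kerProj Γ P i).Normal := fun i => MonoidHom.normal_ker _
  have hfam : IsFam (k + 2) (kerProj Γ P) := by
    refine ⟨hnorm, ?_, ?_, hfin, ?_⟩
    · rw [eq_bot_iff]
      intro x hx
      rw [Subgroup.mem_iInf] at hx
      rw [Subgroup.mem_bot]
      apply Subtype.ext
      funext i
      exact hx i
    · intro i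
      have := hfi i
      exact ⟨((Pi.evalMonoidHom Γ i).comp P.subtype).range, inferInstance,
        ((Pi.evalMonoidHom Γ i).comp P.subtype).rangeRestrict,
        MonoidHom.rangeRestrict_surjective _, MonoidHom.ker_rangeRestrict _,
        GFP.finiteIndex _ _ (hΓ i)⟩
    · intro i
      refine vn_of_pairs (kerProj Γ P) hnorm ?_ i
      intro i j hij
      have h1 := hfin i {j} (by simpa using hij) (by simp)
      simpa using h1
  have hff : FamFp (kerProj Γ P) := fun i => by
    have := hfi i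
    exact ⟨((Pi.evalMonoidHom Γ i).comp P.subtype).range, inferInstance,
        ((Pi.evalMonoidHom Γ i).comp P.subtype).rangeRestrict,
        MonoidHom.rangeRestrict_surjective _, MonoidHom.ker_rangeRestrict _,
        fp_finiteIndex _ (hfp i)⟩
  exact ⟨IsFam.fpres n k P _ hfam hff, IsFam.gfp (k + 2) n P _ hfam⟩
-- END V9

end

end Pool.Agent.Lib.MP_d943a5_al
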